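import Pool.Agent.Lib.HP.Defs
import Pool.Agent.Lib.HP26.Dec2

/-! The Fourier transform of a Schwartz function of integral one, and the Poisson symbol, are
admissible multipliers. -/

open MeasureTheory Real
open scoped ENNReal ContDiff SchwartzMap FourierTransform

noncomputable section

namespace Pool.Agent.HP

theorem ADM.memLp_po (n : ℕ) : MemLp (po : E n → ℂ) 2 := by
  have hc : Continuous (po : E n → ℂ) := by
    unfold po
    fun_prop
  rw [memLp_two_iff_integrable_sq_norm hc.aestronglyMeasurable]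
  have h := (integrable_one_add_norm (E := E n) (μ := volume) (r := (n + 1 : ℕ))
    (by simp)).const_mul (((n + 1).factorial : ℝ) * Real.exp 1)
  refine h.mono' (hc.norm.pow 2).aestronglyMeasurable (.of_forall fun ξ => ?_)
  have h0 := norm_nonneg ξ
  have h1 := Real.pow_div_factorial_le_exp (1 + ‖ξ‖) (by positivity) (n + 1)
  have h2 : (0 : ℝ) < (n + 1).factorial := by exact_mod_cast (n + 1).factorial_pos
  rw [div_le_iff₀ h2] at h1
  rw [norm_pow, norm_norm, po, Complex.norm_real, Real.norm_of_nonneg (Real.exp_pos _).le,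
    Real.rpow_neg (by positivity), Real.rpow_natCast, ← div_eq_mul_inv,
    le_div_iff₀ (by positivity)]
  refine (mul_le_mul_of_nonneg_left h1 (by positivity)).trans ?_
  rw [← mul_assoc, mul_comm, ← Real.exp_nat_mul, ← Real.exp_add]
  refine mul_le_mul_of_nonneg_left (Real.exp_le_exp.2 ?_) h2.le
  have := Real.pi_gt_three
  push_cast
  nlinarith

theorem st_ADM : St_ADM := by
  refine fun n => ⟨fun φ hφ => ⟨(𝓕 φ : 𝓢(E n, ℂ)).memLp 2 volume, ?_⟩, ADM.memLp_po n, ?_⟩
  · obtain ⟨c, r, hc, hr, h⟩ := HP26.exists_c_smooth (m := 𝓕 (φ : E n → ℂ))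
      ((𝓕 φ : 𝓢(E n, ℂ)).smooth ⊤) (by simpa [Real.fourier_eq] using hφ)
    refine ⟨r / 2, 1, fun ξ => c ((r / 2) • ξ), fun _ => 0, by positivity, one_pos,
      (hc.comp (contDiff_const_smul _)).contDiffOn, contDiffOn_const, fun ξ hξ => ?_⟩
    rw [zero_mul, add_zero]
    refine h _ ?_
    rw [norm_smul, Real.norm_of_nonneg (by positivity)]
    nlinarith
  · obtain ⟨c, hc, h⟩ := HP26.exists_c_poisson (E := E n)
    refine ⟨1, 2, c false, c true, one_pos, two_pos, (hc _).contDiffOn, (hc _).contDiffOn,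
      fun ξ _ => ?_⟩
    have h1 := h ξ
    rw [Fintype.sum_bool, add_comm] at h1
    simpa [HP26.pm, po, norm_smul] using h1

end Pool.Agent.HP
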