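import Pool.Agent.Lib.HP.Defs

/-! The conjugate Poisson system satisfies the generalized Cauchy-Riemann equations. -/

set_option autoImplicit false

open MeasureTheory Complex Real Filter Topology
open scoped ENNReal ContDiff FourierTransform

noncomputable section

namespace Pool.Agent.HP

namespace CRU

variable {n : ℕ}

/-- the exponent of the Poisson symbol times the character -/
def lin (ξ : E n) : Y n →L[ℝ] ℂ :=
  (2 * π * I : ℂ) • ofRealCLM.comp ((innerSL ℝ ξ).comp (ContinuousLinearMap.fst ℝ (E n) ℝ)) -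
    (2 * π * ‖ξ‖ : ℝ) • ofRealCLM.comp (ContinuousLinearMap.snd ℝ (E n) ℝ)

lemma lin_apply (ξ : E n) (X : Y n) :
    lin ξ X = ((2 * π * inner ℝ ξ X.1 : ℝ) : ℂ) * I + ((-(2 * π * X.2 * ‖ξ‖) : ℝ) : ℂ) := by
  simp [lin]
  ring

lemma continuous_lin : Continuous (lin : E n → Y n →L[ℝ] ℂ) := by
  refine continuous_clm_apply.2 fun X => ?_
  simp only [lin_apply]
  fun_prop

lemma norm_lin (ξ : E n) : ‖lin ξ‖ ≤ 4 * π * ‖ξ‖ := by
  refine ContinuousLinearMap.opNorm_le_bound _ (by positivity) fun X => ?_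
  rw [lin_apply]
  refine (norm_add_le _ _).trans ?_
  rw [norm_mul, norm_I, mul_one, norm_real, norm_real, norm_neg, norm_mul, norm_mul 2 π,
    norm_mul, norm_mul, norm_mul 2 π, norm_norm, Real.norm_of_nonneg pi_pos.le, Real.norm_two]
  have h1 := (norm_inner_le_norm (𝕜 := ℝ) ξ X.1).trans
    (mul_le_mul_of_nonneg_left (norm_fst_le X) (norm_nonneg ξ))
  have h2 := mul_le_mul_of_nonneg_right (norm_snd_le X) (norm_nonneg ξ)
  nlinarith [pi_pos]

lemma norm_exp_lin (ξ : E n) (X : Y n) :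
    ‖Complex.exp (lin ξ X)‖ = Real.exp (-(2 * π * X.2 * ‖ξ‖)) := by
  rw [Complex.norm_exp, lin_apply, add_re, ofReal_re, re_ofReal_mul, I_re, mul_zero, zero_add]

/-- functions of subexponential growth in the mean -/
def P (h : E n → ℂ) : Prop :=
  AEStronglyMeasurable h volume ∧
    ∀ d : ℝ, 0 < d → Integrable fun ξ => Real.exp (-(d * ‖ξ‖)) * ‖h ξ‖

lemma integrable_exp {c : ℝ} (hc : 0 < c) : Integrable fun ξ : E n => Real.exp (-(c * ‖ξ‖)) := by
  have hk : (0 : ℝ) < (n + 1 : ℕ) := by positivity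
  have h1 := (integrable_one_add_norm (E := E n) (μ := volume) (r := (n + 1 : ℕ))
    (by simp)).const_mul ((1 + (n + 1 : ℕ) / c) ^ (n + 1))
  refine h1.mono' (by fun_prop) (Eventually.of_forall fun ξ => ?_)
  have h0 := norm_nonneg ξ
  have h2 : 1 + ‖ξ‖ ≤ (1 + (n + 1 : ℕ) / c) * Real.exp (c * ‖ξ‖ / (n + 1 : ℕ)) := by
    refine le_trans ?_ (mul_le_mul_of_nonneg_left (Real.add_one_le_exp _) (by positivity))
    have h3 : ((n + 1 : ℕ) : ℝ) / c * (c * ‖ξ‖ / (n + 1 : ℕ)) = ‖ξ‖ := by field_simp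
    have h4 : 0 ≤ c * ‖ξ‖ / (n + 1 : ℕ) := by positivity
    have h5 : 0 ≤ ((n + 1 : ℕ) : ℝ) / c := by positivity
    nlinarith
  have h3 := pow_le_pow_left₀ (by positivity) h2 (n + 1)
  rw [mul_pow, ← Real.exp_nat_mul, mul_div_cancel₀ _ hk.ne'] at h3
  rw [Real.norm_of_nonneg (Real.exp_pos _).le, Real.rpow_neg (by positivity), Real.rpow_natCast,
    Real.exp_neg, ← div_eq_mul_inv, le_div_iff₀ (by positivity), inv_mul_le_iff₀ (Real.exp_pos _),
    mul_comm]
  exact h3

lemma P.of_memLp {g : E n → ℂ} (hg : MemLp g 2) : P g := by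
  refine ⟨hg.1, fun d hd => MemLp.integrable_mul (p := 2) (q := 2) ?_ hg.norm⟩
  refine (memLp_two_iff_integrable_sq (by fun_prop)).2 ?_
  refine (integrable_exp (c := 2 * d) (by positivity)).congr (Eventually.of_forall fun ξ => ?_)
  simp only
  rw [← Real.exp_nat_mul]
  congr 1
  push_cast
  ring

lemma P.lin_bound {h : E n → ℂ} (hh : P h) {d : ℝ} (hd : 0 < d) (C : ℝ) :
    Integrable fun ξ => Real.exp (-(d * ‖ξ‖)) * ‖h ξ‖ * (C * ‖ξ‖) := by
  have h1 : Integrable fun ξ => Real.exp (-(d * ‖ξ‖)) * ‖h ξ‖ * ‖ξ‖ := by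
    refine ((hh.2 (d / 2) (by positivity)).const_mul (2 / d)).mono'
      (((by fun_prop : AEStronglyMeasurable (fun ξ : E n => Real.exp (-(d * ‖ξ‖))) volume).mul
        hh.1.norm).mul (by fun_prop)) (Eventually.of_forall fun ξ => ?_)
    have h2 : d / 2 * ‖ξ‖ * Real.exp (-(d / 2 * ‖ξ‖)) ≤ 1 :=
      (Real.mul_exp_neg_le_exp_neg_one _).trans (Real.exp_le_one_iff.2 (by norm_num))
    have h3 : Real.exp (-(d * ‖ξ‖)) = Real.exp (-(d / 2 * ‖ξ‖)) * Real.exp (-(d / 2 * ‖ξ‖)) := by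
      rw [← Real.exp_add]
      congr 1
      ring
    have h4 : Real.exp (-(d * ‖ξ‖)) * ‖h ξ‖ * ‖ξ‖ = 2 / d * (Real.exp (-(d / 2 * ‖ξ‖)) * ‖h ξ‖) *
        (d / 2 * ‖ξ‖ * Real.exp (-(d / 2 * ‖ξ‖))) := by
      rw [h3]
      field_simp
    rw [Real.norm_of_nonneg (by positivity), h4]
    exact mul_le_of_le_one_right (by positivity) h2
  exact (h1.const_mul C).congr (Eventually.of_forall fun ξ => by ring)

lemma P.mul_lin {h : E n → ℂ} (hh : P h) (v : Y n) : P fun ξ => lin ξ v * h ξ := by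
  have hm : AEStronglyMeasurable (fun ξ => lin ξ v * h ξ) volume :=
    (continuous_lin.clm_apply continuous_const).aestronglyMeasurable.mul hh.1
  refine ⟨hm, fun d hd => (hh.lin_bound hd (4 * π * ‖v‖)).mono'
    ((by fun_prop : AEStronglyMeasurable (fun ξ : E n => Real.exp (-(d * ‖ξ‖))) volume).mul
      hm.norm) (Eventually.of_forall fun ξ => ?_)⟩
  rw [Real.norm_of_nonneg (by positivity), norm_mul, mul_comm ‖lin ξ v‖, ← mul_assoc]
  refine mul_le_mul_of_nonneg_left (((lin ξ).le_opNorm v).trans ?_) (by positivity)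
  exact (mul_le_mul_of_nonneg_right (norm_lin ξ) (norm_nonneg v)).trans_eq (by ring)

/-- the Poisson integral on the Fourier side -/
def J (h : E n → ℂ) (X : Y n) : ℂ := ∫ ξ, Complex.exp (lin ξ X) * h ξ

lemma P.meas {h : E n → ℂ} (hh : P h) (X : Y n) :
    AEStronglyMeasurable (fun ξ => Complex.exp (lin ξ X) * h ξ) volume :=
  (continuous_lin.clm_apply continuous_const).cexp.aestronglyMeasurable.mul hh.1

lemma norm_le (h : E n → ℂ) {X : Y n} {δ : ℝ} (hX : δ ≤ X.2) (ξ : E n) :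
    ‖Complex.exp (lin ξ X) * h ξ‖ ≤ Real.exp (-(2 * π * δ * ‖ξ‖)) * ‖h ξ‖ := by
  rw [norm_mul, norm_exp_lin]
  gcongr

lemma P.int {h : E n → ℂ} (hh : P h) {X : Y n} (hX : 0 < X.2) :
    Integrable fun ξ => Complex.exp (lin ξ X) * h ξ :=
  (hh.2 (2 * π * X.2) (by positivity)).mono' (hh.meas X)
    (Eventually.of_forall (norm_le h le_rfl))

lemma P.deriv {h : E n → ℂ} (hh : P h) {X : Y n} (hX : 0 < X.2) :
    ∃ D : Y n →L[ℝ] ℂ, HasFDerivAt (J h) D X ∧ ∀ v, D v = J (fun ξ => lin ξ v * h ξ) X := by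
  have hm : AEStronglyMeasurable (fun ξ => (Complex.exp (lin ξ X) * h ξ) • lin ξ) volume :=
    (hh.meas X).smul continuous_lin.aestronglyMeasurable
  have hb := hh.lin_bound (d := 2 * π * (X.2 / 2)) (by positivity) (4 * π)
  have hle : ∀ ξ, ∀ Z ∈ {Z : Y n | X.2 / 2 < Z.2}, ‖(Complex.exp (lin ξ Z) * h ξ) • lin ξ‖ ≤
      Real.exp (-(2 * π * (X.2 / 2) * ‖ξ‖)) * ‖h ξ‖ * (4 * π * ‖ξ‖) := fun ξ Z hZ => by
    rw [norm_smul]
    exact mul_le_mul (norm_le h (le_of_lt hZ) ξ) (norm_lin ξ) (norm_nonneg _) (by positivity)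
  have hX' : X ∈ {Z : Y n | X.2 / 2 < Z.2} := half_lt_self hX
  refine ⟨_, hasFDerivAt_integral_of_dominated_of_fderiv_le
    (F := fun Z ξ => Complex.exp (lin ξ Z) * h ξ)
    (F' := fun Z ξ => (Complex.exp (lin ξ Z) * h ξ) • lin ξ)
    ((isOpen_lt continuous_const continuous_snd).mem_nhds hX') (Eventually.of_forall hh.meas)
    (hh.int hX) hm (Eventually.of_forall hle) hb (Eventually.of_forall fun ξ Z _ => ?_),
    fun v => ?_⟩
  · have := (lin ξ).hasFDerivAt.cexp.mul_const (x := Z) (h ξ)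
    rwa [smul_smul, mul_comm (h ξ)] at this
  · rw [ContinuousLinearMap.integral_apply (hb.mono' hm (Eventually.of_forall fun ξ => hle ξ X hX'))]
    refine integral_congr_ae (Eventually.of_forall fun ξ => ?_)
    simp only [smul_apply, smul_eq_mul]
    ring

lemma smooth (k : ℕ) : ∀ h : E n → ℂ, P h → ContDiffOn ℝ k (J h) {X | 0 < X.2} := by
  have hU : IsOpen {X : Y n | 0 < X.2} := isOpen_lt continuous_const continuous_snd
  have hd : ∀ h : E n → ℂ, P h → DifferentiableOn ℝ (J h) {X | 0 < X.2} := fun h hh X hX =>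
    (hh.deriv hX).choose_spec.1.differentiableAt.differentiableWithinAt
  induction k with
  | zero => exact fun h hh => contDiffOn_zero.2 (hd h hh).continuousOn
  | succ k ih =>
    intro h hh
    rw [Nat.cast_succ]
    refine contDiffOn_succ_of_fderiv_apply (hd h hh) (by simp) fun v =>
      (ih _ (hh.mul_lin v)).congr fun X hX => ?_
    obtain ⟨D, h1, h2⟩ := hh.deriv hX
    rw [fderivWithin_of_isOpen hU hX, h1.fderiv, h2]

lemma T_eq (h : E n → ℂ) {X : Y n} (hX : 0 < X.2) : T po h X = J h X := by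
  rw [T, Real.fourierInv_eq']
  refine integral_congr_ae (Eventually.of_forall fun ξ => ?_)
  simp only [po, lin_apply, smul_eq_mul, norm_smul, Real.norm_of_nonneg hX.le, Complex.exp_add,
    Complex.ofReal_exp, mul_assoc]

/-- the symbols of the system -/
def sy (i : Option (Fin n)) (ξ : E n) : ℂ := gs (fun _ => 1) i ξ

lemma gs_eq (g : E n → ℂ) (i : Option (Fin n)) (ξ : E n) : gs g i ξ = sy i ξ * g ξ := by
  cases i <;> simp [sy, gs]

lemma lin_dir (i : Option (Fin n)) (ξ : E n) : lin ξ (dir i) = -(2 * π * ‖ξ‖) * sy i ξ := by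
  rw [lin_apply]
  cases i with
  | none => simp [dir, sy, gs]
  | some j =>
    by_cases h : ξ = 0
    · simp [h, dir]
    · have h1 : (‖ξ‖ : ℂ) ≠ 0 := by simpa using h
      simp only [dir, sy, gs, rs]
      push_cast
      field_simp
      ring

lemma sum_sy (ξ : E n) : ∑ i, lin ξ (dir i) * sy i ξ = 0 := by
  simp only [lin_dir, mul_assoc, ← Finset.mul_sum]
  by_cases h : ξ = 0
  · simp [h]
  · have h1 : (‖ξ‖ : ℂ) ≠ 0 := by simpa using h
    have h2 : (‖ξ‖ : ℂ) ^ 2 = ∑ j, (ξ j : ℂ) ^ 2 := by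
      exact_mod_cast EuclideanSpace.real_norm_sq_eq ξ
    have h3 : ∀ j, sy (some j) ξ * sy (some j) ξ = -((ξ j : ℂ) ^ 2 / (‖ξ‖ : ℂ) ^ 2) := fun j => by
      simp only [sy, gs, rs, EuclideanSpace.inner_single_right, one_mul, mul_one, conj_trivial]
      field_simp
      rw [I_sq]
      ring
    rw [Fintype.sum_option]
    simp only [h3, Finset.sum_neg_distrib, ← Finset.sum_div, ← h2, div_self (pow_ne_zero 2 h1)]
    simp [sy, gs]

lemma memLp_gs {g : E n → ℂ} (hg : MemLp g 2) (i : Option (Fin n)) : MemLp (gs g i) 2 := by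
  cases i with
  | none => exact hg
  | some j =>
    have hm : Measurable (rs j : E n → ℂ) := by
      unfold rs
      fun_prop
    refine hg.of_le (hm.aestronglyMeasurable.mul hg.1) (Eventually.of_forall fun ξ => ?_)
    simp only [gs, norm_mul]
    refine mul_le_of_le_one_left (norm_nonneg _) ?_
    rw [rs, norm_div, norm_mul, norm_neg, norm_I, one_mul, norm_real, norm_real, norm_norm]
    refine div_le_one_of_le₀ ((norm_inner_le_norm _ _).trans_eq ?_) (norm_nonneg _)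
    simp

end CRU

open CRU in
theorem st_CRU : St_CRU := by
  intro n L g hg
  have hU : IsOpen {X : Y n | 0 < X.2} := isOpen_lt continuous_const continuous_snd
  have hP : ∀ i, P (gs g i) := fun i => P.of_memLp (memLp_gs hg i)
  have he : ∀ X : Y n, 0 < X.2 → ∀ i, FU L g X i = L (J (gs g i) X) := fun X hX i => by
    rw [← T_eq _ hX]
    rfl
  have hs : ContDiffOn ℝ ∞ (FU L g) {X | 0 < X.2} := contDiffOn_euclidean.2 fun i =>
    (L.contDiff.comp_contDiffOn (contDiffOn_infty.2 fun k => smooth k _ (hP i))).congr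
      fun X hX => he X hX i
  have hd : ∀ X : Y n, 0 < X.2 → ∀ i j,
      pd i (FU L g) X j = L (J (fun ξ => lin ξ (dir i) * gs g j ξ) X) := fun X hX i j => by
    obtain ⟨D, h1, h2⟩ := (hP j).deriv hX
    have h3 := (EuclideanSpace.proj j : V n →L[ℝ] ℝ).hasFDerivAt.comp X
      ((hs.contDiffAt (hU.mem_nhds hX)).differentiableAt (by simp)).hasFDerivAt
    have h4 := (L.hasFDerivAt.comp X h1).congr_of_eventuallyEq
      (f₁ := (EuclideanSpace.proj j : V n →L[ℝ] ℝ) ∘ FU L g)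
      (by filter_upwards [hU.mem_nhds hX] with Z hZ using he Z hZ j)
    rw [← h2]
    exact DFunLike.congr_fun (h3.unique h4) (dir i)
  refine ⟨⟨hs, fun X hX i j => ?_, fun X hX => ?_⟩, fun δ hδ => ?_⟩
  · rw [hd X hX, hd X hX]
    congr 2
    funext ξ
    rw [lin_dir, lin_dir, gs_eq, gs_eq]
    ring
  · simp only [hd X hX, J]
    rw [← map_sum, ← integral_finsetSum _ fun i _ => ((hP i).mul_lin _).int hX]
    simp only [gs_eq, ← mul_assoc (lin _ _), ← Finset.mul_sum, ← Finset.sum_mul, sum_sy]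
    simp
  · refine ⟨√(∑ i, (‖L‖ * ∫ ξ, Real.exp (-(2 * π * δ * ‖ξ‖)) * ‖gs g i ξ‖) ^ 2), fun X hX => ?_⟩
    rw [EuclideanSpace.norm_eq]
    refine Real.sqrt_le_sqrt (Finset.sum_le_sum fun i _ => pow_le_pow_left₀ (norm_nonneg _) ?_ 2)
    rw [he X (hδ.trans_le hX)]
    exact (L.le_opNorm _).trans (mul_le_mul_of_nonneg_left (norm_integral_le_of_norm_le
      ((hP i).2 _ (by positivity)) (Eventually.of_forall (norm_le _ hX))) (norm_nonneg _))

end Pool.Agent.HP
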