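import Pool.Agent.Lib.HP.Defs

/-! The Calderon-Zygmund distribution inequality. -/

set_option autoImplicit false

open MeasureTheory Filter Topology Set Metric
open scoped ENNReal ContDiff SchwartzMap FourierTransform

noncomputable section

namespace Pool.Agent.HP

namespace CZ

variable {n : ℕ}

theorem cv_int (K : 𝓢(E n, ℂ)) {u : E n → ℂ} (hu : MemLp u 2) (x : E n) :
    Integrable fun y => K (x - y) * u y := by
  have h : MemLp (fun y => K (x - y)) 2 :=
    (K.memLp 2 volume).comp_measurePreserving (Measure.measurePreserving_sub_left volume x)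
  exact h.integrable_mul hu

theorem sq_eq (w : E n → ℂ) : eLpNorm w 2 volume ^ 2 = ∫⁻ x, ‖w x‖ₑ ^ 2 := by
  rw [eLpNorm_eq_lintegral_rpow_enorm_toReal two_ne_zero ENNReal.ofNat_ne_top]
  simp only [ENNReal.toReal_ofNat, ENNReal.rpow_ofNat]
  rw [← ENNReal.rpow_two, ← ENNReal.rpow_mul]
  norm_num

theorem markov (μ : Measure (E n)) {W : E n → ℝ≥0∞} (hW : AEMeasurable W μ) {l : ℝ} (hl : 0 < l) :
    μ {x | ENNReal.ofReal l ≤ W x} ≤ ENNReal.ofReal l⁻¹ * ∫⁻ x, W x ∂μ := by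
  have h := mul_meas_ge_le_lintegral₀ hW (ENNReal.ofReal l)
  have e : ENNReal.ofReal l⁻¹ * ENNReal.ofReal l = 1 := by
    rw [← ENNReal.ofReal_mul (inv_nonneg.2 hl.le), inv_mul_cancel₀ hl.ne', ENNReal.ofReal_one]
  calc μ {x | ENNReal.ofReal l ≤ W x}
      = ENNReal.ofReal l⁻¹ * (ENNReal.ofReal l * μ {x | ENNReal.ofReal l ≤ W x}) := by
        rw [← mul_assoc, e, one_mul]
    _ ≤ _ := mul_le_mul' le_rfl h

theorem cheb {w u : E n → ℂ} {B l : ℝ} (hB : 0 ≤ B) (hl : 0 < l) (hw : Continuous w)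
    (h : eLpNorm w 2 volume ≤ ENNReal.ofReal B * eLpNorm u 2 volume) :
    volume {x | ENNReal.ofReal l ≤ ‖w x‖ₑ} ≤
      ENNReal.ofReal (B ^ 2 / l ^ 2) * ∫⁻ x, ‖u x‖ₑ ^ 2 := by
  have h1 := markov volume (W := fun x => ‖w x‖ₑ ^ 2)
    (hw.measurable.enorm.pow_const 2).aemeasurable (pow_pos hl 2)
  have h2 : ∫⁻ x, ‖w x‖ₑ ^ 2 ≤ ENNReal.ofReal (B ^ 2) * ∫⁻ x, ‖u x‖ₑ ^ 2 := by
    rw [← sq_eq, ← sq_eq, ENNReal.ofReal_pow hB, ← mul_pow]
    exact pow_le_pow_left' h 2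
  refine (measure_mono fun x hx => ?_).trans (h1.trans ((mul_le_mul' le_rfl h2).trans_eq ?_))
  · rw [mem_ofPred_eq, ENNReal.ofReal_pow hl.le]
    exact pow_le_pow_left' hx 2
  · rw [← mul_assoc, ← ENNReal.ofReal_mul (inv_nonneg.2 (pow_pos hl 2).le), div_eq_inv_mul]

theorem overlap {r : ℝ} (hr : 0 < r) (d : ℝ) (S : Finset ℕ)
    (hS : ∀ j ∈ S, r * 2 ^ j ≤ d ∧ d ≤ 12 * (r * 2 ^ j)) : S.card ≤ 4 := by
  rcases S.eq_empty_or_nonempty with rfl | hne
  · simp
  have h : S ⊆ Finset.Ico (S.min' hne) (S.min' hne + 4) := fun j hj => by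
    refine Finset.mem_Ico.2 ⟨S.min'_le j hj, ?_⟩
    have h1 := (hS j hj).1.trans (hS _ (S.min'_mem hne)).2
    have h2 : (0 : ℝ) < r * 2 ^ S.min' hne := by positivity
    have h3 : (2 : ℝ) ^ j < 2 ^ (S.min' hne + 4) := by
      refine lt_of_mul_lt_mul_left ?_ hr.le
      rw [pow_add]
      nlinarith
    exact (pow_lt_pow_iff_right₀ (by norm_num : (1 : ℝ) < 2)).1 h3
  simpa using Finset.card_le_card h

theorem sum_le {r : ℝ} (hr : 0 < r) (Z : Set (E n)) (z : E n) (J : ℕ) (a : ℕ → ℝ≥0∞) (c : ℝ≥0∞)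
    (h1 : ∀ j, a j ≤ c)
    (h2 : ∀ j, a j ≠ 0 → r * 2 ^ j ≤ infDist z Z ∧ infDist z Z ≤ 12 * (r * 2 ^ j)) :
    ∑ j ∈ Finset.range J, a j ≤ Zᶜ.indicator (fun _ => 4 * c) z := by
  by_cases hz : z ∈ Z
  · refine (Finset.sum_eq_zero fun j _ => ?_).le.trans zero_le
    by_contra h
    have h3 := (h2 j h).1
    rw [infDist_zero_of_mem hz] at h3
    exact absurd h3 (not_le.2 (by positivity))
  · rw [indicator_of_mem (mem_compl hz), ← Finset.sum_filter_ne_zero]
    refine (Finset.sum_le_card_nsmul _ _ c fun j _ => h1 j).trans ?_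
    rw [nsmul_eq_mul]
    refine mul_le_mul' ?_ le_rfl
    exact_mod_cast overlap hr _ _ fun j hj => h2 j (Finset.mem_filter.1 hj).2

theorem meas_sum {r : ℝ} (hr : 0 < r) {Z : Set (E n)} (hZ : IsClosed Z) (J : ℕ) :
    ∑ j ∈ Finset.range J,
      volume {w | r * 2 ^ j ≤ infDist w Z ∧ infDist w Z ≤ 12 * (r * 2 ^ j)} ≤ 4 * volume Zᶜ := by
  have hm : ∀ j : ℕ,
      MeasurableSet {w | r * 2 ^ j ≤ infDist w Z ∧ infDist w Z ≤ 12 * (r * 2 ^ j)} := fun j =>
    ((isClosed_le continuous_const (continuous_infDist_pt Z)).inter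
      (isClosed_le (continuous_infDist_pt Z) continuous_const)).measurableSet
  simp only [← lintegral_indicator_one (hm _)]
  rw [← lintegral_finsetSum _ fun j _ => measurable_one.indicator (hm j)]
  refine (lintegral_mono fun z => sum_le hr Z z J (fun j => indicator
    {w | r * 2 ^ j ≤ infDist w Z ∧ infDist w Z ≤ 12 * (r * 2 ^ j)} (1 : E n → ℝ≥0∞) z) 1
    (fun j => indicator_le_self _ _ z) fun j hj => by
      have h := mem_of_indicator_ne_zero hj
      exact h).trans ?_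
  rw [lintegral_indicator_const hZ.measurableSet.compl, mul_one]

theorem step {K : 𝓢(E n, ℂ)} {B C0 C1 l r : ℝ} {f : E n → ℂ} {Z : Set (E n)} (hB : 0 ≤ B)
    (hC0 : 0 ≤ C0) (hC1 : 0 ≤ C1) (hl : 0 < l) (hr : 0 < r)
    (hL : ∀ u : E n → ℂ, MemLp u 2 → Continuous (cv K u) ∧
      eLpNorm (cv K u) 2 volume ≤ ENNReal.ofReal B * eLpNorm u 2 volume)
    (hf : MemLp f 2) (hZ : IsClosed Z) (hO : volume Zᶜ ≠ ⊤) {χ γ : ℕ → E n → ℂ} {J : ℕ}
    (c1 : ∀ j, Continuous (χ j)) (c2 : ∀ j z, ‖χ j z‖ ≤ C0) (c3 : ∀ z, χ J z = 0)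
    (c4 : ∀ z, 5 * r ≤ infDist z Z → χ 0 z = 1)
    (g1 : ∀ j, AEStronglyMeasurable (γ j) volume) (g2 : ∀ j z, ‖γ j z‖ ≤ C1 * l)
    (g3 : ∀ j z, γ j z ≠ 0 → r * 2 ^ j ≤ infDist z Z ∧ infDist z Z ≤ 12 * (r * 2 ^ j))
    (g4 : ∀ j, ∫⁻ x in Z, ‖cv K (fun z => (χ j - χ (j + 1)) z * f z - γ j z) x‖ₑ ≤
      ENNReal.ofReal (C1 * l) *
        volume {w | r * 2 ^ j ≤ infDist w Z ∧ infDist w Z ≤ 12 * (r * 2 ^ j)}) :
    volume {x | ENNReal.ofReal (3 * l) < ‖cv K f x‖ₑ} ≤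
      ENNReal.ofReal (1 + 16 * B ^ 2 * C1 ^ 2 + 4 * C1) * volume Zᶜ +
        ENNReal.ofReal (B ^ 2 * (1 + C0) ^ 2 / l ^ 2) *
          ∫⁻ x in {z | infDist z Z < 5 * r}, ‖f x‖ₑ ^ 2 := by
  have mγ : ∀ j, MemLp (γ j) 2 := fun j => by
    refine (memLp_indicator_const 2 hZ.measurableSet.compl (C1 * l) (Or.inr hO)).of_le (g1 j)
      (ae_of_all _ fun z => ?_)
    by_cases h : γ j z = 0
    · rw [h, norm_zero]
      exact norm_nonneg _
    · have hz : z ∉ Z := fun hz => by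
        have h3 := (g3 j z h).1
        rw [infDist_zero_of_mem hz] at h3
        exact absurd h3 (not_le.2 (by positivity))
      rw [indicator_of_mem (mem_compl hz)]
      exact (g2 j z).trans (le_abs_self _)
  have mm : ∀ (θ : E n → ℂ) (c : ℝ), Continuous θ → (∀ z, ‖θ z‖ ≤ c) →
      MemLp (fun z => θ z * f z) 2 := fun θ c h1 h2 =>
    hf.of_le_mul (c := c) (h1.aestronglyMeasurable.mul hf.1) (ae_of_all _ fun z => by
      rw [norm_mul]
      exact mul_le_mul_of_nonneg_right (h2 z) (norm_nonneg _))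
  have n1 : ∀ z, ‖1 - χ 0 z‖ ≤ 1 + C0 := fun z =>
    (norm_sub_le _ _).trans (add_le_add norm_one.le (c2 0 z))
  have m1 : MemLp (fun z => (1 - χ 0 z) * f z) 2 := mm _ _ (continuous_const.sub (c1 0)) n1
  have m2 : MemLp (fun z => ∑ j ∈ Finset.range J, γ j z) 2 := memLp_finsetSum _ fun j _ => mγ j
  have m3 : ∀ j, MemLp (fun z => (χ j - χ (j + 1)) z * f z - γ j z) 2 := fun j =>
    (mm _ (C0 + C0) ((c1 j).sub (c1 (j + 1))) fun z =>
      (norm_sub_le _ _).trans (add_le_add (c2 _ z) (c2 _ z))).sub (mγ j)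
  have dec : ∀ x, cv K f x = cv K (fun z => (1 - χ 0 z) * f z) x +
      cv K (fun z => ∑ j ∈ Finset.range J, γ j z) x +
      ∑ j ∈ Finset.range J, cv K (fun z => (χ j - χ (j + 1)) z * f z - γ j z) x := by
    intro x
    unfold cv
    rw [← integral_finsetSum _ fun j _ => cv_int K (m3 j) x,
      ← integral_add (cv_int K m1 x) (cv_int K m2 x),
      ← integral_add ((cv_int K m1 x).fun_add (cv_int K m2 x))
        (integrable_finsetSum _ fun j _ => cv_int K (m3 j) x)]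
    refine integral_congr_ae (ae_of_all _ fun y => ?_)
    have h := Finset.sum_range_sub' (fun j => χ j y) J
    simp only [Pi.sub_apply]
    rw [← Finset.mul_sum, Finset.sum_sub_distrib, ← Finset.sum_mul, h, c3]
    ring
  have sub : {x | ENNReal.ofReal (3 * l) < ‖cv K f x‖ₑ} ⊆
      Zᶜ ∪ {x | ENNReal.ofReal l ≤ ‖cv K (fun z => ∑ j ∈ Finset.range J, γ j z) x‖ₑ} ∪
      ({x | ENNReal.ofReal l ≤ ∑ j ∈ Finset.range J,
        ‖cv K (fun z => (χ j - χ (j + 1)) z * f z - γ j z) x‖ₑ} ∩ Z) ∪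
      {x | ENNReal.ofReal l ≤ ‖cv K (fun z => (1 - χ 0 z) * f z) x‖ₑ} := by
    intro x hx
    by_contra h
    simp only [mem_union, mem_compl_iff, mem_ofPred_eq, mem_inter_iff, not_or, not_not, not_le,
      not_and'] at h
    obtain ⟨⟨⟨h1, h2⟩, h3⟩, h4⟩ := h
    refine not_le.2 (show ENNReal.ofReal (3 * l) < ‖cv K f x‖ₑ from hx) ?_
    rw [dec, show 3 * l = l + l + l by ring, ENNReal.ofReal_add (by positivity) hl.le,
      ENNReal.ofReal_add hl.le hl.le]
    exact (enorm_add_le _ _).trans (add_le_add ((enorm_add_le _ _).trans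
      (add_le_add h4.le h2.le)) ((enorm_sum_le _ _).trans (h3 h1).le))
  have e1 : volume {x | ENNReal.ofReal l ≤ ‖cv K (fun z => ∑ j ∈ Finset.range J, γ j z) x‖ₑ} ≤
      ENNReal.ofReal (16 * B ^ 2 * C1 ^ 2) * volume Zᶜ := by
    refine (cheb hB hl (hL _ m2).1 (hL _ m2).2).trans ?_
    have h1 : ∫⁻ x, ‖∑ j ∈ Finset.range J, γ j x‖ₑ ^ 2 ≤
        ENNReal.ofReal ((4 * (C1 * l)) ^ 2) * volume Zᶜ := by
      rw [← lintegral_indicator_const hZ.measurableSet.compl]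
      refine lintegral_mono fun z => ?_
      have h2 := (enorm_sum_le _ _).trans (sum_le hr Z z J (fun j => ‖γ j z‖ₑ)
        (ENNReal.ofReal (C1 * l)) (fun j => by
          rw [← ofReal_norm]
          exact ENNReal.ofReal_le_ofReal (g2 j z)) fun j hj => g3 j z (enorm_ne_zero.1 hj))
      refine (pow_le_pow_left' h2 2).trans_eq ?_
      by_cases hz : z ∈ Zᶜ
      · rw [indicator_of_mem hz, indicator_of_mem hz, ENNReal.ofReal_pow (by positivity),
          ENNReal.ofReal_mul (p := 4) (by norm_num), ENNReal.ofReal_ofNat]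
      · rw [indicator_of_notMem hz, indicator_of_notMem hz, zero_pow two_ne_zero]
    refine (mul_le_mul' le_rfl h1).trans_eq ?_
    rw [← mul_assoc, ← ENNReal.ofReal_mul (by positivity)]
    congr 2
    field_simp
    ring
  have e2 : volume ({x | ENNReal.ofReal l ≤ ∑ j ∈ Finset.range J,
      ‖cv K (fun z => (χ j - χ (j + 1)) z * f z - γ j z) x‖ₑ} ∩ Z) ≤
      ENNReal.ofReal (4 * C1) * volume Zᶜ := by
    have hm : ∀ j ∈ Finset.range J,
        Measurable fun x => ‖cv K (fun z => (χ j - χ (j + 1)) z * f z - γ j z) x‖ₑ := fun j _ =>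
      (hL _ (m3 j)).1.measurable.enorm
    rw [← Measure.restrict_apply' hZ.measurableSet]
    refine (markov _ (Finset.measurable_fun_sum _ hm).aemeasurable hl).trans ?_
    rw [lintegral_finsetSum _ hm]
    refine (mul_le_mul' le_rfl (Finset.sum_le_sum fun j _ => g4 j)).trans ?_
    rw [← Finset.mul_sum]
    refine (mul_le_mul' le_rfl (mul_le_mul' le_rfl (meas_sum hr hZ J))).trans_eq ?_
    rw [← mul_assoc, ← mul_assoc, ← ENNReal.ofReal_mul (by positivity), ← ENNReal.ofReal_ofNat 4,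
      ← ENNReal.ofReal_mul (by positivity)]
    congr 2
    field_simp
  have e3 : volume {x | ENNReal.ofReal l ≤ ‖cv K (fun z => (1 - χ 0 z) * f z) x‖ₑ} ≤
      ENNReal.ofReal (B ^ 2 * (1 + C0) ^ 2 / l ^ 2) *
        ∫⁻ x in {z | infDist z Z < 5 * r}, ‖f x‖ₑ ^ 2 := by
    refine (cheb hB hl (hL _ m1).1 (hL _ m1).2).trans ?_
    have h1 : ∫⁻ x, ‖(1 - χ 0 x) * f x‖ₑ ^ 2 ≤
        ENNReal.ofReal ((1 + C0) ^ 2) * ∫⁻ x in {z | infDist z Z < 5 * r}, ‖f x‖ₑ ^ 2 := by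
      rw [← lintegral_const_mul' _ _ ENNReal.ofReal_ne_top, ← lintegral_indicator
        (isOpen_lt (continuous_infDist_pt Z) continuous_const).measurableSet]
      refine lintegral_mono fun z => ?_
      by_cases hz : z ∈ {z | infDist z Z < 5 * r}
      · rw [indicator_of_mem hz, enorm_mul, mul_pow, ENNReal.ofReal_pow (by positivity)]
        refine mul_le_mul' (pow_le_pow_left' ?_ 2) le_rfl
        rw [← ofReal_norm]
        exact ENNReal.ofReal_le_ofReal (n1 z)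
      · rw [indicator_of_notMem hz, c4 z (not_lt.1 hz)]
        simp
    refine (mul_le_mul' le_rfl h1).trans_eq ?_
    rw [← mul_assoc, ← ENNReal.ofReal_mul (by positivity)]
    congr 2
    ring
  refine (measure_mono sub).trans ((measure_union_le _ _).trans (add_le_add ?_ e3))
  rw [ENNReal.ofReal_add (by positivity) (by positivity),
    ENNReal.ofReal_add zero_le_one (by positivity), ENNReal.ofReal_one, add_mul, add_mul, one_mul]
  exact (measure_union_le _ _).trans (add_le_add ((measure_union_le _ _).trans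
    (add_le_add le_rfl e1)) e2)

theorem bdd (hn : 1 ≤ n) {Z : Set (E n)} (hO : volume Zᶜ ≠ ⊤) :
    Z.Nonempty ∧ ∃ D : ℝ, ∀ z, infDist z Z ≤ D := by
  have : Nonempty (Fin n) := ⟨⟨0, hn⟩⟩
  have hu : volume (univ : Set (E n)) = ⊤ := measure_univ_of_isAddLeftInvariant _
  refine ⟨nonempty_iff_ne_empty.2 fun h => hO (by rw [h, compl_empty, hu]), ?_⟩
  have h1 := tendsto_measure_iUnion_atTop (μ := volume) (s := fun k : ℕ => ball (0 : E n) k)
    fun i j hij => ball_subset_ball (Nat.cast_le.2 hij)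
  rw [iUnion_ball_nat, hu] at h1
  obtain ⟨k, hk⟩ := (h1.eventually (lt_mem_nhds (lt_top_iff_ne_top.2 hO))).exists
  refine ⟨k, fun z => le_of_not_gt fun h => not_le.2 hk ?_⟩
  rw [Function.comp_apply, ← Measure.addHaar_ball_center volume z]
  exact measure_mono ((ball_subset_ball h.le).trans ball_infDist_subset_compl)

theorem lim {f : E n → ℂ} (hf : MemLp f 2) {Z : Set (E n)} (hZ : IsClosed Z) (hne : Z.Nonempty) :
    Tendsto (fun k : ℕ => ∫⁻ x in {z | infDist z Z < 5 * (1 / ((k : ℝ) + 1))}, ‖f x‖ₑ ^ 2) atTop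
      (𝓝 (∫⁻ x in Z, ‖f x‖ₑ ^ 2)) := by
  have hm : ∀ k : ℕ, MeasurableSet {z | infDist z Z < 5 * (1 / ((k : ℝ) + 1))} := fun k =>
    (isOpen_lt (continuous_infDist_pt Z) continuous_const).measurableSet
  have h1 := tendsto_measure_iInter_atTop (μ := volume.withDensity fun x => ‖f x‖ₑ ^ 2)
    (s := fun k : ℕ => {z | infDist z Z < 5 * (1 / ((k : ℝ) + 1))})
    (fun k => (hm k).nullMeasurableSet) (fun i j hij z hz => lt_of_lt_of_le hz
      (mul_le_mul_of_nonneg_left (Nat.one_div_le_one_div hij) (by norm_num : (0 : ℝ) ≤ 5))) ⟨0, by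
        rw [withDensity_apply _ (hm 0)]
        refine ne_top_of_le_ne_top ?_ (setLIntegral_le_lintegral _ _)
        rw [← sq_eq]
        exact ENNReal.pow_ne_top hf.2.ne⟩
  have e : (⋂ k : ℕ, {z | infDist z Z < 5 * (1 / ((k : ℝ) + 1))}) = Z := by
    ext z
    rw [mem_iInter, hZ.mem_iff_infDist_zero hne]
    refine ⟨fun h => le_antisymm ?_ infDist_nonneg, fun h k => ?_⟩
    · have h2 := (tendsto_one_div_add_atTop_nhds_zero_nat (𝕜 := ℝ)).const_mul 5
      rw [mul_zero] at h2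
      exact ge_of_tendsto' h2 fun k => (h k).le
    · rw [mem_ofPred_eq, h]
      positivity
  rw [e, withDensity_apply _ hZ.measurableSet] at h1
  exact h1.congr fun k => withDensity_apply _ (hm k)

end CZ

open CZ in
theorem st_CZ (hPU : St_PU) (hCZB : St_CZB) (hL2B : St_L2B) : St_CZ := by
  intro n hn N B hB
  obtain ⟨C0, hC0, pu⟩ := hPU n N
  obtain ⟨C1, hC1, cz⟩ := hCZB n N (B + 2 * C0) (by positivity)
  refine ⟨3 + (1 + 16 * B ^ 2 * C1 ^ 2 + 4 * C1) + B ^ 2 * (1 + C0) ^ 2, by positivity, ?_⟩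
  intro K hK hF f hf H hH ht hfH l hl hO
  set Z : Set (E n) := {x | H x ≤ ENNReal.ofReal l} with hZd
  have hc : {x | ENNReal.ofReal l < H x} = Zᶜ := by
    ext x
    simp [hZd]
  have hZ : IsClosed Z := by
    rw [← isOpen_compl_iff, ← hc]
    exact hH.isOpen_preimage _
  rw [hc] at hO ⊢
  obtain ⟨hne, D, hD⟩ := bdd hn hO
  have hK' : CZK (N + 1) (B + 2 * C0) K := fun k hk z hz =>
    (hK k hk z hz).trans (div_le_div_of_nonneg_right (by linarith) (by positivity))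
  have ht' : ∀ x ∈ Z, ∀ (t : ℝ) (ψ : E n → ℂ), 0 < t → Tst N x t ψ → ‖∫ z, ψ z * f z‖ ≤ l :=
    fun x hx t ψ h1 h2 => by
      have h3 := (ht x t ψ h1 h2).trans hx
      rwa [← ofReal_norm, ENNReal.ofReal_le_ofReal_iff hl.le] at h3
  have key : ∀ r : ℝ, 0 < r → volume {x | ENNReal.ofReal (3 * l) < ‖cv K f x‖ₑ} ≤
      ENNReal.ofReal (1 + 16 * B ^ 2 * C1 ^ 2 + 4 * C1) * volume Zᶜ +
        ENNReal.ofReal (B ^ 2 * (1 + C0) ^ 2 / l ^ 2) *
          ∫⁻ x in {z | infDist z Z < 5 * r}, ‖f x‖ₑ ^ 2 := by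
    intro r hr
    have hp : ∀ j : ℕ, 0 < r * 2 ^ j := fun j => by positivity
    choose χ a1 a2 a3 a4 using fun j : ℕ => pu Z (r * 2 ^ j) (hp j)
    have hθ : ∀ j, ∀ k ≤ N, ∀ z, ‖iteratedFDeriv ℝ k (χ j - χ (j + 1)) z‖ ≤
        (B + 2 * C0) / (r * 2 ^ j) ^ k := fun j k hk z => by
      rw [iteratedFDeriv_sub_apply ((a1 j).of_le (by exact_mod_cast le_top)).contDiffAt
        ((a1 (j + 1)).of_le (by exact_mod_cast le_top)).contDiffAt]
      have h1 : C0 / (r * 2 ^ (j + 1)) ^ k ≤ C0 / (r * 2 ^ j) ^ k :=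
        div_le_div_of_nonneg_left hC0 (pow_pos (hp j) k) (pow_le_pow_left₀ (hp j).le (by
          rw [pow_succ]
          nlinarith [hp j]) k)
      refine (norm_sub_le _ _).trans ((add_le_add (a4 j k hk z)
        ((a4 (j + 1) k hk z).trans h1)).trans ?_)
      rw [← add_div]
      exact div_le_div_of_nonneg_right (by linarith) (pow_pos (hp j) k).le
    have hs : ∀ j z, (χ j - χ (j + 1)) z ≠ 0 →
        3 * (r * 2 ^ j) ≤ infDist z Z ∧ infDist z Z ≤ 10 * (r * 2 ^ j) := fun j z h => by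
      have e : r * 2 ^ (j + 1) = 2 * (r * 2 ^ j) := by ring
      refine ⟨le_of_not_gt fun h1 => h ?_, le_of_not_gt fun h1 => h ?_⟩
      · rw [Pi.sub_apply, a2 j z h1.le, a2 (j + 1) z (by linarith [hp j]), sub_self]
      · rw [Pi.sub_apply, a3 j z (by linarith [hp j]), a3 (j + 1) z (by linarith), sub_self]
    choose γ g1 g2 g3 g4 using fun j : ℕ => cz K hK' f hf Z hne hZ l hl ht' (r * 2 ^ j)
      (χ j - χ (j + 1)) (hp j) ((a1 j).sub (a1 (j + 1))) (hθ j) (hs j)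
    obtain ⟨J, hJ⟩ := pow_unbounded_of_one_lt (D / r) (one_lt_two (α := ℝ))
    refine step (J := J) hB hC0 hC1 hl hr (hL2B n K B hF) hf hZ hO (fun j => (a1 j).continuous)
      (fun j z => ?_) (fun z => a2 J z ?_) (fun z hz => a3 0 z (by simpa using hz)) g1 g2 g3 g4
    · simpa using a4 j 0 (Nat.zero_le _) z
    · rw [div_lt_iff₀ hr] at hJ
      linarith [hD z, hp J]
  have h1 := (ENNReal.Tendsto.const_mul (a := ENNReal.ofReal (B ^ 2 * (1 + C0) ^ 2 / l ^ 2))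
    (lim hf hZ hne) (Or.inr ENNReal.ofReal_ne_top)).const_add
      (ENNReal.ofReal (1 + 16 * B ^ 2 * C1 ^ 2 + 4 * C1) * volume Zᶜ)
  have h2 := ge_of_tendsto' h1 fun k => key _ Nat.one_div_pos_of_nat
  have p1 : 0 ≤ 1 + 16 * B ^ 2 * C1 ^ 2 + 4 * C1 := by positivity
  have p2 : 0 ≤ B ^ 2 * (1 + C0) ^ 2 := by positivity
  refine (measure_mono fun x hx => lt_of_le_of_lt (ENNReal.ofReal_le_ofReal
    (mul_le_mul_of_nonneg_right (by linarith) hl.le)) hx).trans (h2.trans (add_le_add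
      (mul_le_mul' (ENNReal.ofReal_le_ofReal (by linarith)) le_rfl)
      (mul_le_mul' (ENNReal.ofReal_le_ofReal
        (div_le_div_of_nonneg_right (by linarith) (by positivity))) ?_)))
  refine lintegral_mono_ae (ae_restrict_of_ae (hfH.mono fun x hx => ?_))
  rw [ENNReal.rpow_two]
  exact pow_le_pow_left' hx 2

end Pool.Agent.HP
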