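import Pool.Agent.Lib.HP.CZ2

/-! The distribution inequality of Fefferman and Stein. -/

set_option autoImplicit false

open MeasureTheory Metric Set Filter Topology
open scoped ENNReal ContDiff

noncomputable section

namespace Pool.Agent.HP.CZ

variable {n : ℕ}

theorem overlap (Ω : Set (E n)) {r : ℝ} (hr : 0 < r) (L : ℕ) {M : Type} [AddCommMonoid M]
    [PartialOrder M] [IsOrderedAddMonoid M] {c : M} (hc : 0 ≤ c) (y : E n) :
    ∑ k ∈ Finset.range L, (sh Ω (r * 2 ^ k)).indicator (fun _ => c) y ≤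
      Ω.indicator (fun _ => 3 • c) y := by
  classical
  let s := (Finset.range L).filter fun k => y ∈ sh Ω (r * 2 ^ k)
  have e1 : ∑ k ∈ Finset.range L, (sh Ω (r * 2 ^ k)).indicator (fun _ => c) y = s.card • c := by
    rw [← Finset.sum_const, Finset.sum_filter]
    exact Finset.sum_congr rfl fun k _ => indicator_apply _ _ _
  rw [e1]
  rcases s.eq_empty_or_nonempty with h | h
  · rw [h, Finset.card_empty, zero_smul]
    exact indicator_nonneg (fun _ _ => nsmul_nonneg hc 3) y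
  · have h0 := (Finset.mem_filter.1 (s.min'_mem h)).2
    rw [indicator_of_mem (sh_sub (by positivity) h0)]
    refine nsmul_le_nsmul_left hc ?_
    have h1 : s ⊆ Finset.Icc (s.min' h) (s.min' h + 2) := fun k hk => by
      refine Finset.mem_Icc.2 ⟨s.min'_le k hk, ?_⟩
      by_contra h2
      have h3 : (2 : ℝ) ^ (s.min' h + 3) ≤ 2 ^ k := pow_le_pow_right₀ (by norm_num) (by omega)
      have h4 := (Finset.mem_filter.1 hk).2.1
      have h5 := h0.2
      have h6 := mul_le_mul_of_nonneg_left h3 hr.le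
      have h7 : 0 < r * 2 ^ s.min' h := by positivity
      rw [pow_add, ← mul_assoc] at h6
      linarith
    refine (Finset.card_le_card h1).trans (le_of_eq ?_)
    rw [Nat.card_Icc]
    omega

theorem cheb {K g : E n → ℂ} (hK : MemLp K 2) (hg : MemLp g 2) {l : ℝ} (hl : 0 ≤ l) :
    ENNReal.ofReal (l ^ 2) * volume {x | l ≤ ‖∫ w, K (x - w) * g w‖} ≤
      ∫⁻ x, ‖∫ w, K (x - w) * g w‖ₑ ^ 2 := by
  have h1 : AEStronglyMeasurable (fun x => ∫ w, K (x - w) * g w) volume :=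
    (hg.1.convolution_integrand (ContinuousLinearMap.mul ℝ ℂ).flip hK.1).integral_prod_right'
  refine le_trans (mul_le_mul_right (measure_mono fun x hx => ?_) _)
    (mul_meas_ge_le_lintegral₀ (h1.enorm.pow_const 2) (ENNReal.ofReal (l ^ 2)))
  change ENNReal.ofReal (l ^ 2) ≤ _
  rw [ENNReal.ofReal_pow hl, ← ofReal_norm]
  exact pow_le_pow_left' (ENNReal.ofReal_le_ofReal hx) 2

theorem sq_lint {g : E n → ℂ} {A : Set (E n)} (hA : MeasurableSet A) {h : E n → ℝ≥0∞}
    (H : ∀ w, ‖g w‖ₑ ≤ A.indicator h w) : ∫⁻ w, ‖g w‖ₑ ^ 2 ≤ ∫⁻ w in A, h w ^ 2 := by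
  rw [← lintegral_indicator hA]
  refine lintegral_mono fun w => (pow_le_pow_left' (H w) 2).trans (le_of_eq ?_)
  by_cases hw : w ∈ A <;> simp [hw]

theorem all_scales (n N : ℕ) (hN : 1 ≤ N) {B : ℝ} (hB : 0 < B) : ∃ C : ℝ, 0 < C ∧
    ∀ (K f : E n → ℂ) (Ω : Set (E n)) (l : ℝ), ContDiff ℝ ∞ K → MemLp K 2 →
    (∀ m, 1 ≤ m → m ≤ N → ∀ x, ‖iteratedFDeriv ℝ m K x‖ * ‖x‖ ^ (n + m) ≤ B) →
    (∀ g, MemLp g 2 → ∫⁻ x, ‖∫ w, K (x - w) * g w‖ₑ ^ 2 ≤
      ENNReal.ofReal (B ^ 2) * ∫⁻ w, ‖g w‖ₑ ^ 2) →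
    MemLp f 2 → 0 < l → Ctl N f Ω l → MeasurableSet Ω → Ωᶜ.Nonempty → volume Ω ≠ ⊤ →
    ∀ (r : ℝ) (L : ℕ), 0 < r →
    ENNReal.ofReal (l ^ 2) * volume {x | 3 * l ≤ ‖∫ w, K (x - w) * f w‖} ≤
      ENNReal.ofReal C * (ENNReal.ofReal (l ^ 2) * volume Ω) + ENNReal.ofReal (4 * B ^ 2) *
        ∫⁻ w in {w | dl Ω w ≤ 2 * r ∨ r * 2 ^ L / 2 ≤ dl Ω w}, ‖f w‖ₑ ^ 2 := by
  obtain ⟨C, hC, H⟩ := one_scale n N hN
  obtain ⟨c, hc0, hc⟩ := ker_lint n
  refine ⟨1 + B ^ 2 * (3 * C) ^ 2 + C * B * c * 3, by positivity, ?_⟩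
  intro K f Ω l hK hK2 hKB hT hf hl hctl hΩ hne hfin r L hr
  have hk : ∀ k : ℕ, 0 < r * 2 ^ k := fun k => by positivity
  have H1 := fun k : ℕ => H f Ω l hf hl.le hctl hne hfin _ (hk k)
  set A := {w | dl Ω w ≤ 2 * r ∨ r * 2 ^ L / 2 ≤ dl Ω w} with hA
  have hAm : MeasurableSet A := ((isClosed_le (dl_cont Ω) continuous_const).union
    (isClosed_le continuous_const (dl_cont Ω))).measurableSet
  let θ : E n → ℝ := fun w => 1 - tha Ω r w + tha Ω (r * 2 ^ L) w
  have hθ : ∀ w, |θ w| ≤ 2 := fun w => by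
    have h1 := tha_nonneg (Ω := Ω) hr w
    have h2 := tha_le (Ω := Ω) hr w
    have h3 := tha_nonneg (Ω := Ω) (hk L) w
    have h4 := tha_le (Ω := Ω) (hk L) w
    exact abs_le.2 ⟨by simp only [θ]; linarith, by simp only [θ]; linarith⟩
  let G1 : E n → ℂ := fun w => θ w * f w
  let G2 : E n → ℂ := fun y => ∑ k ∈ Finset.range L, cf Ω (r * 2 ^ k) f y
  have m1 : MemLp G1 2 :=
    memLp_mul ((stronglyMeasurable_const.sub (th_meas _ _)).add (th_meas _ _)) hθ hf
  have m2 : MemLp G2 2 := memLp_finsetSum _ fun k _ => (H1 k).2.1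
  let κ : ℕ → E n → E n → ℝ≥0∞ := fun k x y =>
    ENNReal.ofReal (C * B * l) * ENNReal.ofReal (ker n ((n + 1 : ℕ) : ℝ) (r * 2 ^ k) (x - y))
  have hκ : ∀ k, Measurable (Function.uncurry (κ k)) := fun k => by
    refine Measurable.const_mul (Measurable.ennreal_ofReal ?_) _
    unfold ker
    fun_prop
  let Φ : E n → ℝ≥0∞ := fun x => ∑ k ∈ Finset.range L, ∫⁻ y in sh Ω (r * 2 ^ k), κ k x y
  have hΦ : ∀ k, Measurable fun x => ∫⁻ y in sh Ω (r * 2 ^ k), κ k x y := fun k =>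
    (hκ k).lintegral_prod_right
  have dec : ∀ w, f w = G1 w + ∑ k ∈ Finset.range L, (chi Ω (r * 2 ^ k) w : ℂ) * f w := by
    intro w
    have h1 : ∑ k ∈ Finset.range L, chi Ω (r * 2 ^ k) w = tha Ω r w - tha Ω (r * 2 ^ L) w := by
      have := Finset.sum_range_sub' (fun k => tha Ω (r * 2 ^ k) w) L
      rw [pow_zero, mul_one] at this
      rw [← this]
      refine Finset.sum_congr rfl fun k _ => ?_
      rw [chi, show 2 * (r * 2 ^ k) = r * 2 ^ (k + 1) by ring]
    rw [← Finset.sum_mul, ← Complex.ofReal_sum, h1]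
    simp only [G1, θ]
    push_cast
    ring
  have sub : {x | 3 * l ≤ ‖∫ w, K (x - w) * f w‖} ⊆ ((Ω ∪ {x | l ≤ ‖∫ w, K (x - w) * G2 w‖}) ∪
      {x | ENNReal.ofReal l ≤ Φ x}) ∪ {x | l ≤ ‖∫ w, K (x - w) * G1 w‖} := by
    intro x hx
    by_contra h
    simp only [mem_union, mem_ofPred_eq, not_or, not_le] at h hx
    obtain ⟨⟨⟨h1, h2⟩, h3⟩, h4⟩ := h
    have e1 : ∫ w, K (x - w) * f w = (∫ w, K (x - w) * G1 w) + (∫ w, K (x - w) * G2 w) +
        ∑ k ∈ Finset.range L, ((∫ w, K (x - w) * (chi Ω (r * 2 ^ k) w * f w)) -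
          ∫ y, K (x - y) * cf Ω (r * 2 ^ k) f y) := by
      have i1 := fun k (_ : k ∈ Finset.range L) => int_ker hK2 (chi_memLp (Ω := Ω) (hk k) hf) x
      rw [Finset.sum_sub_distrib, ← integral_finsetSum _ i1,
        ← integral_finsetSum _ fun k _ => int_ker hK2 (H1 k).2.1 x]
      simp only [G2, Finset.mul_sum]
      rw [add_assoc, add_sub_cancel, ← integral_add (int_ker hK2 m1 x)
        (integrable_finsetSum _ i1)]
      refine integral_congr_ae (Eventually.of_forall fun w => ?_)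
      simp only [← Finset.mul_sum, ← mul_add]
      rw [← dec w]
    have h5 := ((enorm_sum_le _ _).trans (Finset.sum_le_sum fun k (_ : k ∈ Finset.range L) =>
      (H1 k).2.2 B K hB hK hK2 hKB x h1)).trans_lt h3
    rw [← ofReal_norm, ENNReal.ofReal_lt_ofReal_iff hl] at h5
    rw [e1] at hx
    linarith [hx.trans (norm_add₃_le)]
  have b1 : ENNReal.ofReal (l ^ 2) * volume {x | l ≤ ‖∫ w, K (x - w) * G1 w‖} ≤
      ENNReal.ofReal (4 * B ^ 2) * ∫⁻ w in A, ‖f w‖ₑ ^ 2 := by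
    refine (cheb hK2 m1 hl.le).trans ((hT _ m1).trans ?_)
    have h1 : ∀ w, ‖G1 w‖ₑ ≤ A.indicator (fun w => 2 * ‖f w‖ₑ) w := fun w => by
      by_cases hw : w ∈ A
      · rw [indicator_of_mem hw, enorm_mul]
        refine mul_le_mul_left ?_ _
        rw [← ofReal_norm, Complex.norm_real, ← ENNReal.ofReal_ofNat 2]
        exact ENNReal.ofReal_le_ofReal (hθ w)
      · rw [hA, mem_ofPred_eq, not_or, not_le, not_le] at hw
        have h2 := tha_one (Ω := Ω) hr (w := w) (by linarith [hw.1])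
        have h3 := tha_zero (Ω := Ω) (hk L) (w := w) (by linarith [hw.2, hk L])
        simp [G1, θ, h2, h3]
    refine (mul_le_mul_right (sq_lint hAm h1) _).trans (le_of_eq ?_)
    simp only [mul_pow]
    rw [lintegral_const_mul' _ _ (by simp), ← mul_assoc, mul_comm 4,
      ENNReal.ofReal_mul (by positivity)]
    norm_num
  have b2 : ENNReal.ofReal (l ^ 2) * volume {x | l ≤ ‖∫ w, K (x - w) * G2 w‖} ≤
      ENNReal.ofReal (B ^ 2 * (3 * C) ^ 2) * (ENNReal.ofReal (l ^ 2) * volume Ω) := by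
    refine (cheb hK2 m2 hl.le).trans ((hT _ m2).trans ?_)
    have h1 : ∀ w, ‖G2 w‖ₑ ≤ Ω.indicator (fun _ => ENNReal.ofReal (3 * C * l)) w := fun w => by
      have h2 := ((norm_sum_le _ _).trans (Finset.sum_le_sum fun k (_ : k ∈ Finset.range L) =>
        (H1 k).1 w)).trans (overlap Ω hr L (by positivity) w)
      rw [← ofReal_norm]
      refine (ENNReal.ofReal_le_ofReal h2).trans (le_of_eq ?_)
      by_cases hw : w ∈ Ω <;> simp [hw, mul_assoc]
    refine (mul_le_mul_right (sq_lint hΩ h1) _).trans (le_of_eq ?_)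
    rw [setLIntegral_const, ← ENNReal.ofReal_pow (by positivity), mul_pow (3 * C),
      ENNReal.ofReal_mul (by positivity), ENNReal.ofReal_mul (by positivity), mul_assoc, mul_assoc]
  have b3 : ENNReal.ofReal (l ^ 2) * volume {x | ENNReal.ofReal l ≤ Φ x} ≤
      ENNReal.ofReal (C * B * c * 3) * (ENNReal.ofReal (l ^ 2) * volume Ω) := by
    have h1 := mul_meas_ge_le_lintegral₀ (μ := volume)
      (Finset.measurable_sum (Finset.range L) fun k _ => hΦ k).aemeasurable (ENNReal.ofReal l)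
    have h2 : ∫⁻ x, Φ x ≤ ENNReal.ofReal (C * B * l * c * 3) * volume Ω := by
      rw [lintegral_finsetSum _ fun k _ => hΦ k]
      have h3 : ∀ k, ∫⁻ x, ∫⁻ y in sh Ω (r * 2 ^ k), κ k x y =
          ∫⁻ y, (sh Ω (r * 2 ^ k)).indicator (fun _ => ENNReal.ofReal (C * B * l * c)) y := by
        intro k
        rw [lintegral_lintegral_swap (hκ k).aemeasurable, lintegral_indicator (sh_meas _ _)]
        refine lintegral_congr fun y => ?_
        rw [lintegral_const_mul' _ _ ENNReal.ofReal_ne_top, hc _ (hk k),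
          ← ENNReal.ofReal_mul (by positivity)]
      simp only [h3]
      rw [← lintegral_finsetSum _ fun k _ => measurable_const.indicator (sh_meas _ _)]
      refine (lintegral_mono (overlap Ω hr L zero_le)).trans (le_of_eq ?_)
      rw [lintegral_indicator_const hΩ, ENNReal.ofReal_mul (by positivity : 0 ≤ C * B * l * c),
        nsmul_eq_mul, mul_comm (ENNReal.ofReal _) (ENNReal.ofReal 3)]
      norm_num
    calc _ = ENNReal.ofReal l * (ENNReal.ofReal l * volume {x | ENNReal.ofReal l ≤ Φ x}) := by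
          rw [sq, ENNReal.ofReal_mul hl.le, mul_assoc]
      _ ≤ ENNReal.ofReal l * (ENNReal.ofReal (C * B * l * c * 3) * volume Ω) :=
          mul_le_mul_right (h1.trans h2) _
      _ = _ := by
          rw [← mul_assoc, ← mul_assoc, ← ENNReal.ofReal_mul hl.le,
            ← ENNReal.ofReal_mul (by positivity)]
          ring_nf
  refine (mul_le_mul_right ((measure_mono sub).trans ((measure_union_le _ _).trans
    (add_le_add_left ((measure_union_le _ _).trans (add_le_add_left (measure_union_le _ _) _))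
      _))) _).trans ?_
  rw [mul_add, mul_add, mul_add, ENNReal.ofReal_add (by positivity) (by positivity),
    ENNReal.ofReal_add (by positivity) (by positivity), ENNReal.ofReal_one, add_mul, add_mul,
    one_mul]
  exact add_le_add (add_le_add (add_le_add le_rfl b2) b3) b1

/-- The distribution inequality. -/
theorem distrib (n N : ℕ) (hN : 1 ≤ N) {B : ℝ} (hB : 0 < B) : ∃ C : ℝ, 0 < C ∧
    ∀ (K f : E n → ℂ) (Ω : Set (E n)) (l : ℝ), ContDiff ℝ ∞ K → MemLp K 2 →
    (∀ m, 1 ≤ m → m ≤ N → ∀ x, ‖iteratedFDeriv ℝ m K x‖ * ‖x‖ ^ (n + m) ≤ B) →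
    (∀ g, MemLp g 2 → ∫⁻ x, ‖∫ w, K (x - w) * g w‖ₑ ^ 2 ≤
      ENNReal.ofReal (B ^ 2) * ∫⁻ w, ‖g w‖ₑ ^ 2) →
    MemLp f 2 → 0 < l → Ctl N f Ω l → IsOpen Ω →
    ENNReal.ofReal (l ^ 2) * volume {x | 3 * l ≤ ‖∫ w, K (x - w) * f w‖} ≤
      ENNReal.ofReal C * (ENNReal.ofReal (l ^ 2) * volume Ω + ∫⁻ w in Ωᶜ, ‖f w‖ₑ ^ 2) := by
  obtain ⟨C, hC, H⟩ := all_scales n N hN hB
  refine ⟨C + 4 * B ^ 2 + 1, by positivity, fun K f Ω l hK hK2 hKB hT hf hl hctl hΩ => ?_⟩
  have hC1 : 1 ≤ ENNReal.ofReal (C + 4 * B ^ 2 + 1) :=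
    ENNReal.one_le_ofReal.2 (by nlinarith [sq_nonneg B])
  rcases Ωᶜ.eq_empty_or_nonempty with hne | hne
  · rw [compl_empty_iff.1 hne]
    exact (mul_le_mul_right (measure_mono (subset_univ _)) _).trans
      (le_self_add.trans (le_mul_of_one_le_left' hC1))
  by_cases hfin : volume Ω = ⊤
  · rw [hfin, ENNReal.mul_top (by simpa using by positivity), top_add,
      ENNReal.mul_top (zero_lt_one.trans_le hC1).ne']
    exact le_top
  let ν : Measure (E n) := volume.withDensity fun w => ‖f w‖ₑ ^ 2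
  let A : ℕ → Set (E n) := fun i =>
    {w | dl Ω w ≤ 2 * (2 ^ i)⁻¹ ∨ (2 ^ i)⁻¹ * 2 ^ (i + i) / 2 ≤ dl Ω w}
  have hA : ∀ i, MeasurableSet (A i) := fun i => ((isClosed_le (dl_cont Ω) continuous_const).union
    (isClosed_le continuous_const (dl_cont Ω))).measurableSet
  have e0 : ∀ i : ℕ, ((2 : ℝ) ^ i)⁻¹ * 2 ^ (i + i) = 2 ^ i := fun i => by
    rw [pow_add, inv_mul_cancel_left₀ (by positivity)]
  have hanti : Antitone A := fun i j hij w hw => by
    have h1 : (2 : ℝ) ^ i ≤ 2 ^ j := pow_le_pow_right₀ (by norm_num) hij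
    have h2 : ((2 : ℝ) ^ j)⁻¹ ≤ (2 ^ i)⁻¹ := by gcongr
    simp only [A, mem_ofPred_eq, e0] at hw ⊢
    exact hw.imp (fun h => by linarith) fun h => by linarith
  have hν : ν (A 0) ≠ ⊤ := by
    refine ne_top_of_le_ne_top ?_ (measure_mono (subset_univ _))
    rw [withDensity_apply _ MeasurableSet.univ, Measure.restrict_univ]
    have := lintegral_rpow_enorm_lt_top_of_eLpNorm_lt_top (by norm_num) (by norm_num) hf.2
    simpa using this.ne
  have hlim := tendsto_measure_iInter_atTop (μ := ν) (fun i => (hA i).nullMeasurableSet) hanti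
    ⟨0, hν⟩
  have hI : ⋂ i, A i ⊆ Ωᶜ := fun w hw => by
    refine (hΩ.isClosed_compl.mem_iff_infDist_zero hne).2 (le_antisymm ?_ infDist_nonneg)
    have t1 : Tendsto (fun i : ℕ => (2 : ℝ) ^ i) atTop atTop :=
      tendsto_pow_atTop_atTop_of_one_lt (by norm_num)
    have t2 := (tendsto_inv_atTop_zero.comp t1).const_mul 2
    rw [mul_zero] at t2
    refine ge_of_tendsto t2 ?_
    filter_upwards [t1.eventually_gt_atTop (2 * dl Ω w)] with i hi
    have h1 := mem_iInter.1 hw i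
    simp only [A, mem_ofPred_eq, e0] at h1
    exact h1.resolve_right (by linarith)
  have t3 := (ENNReal.Tendsto.const_mul (a := ENNReal.ofReal (4 * B ^ 2)) hlim
    (Or.inr ENNReal.ofReal_ne_top)).const_add
    (ENNReal.ofReal C * (ENNReal.ofReal (l ^ 2) * volume Ω))
  refine (ge_of_tendsto' t3 fun i => ?_).trans ?_
  · rw [Function.comp_apply, withDensity_apply _ (hA i)]
    exact H K f Ω l hK hK2 hKB hT hf hl hctl hΩ.measurableSet hne hfin _ _ (by positivity)
  · rw [mul_add, ← withDensity_apply _ hΩ.measurableSet.compl]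
    refine add_le_add (mul_le_mul_left (ENNReal.ofReal_le_ofReal ?_) _)
      (mul_le_mul' (ENNReal.ofReal_le_ofReal ?_) (measure_mono hI))
    · nlinarith [sq_nonneg B]
    · linarith

end Pool.Agent.HP.CZ
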