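import Pool.Agent.Lib.HP.Defs
import Pool.Agent.Lib.HP.CZ3

/-! The distribution inequality in the form of the blueprint. -/

set_option autoImplicit false

open MeasureTheory Set
open scoped ENNReal ContDiff

noncomputable section

namespace Pool.Agent.HP

namespace CZ

variable {n : ℕ}

theorem sq_eLp (g : E n → ℂ) : eLpNorm g 2 volume ^ 2 = ∫⁻ w, ‖g w‖ₑ ^ 2 := by
  have h := eLpNorm_nnreal_pow_eq_lintegral (f := g) (μ := volume) (p := 2) (by norm_num)
  simpa using h

theorem tst_of {N : ℕ} {a : E n → ℂ} (ha : Tst (N + 1) a) (x : E n) {t : ℝ} (ht : 0 < t) :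
    HP.Tst N x t fun z => (t ^ n)⁻¹ • a (t⁻¹ • (z - x)) := by
  have e : (fun z => a (t⁻¹ • (z - x))) = fun z => a (-(t⁻¹ • x) + t⁻¹ • z) := by
    funext z
    rw [smul_sub, neg_add_eq_sub]
  have s : ContDiff ℝ ∞ fun z => a (t⁻¹ • (z - x)) := e ▸ aff_smooth ha.1 _ _
  refine ⟨s.const_smul _, fun z hz => ?_, fun k hk z => ?_⟩
  · change _ • a _ = 0
    rw [ha.2.1, smul_zero]
    rw [norm_smul, Real.norm_eq_abs, abs_of_pos (inv_pos.2 ht), le_inv_mul_iff₀ ht, mul_one]
    exact hz.le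
  · rw [iteratedFDeriv_const_smul_apply' (s.of_le (by exact_mod_cast le_top)).contDiffAt,
      norm_smul, e, aff_norm ha.1, Real.norm_eq_abs, abs_of_pos (by positivity),
      abs_of_pos (inv_pos.2 ht), pow_add, mul_inv, inv_pow]
    exact mul_le_mul_of_nonneg_left (mul_le_of_le_one_right (by positivity)
      (ha.2.2 k (by omega) _)) (by positivity)

end CZ

theorem st_CZ0 (hL2B : St_L2B) : St_CZ := by
  intro n _ N B hB
  obtain ⟨C, hC, H⟩ := CZ.distrib n (N + 1) (by omega) (B := B + 1) (by positivity)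
  refine ⟨C + 3, by positivity, fun K hK hKB f hf G hG hT hfG l hl _ => ?_⟩
  have hΩ : IsOpen {x | ENNReal.ofReal l < G x} := hG.isOpen_preimage _
  have h1 := H K f _ l (K.smooth _) (K.memLp 2) (fun m hm hm' x => by
    rcases eq_or_ne x 0 with rfl | hx
    · rw [norm_zero, zero_pow (by omega), mul_zero]
      positivity
    · have := hK m hm' x hx
      rw [le_div_iff₀ (by positivity)] at this
      linarith) (fun g hg => by
    have h2 := pow_le_pow_left' (hL2B n K B hKB g hg).2 2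
    rw [mul_pow, CZ.sq_eLp, CZ.sq_eLp, ← ENNReal.ofReal_pow hB] at h2
    exact h2.trans (mul_le_mul_left (ENNReal.ofReal_le_ofReal (by gcongr; linarith)) _))
    hf hl (fun x hx t ht a ha => by
    have h2 := (hT x t _ ht (CZ.tst_of ha x ht)).trans (not_lt.1 hx)
    simp only [smul_mul_assoc] at h2
    rw [← ofReal_norm, ENNReal.ofReal_le_ofReal_iff hl.le, integral_smul, norm_smul,
      Real.norm_eq_abs, abs_of_pos (by positivity), inv_mul_le_iff₀ (by positivity),
      mul_comm] at h2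
    exact h2) hΩ
  have h2 : {x | ENNReal.ofReal ((C + 3) * l) < ‖cv K f x‖ₑ} ⊆
      {x | 3 * l ≤ ‖∫ w, K (x - w) * f w‖} := fun x hx => by
    have h3 : ENNReal.ofReal ((C + 3) * l) < ‖cv K f x‖ₑ := hx
    rw [← ofReal_norm, ENNReal.ofReal_lt_ofReal_iff_of_nonneg (by positivity)] at h3
    have h4 : 0 < C * l := by positivity
    change 3 * l ≤ ‖cv K f x‖
    linarith
  have h3 : ∫⁻ w in {x | ENNReal.ofReal l < G x}ᶜ, ‖f w‖ₑ ^ 2 ≤
      ∫⁻ x in {x | G x ≤ ENNReal.ofReal l}, G x ^ (2 : ℝ) := by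
    have e : {x | ENNReal.ofReal l < G x}ᶜ = {x | G x ≤ ENNReal.ofReal l} := by
      ext x
      simp
    rw [e]
    refine lintegral_mono_ae (ae_restrict_of_ae (hfG.mono fun x hx => ?_))
    rw [ENNReal.rpow_two]
    exact pow_le_pow_left' hx 2
  have hl2 : ENNReal.ofReal (l ^ 2) ≠ 0 := (ENNReal.ofReal_pos.2 (by positivity)).ne'
  refine (ENNReal.mul_le_mul_iff_right hl2 ENNReal.ofReal_ne_top).1 ?_
  refine (mul_le_mul_right (measure_mono h2) _).trans (h1.trans ?_)
  rw [mul_add, mul_add, mul_left_comm (ENNReal.ofReal (l ^ 2)),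
    ← mul_assoc (ENNReal.ofReal (l ^ 2)), ← ENNReal.ofReal_mul (by positivity),
    mul_div_cancel₀ _ (by positivity)]
  have h4 : ENNReal.ofReal C ≤ ENNReal.ofReal (C + 3) := ENNReal.ofReal_le_ofReal (by linarith)
  exact add_le_add (mul_le_mul_left h4 _) (mul_le_mul' h4 h3)

end Pool.Agent.HP
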