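import Pool.Agent.Lib.HP.Defs
import Pool.Agent.Lib.HP26.Dec2

/-! The Peetre maximal function of a smooth multiplier is dominated by kernel averages of an
admissible multiplier. -/

open Real Set MeasureTheory
open scoped ENNReal ContDiff SchwartzMap FourierTransform

set_option linter.unusedSectionVars false

noncomputable section

namespace Pool.Agent.HP

namespace DEC

variable {n : ℕ}

theorem memLp_dil {σ : E n → ℂ} (h : MemLp σ 2) {t : ℝ} (ht : 0 < t) :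
    MemLp (fun ξ => σ (t • ξ)) 2 := by
  have h1 := (Homeomorph.smulOfNeZero (α := E n) t ht.ne').measurableEmbedding
  have h2 : MemLp σ 2 (Measure.map (Homeomorph.smulOfNeZero (α := E n) t ht.ne') volume) := by
    change MemLp σ 2 (Measure.map (fun x : E n => t • x) volume)
    rw [Measure.map_addHaar_smul _ ht.ne']
    exact h.smul_measure ENNReal.ofReal_ne_top
  exact h1.memLp_map_measure_iff.1 h2

theorem integrable_dil {σ g : E n → ℂ} (h : MemLp σ 2) (hg : MemLp g 2) {t : ℝ} (ht : 0 < t) :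
    Integrable fun ξ => σ (t • ξ) * g ξ :=
  (memLp_dil h ht).integrable_mul hg

theorem lint_affine (f : E n → ℝ≥0∞) (y : E n) {t : ℝ} (ht : 0 < t) :
    ∫⁻ w, f (y + t • w) = ENNReal.ofReal ((t ^ n)⁻¹) * ∫⁻ z, f z := by
  have h1 := (Homeomorph.smulOfNeZero (α := E n) t ht.ne').measurableEmbedding.lintegral_map
    (μ := volume) fun z => f (y + z)
  have h2 : Measure.map (Homeomorph.smulOfNeZero (α := E n) t ht.ne') volume =
      ENNReal.ofReal ((t ^ n)⁻¹) • volume := by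
    change Measure.map (fun x : E n => t • x) volume = _
    rw [Measure.map_addHaar_smul _ ht.ne', finrank_euclideanSpace_fin,
      abs_of_pos (by positivity)]
  rw [h2, lintegral_smul_measure, lintegral_add_left_eq_self] at h1
  exact h1.symm

/-- A smooth symbol with finitely many bounds agrees, on any bounded set, with a Schwartz
function obeying the same kind of bounds. -/
theorem exists_schwartz (N : ℕ) : ∃ C : ℝ, 0 ≤ C ∧ ∀ (σ : E n → ℂ) (B : ℝ), Bd N B σ →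
    ∀ L : ℕ, ∃ ρ : 𝓢(E n, ℂ), (∀ ξ, ‖ρ ξ‖ ≤ ‖σ ξ‖) ∧ (∀ ξ, ‖ξ‖ ≤ L + 1 → ρ ξ = σ ξ) ∧
      ∀ i ≤ N, ∀ j ≤ N, ∀ ξ, ‖ξ‖ ^ i * ‖iteratedFDeriv ℝ j ρ ξ‖ ≤ C * B := by
  let τ : ContDiffBump (0 : E n) := ⟨1, 2, one_pos, one_lt_two⟩
  have hτ : ContDiff ℝ ∞ fun ξ => (τ ξ : ℂ) := Complex.ofRealCLM.contDiff.comp τ.contDiff
  have hτc : HasCompactSupport fun ξ => (τ ξ : ℂ) :=
    τ.hasCompactSupport.comp_left (g := fun r : ℝ => (r : ℂ)) Complex.ofReal_zero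
  obtain ⟨K, hK0, hK⟩ := HP26.exists_bound hτ hτc N
  refine ⟨(N + 1) * (2 ^ N * K), by positivity, fun σ B hσ L => ?_⟩
  have hB : 0 ≤ B := le_trans (by positivity) (hσ.2 0 N.zero_le 0 N.zero_le 0)
  have h0 : (0 : ℝ) < L + 1 := by positivity
  have h1 : ((L : ℝ) + 1)⁻¹ ≤ 1 := inv_le_one_of_one_le₀ (by linarith [Nat.cast_nonneg (α := ℝ) L])
  have hl : ContDiff ℝ ∞ fun ξ : E n => (τ (((L : ℝ) + 1)⁻¹ • ξ) : ℂ) :=
    hτ.comp (contDiff_const_smul _)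
  have hcl : HasCompactSupport fun ξ : E n => (τ (((L : ℝ) + 1)⁻¹ • ξ) : ℂ) :=
    hτc.comp_homeomorph (Homeomorph.smulOfNeZero _ (inv_pos.2 h0).ne')
  refine ⟨HasCompactSupport.toSchwartzMap (f := fun ξ => σ ξ * (τ (((L : ℝ) + 1)⁻¹ • ξ) : ℂ))
    hcl.mul_left (hσ.1.mul hl), fun ξ => ?_, fun ξ hξ => ?_, fun i hi j hj ξ => ?_⟩
  · change ‖σ ξ * (τ (((L : ℝ) + 1)⁻¹ • ξ) : ℂ)‖ ≤ _
    rw [norm_mul, Complex.norm_real, Real.norm_of_nonneg τ.nonneg]
    exact mul_le_of_le_one_right (norm_nonneg _) τ.le_one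
  · change σ ξ * (τ (((L : ℝ) + 1)⁻¹ • ξ) : ℂ) = _
    rw [τ.one_of_mem_closedBall, Complex.ofReal_one, mul_one]
    rw [mem_closedBall_zero_iff, norm_smul, norm_inv, Real.norm_of_nonneg h0.le,
      ← div_eq_inv_mul]
    exact (div_le_one h0).2 hξ
  · change ‖ξ‖ ^ i * ‖iteratedFDeriv ℝ j (fun ξ => σ ξ * (τ (((L : ℝ) + 1)⁻¹ • ξ) : ℂ)) ξ‖ ≤ _
    refine (mul_le_mul_of_nonneg_left (norm_iteratedFDeriv_mul_le hσ.1 hl ξ (mod_cast le_top))
      (by positivity)).trans ?_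
    rw [Finset.mul_sum]
    calc _ ≤ ∑ l ∈ Finset.range (j + 1), 2 ^ N * K * B := Finset.sum_le_sum fun l hl' => by
          have h2 : (j.choose l : ℝ) ≤ 2 ^ N := by
            exact_mod_cast (Nat.choose_le_two_pow j l).trans (Nat.pow_le_pow_right two_pos hj)
          have h3 := hσ.2 i hi l ((Nat.lt_succ_iff.1 (Finset.mem_range.1 hl')).trans hj) ξ
          have h4 := (HP26.dil_le hτ (inv_pos.2 h0).le h1 (j - l) ξ).trans
            (hK _ ((Nat.sub_le j l).trans hj) _)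
          calc _ = (j.choose l : ℝ) * ‖iteratedFDeriv ℝ (j - l)
                (fun ξ : E n => (τ (((L : ℝ) + 1)⁻¹ • ξ) : ℂ)) ξ‖ *
                (‖ξ‖ ^ i * ‖iteratedFDeriv ℝ l σ ξ‖) := by ring
            _ ≤ _ := by gcongr
      _ ≤ _ := by
          rw [Finset.sum_const, Finset.card_range, nsmul_eq_mul, mul_assoc ((N : ℝ) + 1)]
          have : ((j + 1 : ℕ) : ℝ) ≤ N + 1 := by exact_mod_cast Nat.succ_le_succ hj
          gcongr

theorem exists_ext {a : E n → ℂ} (ha : ContDiffOn ℝ ∞ a (Metric.ball 0 3)) :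
    ∃ c : E n → ℂ, ContDiff ℝ ∞ c ∧ ∀ ξ, ‖ξ‖ ≤ 2 → c ξ = a ξ := by
  let τ : ContDiffBump (0 : E n) := ⟨2, 5 / 2, two_pos, by norm_num⟩
  refine ⟨fun ξ => τ ξ * a ξ, contDiff_iff_contDiffAt.2 fun ξ => ?_, fun ξ h => ?_⟩
  · rcases lt_or_ge ‖ξ‖ 3 with h | h
    · exact (Complex.ofRealCLM.contDiff.comp τ.contDiff).contDiffAt.mul
        (ha.contDiffAt (Metric.isOpen_ball.mem_nhds (mem_ball_zero_iff.2 h)))
    · refine (contDiffAt_const (c := (0 : ℂ))).congr_of_eventuallyEq ?_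
      filter_upwards [(isOpen_lt continuous_const continuous_norm).mem_nhds
        (show (5 / 2 : ℝ) < ‖ξ‖ by linarith)] with η hη
      rw [τ.zero_of_le_dist (by rw [dist_zero_right]; exact le_of_lt hη), Complex.ofReal_zero,
        zero_mul]
  · simp only
    rw [τ.one_of_mem_closedBall (mem_closedBall_zero_iff.2 h), Complex.ofReal_one, one_mul]

theorem weight {A c t : ℝ} {a : ℕ} (hA : 0 ≤ A) (ha : A ≤ a) (hc : 0 < c) (ht : 0 < t) (k : ℕ)
    (x y z : E n) :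
    (1 + ‖y - x‖ / t) ^ (-A) * ((t ^ n)⁻¹ * ((1 + ‖t⁻¹ • (z - y)‖) ^ a)⁻¹) ≤
      c ^ n * (1 + c⁻¹) ^ a * (2 ^ k) ^ a * ker n A (c * (2 ^ k)⁻¹ * t) (z - x) := by
  have h2 : (1 : ℝ) ≤ 2 ^ k := one_le_pow₀ one_le_two
  rw [norm_smul, norm_inv, Real.norm_of_nonneg ht.le, ker]
  set α := ‖y - x‖ / t with hα
  set β := t⁻¹ * ‖z - y‖ with hβ
  have hα0 : 0 ≤ α := by positivity
  have hβ0 : 0 ≤ β := by positivity
  set u := (1 + c⁻¹) * 2 ^ k with hu
  have hu1 : 1 ≤ u := one_le_mul_of_one_le_of_one_le (le_add_of_nonneg_right (by positivity)) h2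
  have h3 : 1 + ‖z - x‖ / (c * (2 ^ k)⁻¹ * t) ≤ u * ((1 + α) * (1 + β)) := by
    have h4 : ‖z - x‖ / (c * (2 ^ k)⁻¹ * t) ≤ u * (α + β) := by
      have h5 : ‖z - x‖ ≤ ‖y - x‖ + ‖z - y‖ := by
        rw [add_comm]
        exact norm_sub_le_norm_sub_add_norm_sub z y x
      calc _ = c⁻¹ * 2 ^ k * (‖z - x‖ / t) := by field_simp
        _ ≤ u * ((‖y - x‖ + ‖z - y‖) / t) := by
          rw [hu]
          gcongr
          exact le_add_of_nonneg_left zero_le_one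
        _ = _ := by rw [hα, hβ]; field_simp
    nlinarith [mul_nonneg hα0 hβ0]
  have h6 : ((1 + β) ^ a)⁻¹ ≤ (1 + β) ^ (-A) := by
    rw [← Real.rpow_natCast, ← Real.rpow_neg (by positivity)]
    exact Real.rpow_le_rpow_of_exponent_le (by linarith) (by linarith)
  have h7 : (1 + α) ^ (-A) * (1 + β) ^ (-A) ≤
      u ^ a * (1 + ‖z - x‖ / (c * (2 ^ k)⁻¹ * t)) ^ (-A) := by
    have h8 := Real.rpow_le_rpow_of_nonpos (by positivity) h3 (neg_nonpos.2 hA)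
    rw [Real.mul_rpow (by positivity) (by positivity),
      Real.mul_rpow (x := 1 + α) (by positivity) (by positivity)] at h8
    have h9 : 1 ≤ u ^ a * u ^ (-A) := by
      rw [← Real.rpow_natCast, ← Real.rpow_add (by positivity)]
      exact Real.one_le_rpow hu1 (by linarith)
    calc _ ≤ u ^ a * u ^ (-A) * ((1 + α) ^ (-A) * (1 + β) ^ (-A)) :=
          le_mul_of_one_le_left (by positivity) h9
      _ ≤ _ := by
          rw [mul_assoc]
          exact mul_le_mul_of_nonneg_left h8 (by positivity)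
  have h10 : (t ^ n)⁻¹ ≤ c ^ n * ((c * (2 ^ k)⁻¹ * t) ^ n)⁻¹ := by
    have h11 : c ^ n * ((c * (2 ^ k)⁻¹ * t) ^ n)⁻¹ = (2 ^ k) ^ n * (t ^ n)⁻¹ := by
      rw [mul_pow, mul_pow, inv_pow]
      field_simp
    rw [h11]
    exact le_mul_of_one_le_left (by positivity) (one_le_pow₀ h2)
  calc _ ≤ (1 + α) ^ (-A) * ((t ^ n)⁻¹ * (1 + β) ^ (-A)) := by gcongr
    _ = (t ^ n)⁻¹ * ((1 + α) ^ (-A) * (1 + β) ^ (-A)) := by ring
    _ ≤ c ^ n * ((c * (2 ^ k)⁻¹ * t) ^ n)⁻¹ *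
        (u ^ a * (1 + ‖z - x‖ / (c * (2 ^ k)⁻¹ * t)) ^ (-A)) := by gcongr
    _ = _ := by rw [hu, mul_pow (1 + c⁻¹)]; ring

theorem term {A c t : ℝ} {a : ℕ} (hA : 0 ≤ A) (ha : A ≤ a) (hc : 0 < c) (ht : 0 < t) (k : ℕ)
    (v : Y n → ℂ) (x y : E n) :
    (∫⁻ w, ENNReal.ofReal (((1 + ‖w‖) ^ a)⁻¹) * ‖v (y + t • w, c * (2 ^ k)⁻¹ * t)‖ₑ) *
      ENNReal.ofReal ((1 + ‖y - x‖ / t) ^ (-A)) ≤
      ENNReal.ofReal (c ^ n * (1 + c⁻¹) ^ a * (2 ^ k) ^ a) * KS A v x := by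
  have h1 := lint_affine (fun z => ENNReal.ofReal (((1 + ‖t⁻¹ • (z - y)‖) ^ a)⁻¹) *
    ‖v (z, c * (2 ^ k)⁻¹ * t)‖ₑ) y ht
  simp only [add_sub_cancel_left, inv_smul_smul₀ ht.ne'] at h1
  have h2 : ∫⁻ z, ENNReal.ofReal (ker n A (c * (2 ^ k)⁻¹ * t) (z - x)) *
      ‖v (z, c * (2 ^ k)⁻¹ * t)‖ₑ ≤ KS A v x :=
    le_iSup₂_of_le (f := fun (s : ℝ) (_ : 0 < s) =>
      ∫⁻ z, ENNReal.ofReal (ker n A s (z - x)) * ‖v (z, s)‖ₑ) (c * (2 ^ k)⁻¹ * t)
      (by positivity) le_rfl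
  refine le_trans ?_ (mul_le_mul_right h2 _)
  rw [h1, mul_comm, ← lintegral_const_mul' _ _ ENNReal.ofReal_ne_top,
    ← lintegral_const_mul' _ _ ENNReal.ofReal_ne_top,
    ← lintegral_const_mul' _ _ ENNReal.ofReal_ne_top]
  refine lintegral_mono fun z => ?_
  rw [← mul_assoc, ← mul_assoc, ← mul_assoc, ← ENNReal.ofReal_mul (by positivity),
    ← ENNReal.ofReal_mul (by positivity), ← ENNReal.ofReal_mul (by positivity), mul_assoc]
  exact mul_le_mul_left (ENNReal.ofReal_le_ofReal (weight hA ha hc ht k x y z)) _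

end DEC

theorem st_DEC : St_DEC := by
  rintro n m ⟨hm, c₁, c₂, a₁, a₂, h₁, h₂, ha₁, ha₂, h⟩ A hA
  obtain ⟨b₁, hb₁, e₁⟩ := DEC.exists_ext ha₁
  obtain ⟨b₂, hb₂, e₂⟩ := DEC.exists_ext ha₂
  let c : Bool → ℝ := fun i => if i then c₁ else c₂
  have hc : ∀ i, 0 < c i := fun i => by cases i <;> assumption
  obtain ⟨K, hK0, hK⟩ := HP26.dec (fun i ξ => m (c i • ξ)) (fun i => if i then b₁ else b₂)
    (fun i => by cases i <;> assumption) two_pos
    (fun ξ hξ => by simpa [c, e₁ ξ hξ, e₂ ξ hξ] using h ξ hξ) ⌈A⌉₊ (⌈A⌉₊ + 1)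
  obtain ⟨N, C, hC0, hC⟩ := HP26.sz_map_le (ContinuousLinearMap.id ℂ 𝓢(E n, ℂ)) ⌈A⌉₊ (⌈A⌉₊ + 1)
  obtain ⟨D, hD0, hD⟩ := DEC.exists_schwartz (n := n) N
  set S := ∑ i, c i ^ n * (1 + (c i)⁻¹) ^ ⌈A⌉₊ with hS
  have hS1 : ∀ i, 0 ≤ c i ^ n * (1 + (c i)⁻¹) ^ ⌈A⌉₊ := fun i => by
    have := hc i
    positivity
  have hS0 : 0 ≤ S := Finset.sum_nonneg fun i _ => hS1 i
  refine ⟨N, K * (C * D) * S * 2, by positivity, fun σ B hσ hσ2 g hg x => ?_⟩
  have hB : 0 ≤ B := le_trans (by positivity) (hσ.2 0 N.zero_le 0 N.zero_le 0)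
  refine iSup₂_le fun t ht => iSup_le fun y => ?_
  choose ρ r1 r2 r3 using hD σ B hσ
  have hi := DEC.integrable_dil hσ2 hg ht
  have hρ : ∀ L, Integrable fun ξ => ρ L (t • ξ) * g ξ := fun L =>
    DEC.integrable_dil ((ρ L).memLp 2 volume) hg ht
  have hlim : Filter.Tendsto (fun L => 𝓕⁻ (fun ξ => ρ L (t • ξ) * g ξ) y) Filter.atTop
      (nhds (T σ g (y, t))) := by
    simp only [T, Real.fourierInv_eq]
    refine tendsto_integral_of_dominated_convergence _ (fun L => ?_) hi.norm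
      (fun L => .of_forall fun ξ => ?_) (.of_forall fun ξ => ?_)
    · exact (Real.continuous_fourierChar.comp (by fun_prop)).aestronglyMeasurable.smul (hρ L).1
    · rw [Circle.norm_smul, norm_mul, norm_mul]
      exact mul_le_mul_of_nonneg_right (r1 L _) (norm_nonneg _)
    · refine tendsto_const_nhds.congr' ?_
      filter_upwards [Filter.eventually_ge_atTop ⌈‖t • ξ‖⌉₊] with L hL
      rw [r2 L _ ((Nat.ceil_le.1 hL).trans (le_add_of_nonneg_right zero_le_one))]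
  refine le_of_tendsto' (ENNReal.Tendsto.mul_const hlim.enorm (Or.inr ENNReal.ofReal_ne_top))
    fun L => ?_
  have hs : ∀ (i : Bool) (k : ℕ) (ξ : E n),
      c i • ((2 : ℝ) ^ k)⁻¹ • t • ξ = (c i * (2 ^ k)⁻¹ * t) • ξ := fun i k ξ => by
    rw [smul_smul, smul_smul]
  have h3 := hK (ρ L) g t (hρ L) (fun i k => by
    have := hc i
    simp only [hs]
    exact DEC.integrable_dil hm hg (by positivity)) y
  have h4 : HP26.sz ⌈A⌉₊ (⌈A⌉₊ + 1) (ρ L) ≤ C * (D * B) := hC (ρ L) _ (r3 L)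
  refine (mul_le_mul_left h3 _).trans ?_
  rw [← ENNReal.tsum_mul_right]
  calc _ ≤ ∑' k : ℕ, ENNReal.ofReal (K * (C * (D * B)) * S) * KS A (T m g) x * 2⁻¹ ^ k := by
        refine ENNReal.tsum_le_tsum fun k => ?_
        have h8 : (2⁻¹ : ℝ≥0∞) ^ k = ENNReal.ofReal ((2 ^ k)⁻¹) := by
          rw [ENNReal.ofReal_inv_of_pos (by positivity), ENNReal.ofReal_pow zero_le_two,
            ENNReal.ofReal_ofNat, ENNReal.inv_pow]
        rw [h8, mul_right_comm _ (KS A (T m g) x), ← ENNReal.ofReal_mul (by positivity), hS,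
          Finset.mul_sum,
          Finset.sum_mul, Finset.sum_mul, ENNReal.ofReal_sum_of_nonneg (fun i _ => by
            have := hS1 i
            positivity), Finset.sum_mul]
        refine Finset.sum_le_sum fun i _ => ?_
        have h5 := DEC.term hA (Nat.le_ceil A) (hc i) ht k (T m g) x y
        simp only [hs]
        rw [mul_assoc]
        refine (mul_le_mul_right h5 _).trans ?_
        have h6 := HP26.sz_nonneg ⌈A⌉₊ (⌈A⌉₊ + 1) (ρ L)
        have h7 := hS1 i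
        rw [← mul_assoc, ← ENNReal.ofReal_mul (by positivity)]
        refine mul_le_mul_left (ENNReal.ofReal_le_ofReal ?_) _
        calc _ ≤ K * (((2 : ℝ) ^ k) ^ (⌈A⌉₊ + 1))⁻¹ * (C * (D * B)) *
              (c i ^ n * (1 + (c i)⁻¹) ^ ⌈A⌉₊ * (2 ^ k) ^ ⌈A⌉₊) := by gcongr
          _ = _ := by
            rw [pow_succ ((2 : ℝ) ^ k)]
            field_simp
    _ = _ := by
        rw [ENNReal.tsum_mul_left, ENNReal.tsum_geometric, ENNReal.one_sub_inv_two, inv_inv,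
          mul_right_comm, ← ENNReal.ofReal_ofNat 2, ← ENNReal.ofReal_mul (by positivity)]
        congr 2
        ring

end Pool.Agent.HP
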