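import Pool.Agent.Lib.HP.Defs

set_option autoImplicit false

open MeasureTheory Complex Real Filter Topology
open scoped ENNReal ContDiff SchwartzMap FourierTransform

noncomputable section

namespace Pool.Agent.HP

namespace DSUP

variable {n : ℕ}

theorem lint_ker (a s : ℝ) (hs : 0 < s) (x : E n) :
    ∫⁻ z : E n, ENNReal.ofReal (ker n a s (z - x)) =
      ∫⁻ z : E n, ENNReal.ofReal ((1 + ‖z‖) ^ (-a)) := by
  rw [lintegral_sub_right_eq_self (fun z : E n => ENNReal.ofReal (ker n a s z)) x]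
  have hm : Measurable fun z : E n => ENNReal.ofReal ((1 + ‖z‖) ^ (-a)) := by fun_prop
  have h1 : ∀ z : E n, ENNReal.ofReal (ker n a s z) =
      ENNReal.ofReal ((s ^ n)⁻¹) * ENNReal.ofReal ((1 + ‖s⁻¹ • z‖) ^ (-a)) := by
    intro z
    rw [ker, ENNReal.ofReal_mul (by positivity), norm_smul, Real.norm_eq_abs,
      abs_of_pos (inv_pos.2 hs), div_eq_inv_mul]
  simp_rw [h1]
  rw [lintegral_const_mul' _ _ ENNReal.ofReal_ne_top]
  have h2 := lintegral_map (μ := (volume : Measure (E n))) hm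
    (measurable_const_smul (c := s⁻¹))
  rw [← h2, Measure.map_addHaar_smul volume (inv_ne_zero hs.ne'), lintegral_smul_measure,
    smul_eq_mul, ← mul_assoc, ← ENNReal.ofReal_mul (by positivity)]
  have h3 : (s ^ n)⁻¹ * |(s⁻¹ ^ Module.finrank ℝ (E n))⁻¹| = 1 := by
    rw [finrank_euclideanSpace_fin, inv_pow, inv_inv, abs_of_pos (pow_pos hs n)]
    exact inv_mul_cancel₀ (pow_pos hs n).ne'
  rw [h3, ENNReal.ofReal_one, one_mul]

theorem KS_le (A a : ℝ) (v : Y n → ℂ) (x : E n) :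
    KS (A + a) v x ≤ (∫⁻ z : E n, ENNReal.ofReal ((1 + ‖z‖) ^ (-a))) * PS A v x := by
  refine iSup₂_le fun s hs => ?_
  rw [← lint_ker a s hs x]
  have hm : Measurable fun z : E n => ENNReal.ofReal (ker n a s (z - x)) := by
    unfold ker
    fun_prop
  rw [← lintegral_mul_const _ hm]
  refine lintegral_mono fun z => ?_
  have hp : 0 < 1 + ‖z - x‖ / s := by positivity
  have h1 : ker n (A + a) s (z - x) = ker n a s (z - x) * (1 + ‖z - x‖ / s) ^ (-A) := by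
    rw [ker, ker, mul_assoc, ← Real.rpow_add hp]
    congr 2
    ring
  have h2 : 0 ≤ ker n a s (z - x) := by
    unfold ker
    positivity
  have h3 : ‖v (z, s)‖ₑ * ENNReal.ofReal ((1 + ‖z - x‖ / s) ^ (-A)) ≤ PS A v x :=
    le_iSup₂_of_le s hs (le_iSup
      (fun y : E n => ‖v (y, s)‖ₑ * ENNReal.ofReal ((1 + ‖y - x‖ / s) ^ (-A))) z)
  change ENNReal.ofReal (ker n (A + a) s (z - x)) * ‖v (z, s)‖ₑ ≤
    ENNReal.ofReal (ker n a s (z - x)) * PS A v x
  rw [h1, ENNReal.ofReal_mul h2, mul_assoc, mul_comm (ENNReal.ofReal (_ ^ (-A)))]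
  exact mul_le_mul_right h3 _

theorem le_PS (A : ℝ) (v : Y n → ℂ) (x : E n) (t : ℝ) (ht : 0 < t) :
    ‖v (x, t)‖ₑ ≤ PS A v x := by
  have h3 : ‖v (x, t)‖ₑ * ENNReal.ofReal ((1 + ‖x - x‖ / t) ^ (-A)) ≤ PS A v x :=
    le_iSup₂_of_le t ht (le_iSup
      (fun y : E n => ‖v (y, t)‖ₑ * ENNReal.ofReal ((1 + ‖y - x‖ / t) ^ (-A))) x)
  simpa using h3

end DSUP

theorem st_DSUP (hDEC : St_DEC) : St_DSUP := by
  intro n m hm A hA
  obtain ⟨N', C, hC, h⟩ := hDEC n m hm (A + (n + 1)) (by positivity)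
  have hfin : (∫⁻ z : E n, ENNReal.ofReal ((1 + ‖z‖) ^ (-((n : ℝ) + 1)))) < ⊤ :=
    finite_integral_one_add_norm (E := E n) (r := (n : ℝ) + 1)
      (by rw [finrank_euclideanSpace_fin]; linarith)
  set I := ∫⁻ z : E n, ENNReal.ofReal ((1 + ‖z‖) ^ (-((n : ℝ) + 1))) with hI
  refine ⟨N', C * I.toReal, by positivity, fun σ B hB hσ g hg x t ht => ?_⟩
  refine (DSUP.le_PS _ _ x t ht).trans ((h σ B hB hσ g hg x).trans ?_)
  refine (mul_le_mul_right (DSUP.KS_le A (n + 1) _ x) _).trans (le_of_eq ?_)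
  rw [← hI, ← mul_assoc, mul_right_comm C, ENNReal.ofReal_mul' ENNReal.toReal_nonneg,
    ENNReal.ofReal_toReal hfin.ne]

end Pool.Agent.HP
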