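import Mathlib

set_option autoImplicit false

open MeasureTheory
open scoped ENNReal ContDiff

noncomputable section

namespace Pool.Agent.HP

/-- boundary space -/
abbrev E (n : ℕ) := EuclideanSpace ℝ (Fin n)

/-- points `(x, t)` of the ambient space of the upper half space -/
abbrev Y (n : ℕ) := E n × ℝ

/-- values of a field: component `none` is the `t`-component -/
abbrev V (n : ℕ) := EuclideanSpace ℝ (Option (Fin n))

/-- coordinate directions of `Y n` (`none` is the `t`-direction) -/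
def dir {n : ℕ} : Option (Fin n) → Y n
  | none => (0, 1)
  | some j => (EuclideanSpace.single j 1, 0)

/-- directional derivative along `dir i` -/
def pd {n : ℕ} {W : Type} [NormedAddCommGroup W] [NormedSpace ℝ W] (i : Option (Fin n))
    (g : Y n → W) (X : Y n) : W := fderiv ℝ g X (dir i)

/-- generalized Cauchy-Riemann system on `t > 0`: the Jacobian is symmetric and traceless -/
structure CR {n : ℕ} (F : Y n → V n) : Prop where
  smooth : ContDiffOn ℝ ∞ F {X | 0 < X.2}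
  symm : ∀ X : Y n, 0 < X.2 → ∀ i j, pd i F X j = pd j F X i
  trace : ∀ X : Y n, 0 < X.2 → ∑ i, pd i F X i = 0

/-- the kernel `s^(-n) (1 + |z|/s)^(-a)` -/
def ker (n : ℕ) (a s : ℝ) (z : E n) : ℝ := (s ^ n)⁻¹ * (1 + ‖z‖ / s) ^ (-a)

/-- maximal function built from the kernels `ker n a s`, `s > 0` -/
def KM {n : ℕ} (a : ℝ) (g : E n → ℝ≥0∞) (x : E n) : ℝ≥0∞ :=
  ⨆ (s : ℝ) (_ : 0 < s), ∫⁻ z, ENNReal.ofReal (ker n a s (z - x)) * g z

/-- THEOREM A: the pointwise bound below the exponent `(n-1)/n` -/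
def St_A (n : ℕ) : Prop :=
  ∃ q : ℝ, 0 < q ∧ q < ((n : ℝ) - 1) / n ∧ ∃ a C A : ℝ, (n : ℝ) < a ∧ 0 ≤ C ∧ 0 ≤ A ∧
    ∀ F : Y n → V n, CR F →
      (∀ δ : ℝ, 0 < δ → ∃ B : ℝ, ∀ X : Y n, δ ≤ X.2 → ‖F X‖ ≤ B) →
      ∀ ε : ℝ, 0 < ε → ∀ (x y : E n) (t : ℝ), 0 < t →
        ENNReal.ofReal (‖F (y, ε + t)‖ ^ q) ≤
          ENNReal.ofReal (C * (1 + ‖y - x‖ / t) ^ A) *
            KM a (fun z => ENNReal.ofReal (‖F (z, ε)‖ ^ q)) x

end Pool.Agent.HP
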