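import Mathlib
import Pool.Agent.Lib.HP.Base

set_option autoImplicit false

open MeasureTheory Complex Real Filter Topology
open scoped ENNReal ContDiff SchwartzMap FourierTransform

noncomputable section

namespace Pool.Agent.HP

variable {n : ℕ}

/-- `φ_t * f (x)` at `X = (x, t)` -/
def conv (φ f : E n → ℂ) (X : Y n) : ℂ :=
  ∫ y, (((X.2 ^ n)⁻¹ : ℝ) : ℂ) * φ (X.2⁻¹ • (X.1 - y)) * f y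

/-- plain convolution -/
def cv (K f : E n → ℂ) (x : E n) : ℂ := ∫ y, K (x - y) * f y

/-- radial maximal function -/
def Mx (φ f : E n → ℂ) (x : E n) : ℝ≥0∞ := ⨆ (t : ℝ) (_ : 0 < t), ‖conv φ f (x, t)‖ₑ

/-- Peetre maximal function -/
def PS (A : ℝ) (v : Y n → ℂ) (x : E n) : ℝ≥0∞ :=
  ⨆ (t : ℝ) (_ : 0 < t) (y : E n), ‖v (y, t)‖ₑ * ENNReal.ofReal ((1 + ‖y - x‖ / t) ^ (-A))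

/-- supremum over scales of kernel averages of `|v (·, s)|` -/
def KS (A : ℝ) (v : Y n → ℂ) (x : E n) : ℝ≥0∞ :=
  ⨆ (s : ℝ) (_ : 0 < s), ∫⁻ z, ENNReal.ofReal (ker n A s (z - x)) * ‖v (z, s)‖ₑ

/-- centred Hardy-Littlewood maximal function (normalised by `r ^ n`) -/
def HM (g : E n → ℝ≥0∞) (x : E n) : ℝ≥0∞ :=
  ⨆ (r : ℝ) (_ : 0 < r), ENNReal.ofReal ((r ^ n)⁻¹) * ∫⁻ z in Metric.ball x r, g z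

/-- `g` is the Fourier transform of `f` in `L²` -/
def IsHat (f g : E n → ℂ) : Prop :=
  MemLp f 2 ∧ MemLp g 2 ∧
    ∀ ψ : 𝓢(E n, ℂ), ∫ x, f x * 𝓕 (ψ : E n → ℂ) x = ∫ ξ, g ξ * ψ ξ

/-- dilated multiplier applied on the Fourier side -/
def T (m g : E n → ℂ) (X : Y n) : ℂ := 𝓕⁻ (fun ξ => m (X.2 • ξ) * g ξ) X.1

/-- Riesz symbol -/
def rs (j : Fin n) (ξ : E n) : ℂ :=
  -I * (inner ℝ ξ (EuclideanSpace.single j (1 : ℝ)) : ℂ) / (‖ξ‖ : ℂ)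

/-- Poisson symbol -/
def po (ξ : E n) : ℂ := (Real.exp (-(2 * π * ‖ξ‖)) : ℂ)

/-- the duality definition of the Riesz transform, as in the frozen statement -/
def IsRiesz (j : Fin n) (f R : E n → ℂ) : Prop :=
  MemLp R 2 ∧ ∀ ψ : 𝓢(E n, ℂ),
    ∫ x, R x * (∫ ξ, Complex.exp (-(2 * (π : ℂ) * I * (inner ℝ x ξ : ℂ))) * ψ ξ)
      = ∫ x, f x * (∫ ξ, Complex.exp (-(2 * (π : ℂ) * I * (inner ℝ x ξ : ℂ)))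
          * ((-I * (inner ℝ ξ (EuclideanSpace.single j (1 : ℝ)) : ℂ) / (‖ξ‖ : ℂ)) * ψ ξ))

/-- Fourier data of the conjugate system -/
def gs (g : E n → ℂ) : Option (Fin n) → E n → ℂ
  | none => g
  | some j => fun ξ => rs j ξ * g ξ

/-- real or imaginary part of the conjugate Poisson system -/
def FU (L : ℂ →L[ℝ] ℝ) (g : E n → ℂ) (X : Y n) : V n :=
  WithLp.toLp 2 (fun i => L (T po (gs g i) X))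

/-- finitely many Schwartz seminorms bounded by `B` -/
def Bd (N : ℕ) (B : ℝ) (σ : E n → ℂ) : Prop :=
  ContDiff ℝ ∞ σ ∧ ∀ i ≤ N, ∀ j ≤ N, ∀ ξ, ‖ξ‖ ^ i * ‖iteratedFDeriv ℝ j σ ξ‖ ≤ B

/-- admissible multiplier: two dilates generate the unit on `|ξ| ≤ 2` -/
def Adm (m : E n → ℂ) : Prop :=
  MemLp m 2 ∧ ∃ (c₁ c₂ : ℝ) (a₁ a₂ : E n → ℂ), 0 < c₁ ∧ 0 < c₂ ∧
    ContDiffOn ℝ ∞ a₁ (Metric.ball 0 3) ∧ ContDiffOn ℝ ∞ a₂ (Metric.ball 0 3) ∧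
    ∀ ξ : E n, ‖ξ‖ ≤ 2 → a₁ ξ * m (c₁ • ξ) + a₂ ξ * m (c₂ • ξ) = 1

/-- normalised test function of order `N` adapted to the ball of centre `x` and radius `t` -/
def Tst (N : ℕ) (x : E n) (t : ℝ) (ψ : E n → ℂ) : Prop :=
  ContDiff ℝ ∞ ψ ∧ (∀ z, t < ‖z - x‖ → ψ z = 0) ∧
    ∀ k ≤ N, ∀ z, ‖iteratedFDeriv ℝ k ψ z‖ ≤ (t ^ (n + k))⁻¹

/-- Calderon-Zygmund kernel bounds -/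
def CZK (N : ℕ) (B : ℝ) (K : E n → ℂ) : Prop :=
  ∀ k ≤ N, ∀ z : E n, z ≠ 0 → ‖iteratedFDeriv ℝ k K z‖ ≤ B / ‖z‖ ^ (n + k)

/-! ### Fourier side -/

def St_HAT : Prop := ∀ n : ℕ,
  (∀ f : E n → ℂ, MemLp f 2 → ∃ g, IsHat f g) ∧
  (∀ f g : E n → ℂ, IsHat f g → eLpNorm f 2 volume = eLpNorm g 2 volume) ∧
  (∀ h : E n → ℂ, Integrable h → MemLp h 2 → IsHat (𝓕⁻ h) h) ∧
  (∀ f g h : E n → ℂ, IsHat f g → Integrable h → MemLp h 2 →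
    ∫ x, f x * 𝓕 h x = ∫ ξ, g ξ * h ξ) ∧
  (∀ f g f' g' : E n → ℂ, IsHat f g → IsHat f' g' →
    IsHat (fun x => f x - f' x) (fun ξ => g ξ - g' ξ))

def St_PAR : Prop := ∀ (n : ℕ) (φ : 𝓢(E n, ℂ)) (t : ℝ), 0 < t →
  (∀ f g : E n → ℂ, IsHat f g → ∀ x, conv φ f (x, t) = T (𝓕 (φ : E n → ℂ)) g (x, t)) ∧
  (∀ h : E n → ℂ, Integrable h → ∀ x, conv φ (𝓕⁻ h) (x, t) = T (𝓕 (φ : E n → ℂ)) h (x, t))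

def St_L2C : Prop := ∀ (n : ℕ) (h g m : E n → ℂ) (mk : ℕ → E n → ℂ) (B : ℝ),
  MemLp g 2 → IsHat h (fun ξ => m ξ * g ξ) → (∀ k, MemLp (mk k) 2) → (∀ k ξ, ‖mk k ξ‖ ≤ B) →
  (∀ᵐ ξ, Tendsto (fun k => mk k ξ) atTop (𝓝 (m ξ))) →
  Tendsto (fun k => eLpNorm (fun x => 𝓕⁻ (fun ξ => mk k ξ * g ξ) x - h x) 2 volume) atTop (𝓝 0)

def St_L2B : Prop := ∀ (n : ℕ) (K : 𝓢(E n, ℂ)) (B : ℝ),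
  (∀ ξ, ‖𝓕 (K : E n → ℂ) ξ‖ ≤ B) → ∀ u : E n → ℂ, MemLp u 2 →
    Continuous (cv K u) ∧ eLpNorm (cv K u) 2 volume ≤ ENNReal.ofReal B * eLpNorm u 2 volume

def St_RSZ : Prop := ∀ (n : ℕ) (j : Fin n) (f g R : E n → ℂ),
  IsHat f g → IsRiesz j f R → IsHat R (fun ξ => rs j ξ * g ξ)

def St_CRU : Prop := ∀ (n : ℕ) (L : ℂ →L[ℝ] ℝ) (g : E n → ℂ), MemLp g 2 →
  CR (FU L g) ∧ ∀ δ : ℝ, 0 < δ → ∃ B : ℝ, ∀ X : Y n, δ ≤ X.2 → ‖FU L g X‖ ≤ B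

def St_ADM : Prop := ∀ n : ℕ,
  (∀ φ : 𝓢(E n, ℂ), ∫ x, φ x = 1 → Adm (𝓕 (φ : E n → ℂ))) ∧ Adm (po : E n → ℂ)

/-! ### maximal theorem -/

def St_W11 : Prop := ∀ n : ℕ, 1 ≤ n → ∃ C : ℝ, 0 ≤ C ∧ ∀ (g : E n → ℝ≥0∞) (l : ℝ), 0 < l →
  ENNReal.ofReal l * volume {x | ENNReal.ofReal l < HM g x} ≤ ENNReal.ofReal C * ∫⁻ z, g z

def St_KB : Prop := ∀ (n : ℕ) (a : ℝ), (n : ℝ) < a → ∃ C : ℝ, 0 ≤ C ∧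
  ∀ g : E n → ℝ≥0∞, AEMeasurable g volume → ∀ x, KM a g x ≤ ENNReal.ofReal C * HM g x

def St_HL : Prop := ∀ n : ℕ, 1 ≤ n → ∀ a s : ℝ, (n : ℝ) < a → 1 < s → ∃ C : ℝ, 0 ≤ C ∧
  ∀ g : E n → ℝ≥0∞, AEMeasurable g volume →
    ∫⁻ x, KM a g x ^ s ≤ ENNReal.ofReal C * ∫⁻ x, g x ^ s

/-! ### the decomposition and its three uses -/

def St_DK : Prop := ∀ (n : ℕ) (b : E n → ℂ), ContDiff ℝ ∞ b → HasCompactSupport b →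
  ∀ M N : ℕ, ∃ (N' : ℕ) (C : ℝ), 0 ≤ C ∧ ∀ (σ : E n → ℂ) (B τ : ℝ), Bd N' B σ → 1 ≤ τ →
    (τ = 1 ∨ ∀ ξ, ‖ξ‖ < 1 / 2 → b ξ = 0) →
    ∀ x, ‖𝓕⁻ (fun ξ => σ (τ • ξ) * b ξ) x‖ ≤ C * B * (τ ^ M)⁻¹ * ((1 + ‖x‖) ^ N)⁻¹

def St_DEC : Prop := ∀ (n : ℕ) (m : E n → ℂ), Adm m → ∀ A : ℝ, 0 ≤ A →
  ∃ (N' : ℕ) (C : ℝ), 0 ≤ C ∧ ∀ (σ : E n → ℂ) (B : ℝ), Bd N' B σ → MemLp σ 2 →
    ∀ g : E n → ℂ, MemLp g 2 → ∀ x, PS A (T σ g) x ≤ ENNReal.ofReal (C * B) * KS A (T m g) x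

def St_DSUP : Prop := ∀ (n : ℕ) (m : E n → ℂ), Adm m → ∀ A : ℝ, 0 ≤ A →
  ∃ (N' : ℕ) (C : ℝ), 0 ≤ C ∧ ∀ (σ : E n → ℂ) (B : ℝ), Bd N' B σ → MemLp σ 2 →
    ∀ g : E n → ℂ, MemLp g 2 → ∀ (x : E n) (t : ℝ), 0 < t →
      ‖T σ g (x, t)‖ₑ ≤ ENNReal.ofReal (C * B) * PS A (T m g) x

def St_TST : Prop := ∀ n N' : ℕ, ∃ (N : ℕ) (C : ℝ), 0 ≤ C ∧ ∀ φ : 𝓢(E n, ℂ),
  (∀ z, 1 < ‖z‖ → φ z = 0) → (∀ k ≤ N, ∀ z, ‖iteratedFDeriv ℝ k φ z‖ ≤ 1) →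
  Bd N' C (𝓕 (φ : E n → ℂ))

def St_GRD : Prop := ∀ (n : ℕ) (φ : 𝓢(E n, ℂ)), ∫ x, φ x = 1 → ∀ A : ℝ, 0 ≤ A →
  ∃ (N : ℕ) (C : ℝ), 0 ≤ C ∧ ∀ f : E n → ℂ, MemLp f 2 → ∀ (x : E n) (t : ℝ) (ψ : E n → ℂ),
    0 < t → Tst N x t ψ → ‖∫ z, ψ z * f z‖ₑ ≤ ENNReal.ofReal C * PS A (conv φ f) x

def St_PHI : Prop := ∀ (n : ℕ) (φ : 𝓢(E n, ℂ)) (A : ℝ), 0 ≤ A → ∃ C : ℝ, 0 ≤ C ∧
  ∀ f g : E n → ℂ, IsHat f g → ∀ x, Mx φ f x ≤ ENNReal.ofReal C * PS A (T po g) x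

def St_PEE : Prop := ∀ n : ℕ, 1 ≤ n → ∀ φ : 𝓢(E n, ℂ), ∫ x, φ x = 1 → ∀ r A : ℝ, 0 < r → r ≤ 1 →
  (n : ℝ) < A * r → ∃ C : ℝ, 0 ≤ C ∧ ∀ f : E n → ℂ, MemLp f 2 →
    ∀ᵐ x, PS A (conv φ f) x ^ r ≤ ENNReal.ofReal C * KM (A * r) (fun z => Mx φ f z ^ r) x

/-! ### Calderon-Zygmund side -/

def St_PU : Prop := ∀ n N : ℕ, ∃ C : ℝ, 0 ≤ C ∧ ∀ (Z : Set (E n)) (r : ℝ), 0 < r →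
  ∃ χ : E n → ℂ, ContDiff ℝ ∞ χ ∧ (∀ z, Metric.infDist z Z ≤ 3 * r → χ z = 0) ∧
    (∀ z, 5 * r ≤ Metric.infDist z Z → χ z = 1) ∧
    ∀ k ≤ N, ∀ z, ‖iteratedFDeriv ℝ k χ z‖ ≤ C / r ^ k

def St_LOC : Prop := ∀ (n N : ℕ) (η : E n → ℂ), ContDiff ℝ ∞ η → (∀ z, 1 < ‖z‖ → η z = 0) →
  ∀ B : ℝ, 0 ≤ B → ∃ C : ℝ, 0 < C ∧ ∀ (θ G : E n → ℂ) (w x₀ : E n) (r L : ℝ), 0 < r → 0 < L →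
    ‖w - x₀‖ ≤ 11 * r → ContDiff ℝ ∞ θ → ContDiff ℝ ∞ G →
    (∀ k ≤ N, ∀ z, ‖iteratedFDeriv ℝ k θ z‖ ≤ B / r ^ k) →
    (∀ k ≤ N, ∀ z, ‖z - w‖ ≤ r → ‖iteratedFDeriv ℝ k G z‖ ≤ L / r ^ k) →
    Tst N x₀ (12 * r) (fun z => (((C * L)⁻¹ : ℝ) : ℂ) *
      (θ z * ((((r ^ n)⁻¹ : ℝ) : ℂ) * η (r⁻¹ • (z - w))) * G z))

def St_KD : Prop := ∀ n N : ℕ, ∃ C : ℝ, 0 < C ∧ ∀ (K : E n → ℂ) (B : ℝ), 0 ≤ B →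
  ContDiff ℝ ∞ K → CZK (N + 1) B K → ∀ (x w : E n) (r : ℝ), 0 < r → 2 * r ≤ ‖x - w‖ →
    ∀ k ≤ N, ∀ z, ‖z - w‖ ≤ r →
      ‖iteratedFDeriv ℝ k (fun z => K (x - z) - K (x - w)) z‖ ≤
        (C * B * r / ‖x - w‖ ^ (n + 1)) / r ^ k

def St_CZB : Prop := ∀ (n N : ℕ) (B : ℝ), 0 ≤ B → ∃ C : ℝ, 0 ≤ C ∧
  ∀ K : 𝓢(E n, ℂ), CZK (N + 1) B K → ∀ f : E n → ℂ, MemLp f 2 →
  ∀ Z : Set (E n), Z.Nonempty → IsClosed Z → ∀ l : ℝ, 0 < l →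
  (∀ x ∈ Z, ∀ (t : ℝ) (ψ : E n → ℂ), 0 < t → Tst N x t ψ → ‖∫ z, ψ z * f z‖ ≤ l) →
  ∀ (r : ℝ) (θ : E n → ℂ), 0 < r → ContDiff ℝ ∞ θ →
  (∀ k ≤ N, ∀ z, ‖iteratedFDeriv ℝ k θ z‖ ≤ B / r ^ k) →
  (∀ z, θ z ≠ 0 → 3 * r ≤ Metric.infDist z Z ∧ Metric.infDist z Z ≤ 10 * r) →
  ∃ γ : E n → ℂ, AEStronglyMeasurable γ volume ∧ (∀ z, ‖γ z‖ ≤ C * l) ∧
    (∀ z, γ z ≠ 0 → r ≤ Metric.infDist z Z ∧ Metric.infDist z Z ≤ 12 * r) ∧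
    ∫⁻ x in Z, ‖cv K (fun z => θ z * f z - γ z) x‖ₑ ≤
      ENNReal.ofReal (C * l) *
        volume {w | r ≤ Metric.infDist w Z ∧ Metric.infDist w Z ≤ 12 * r}

def St_CZ : Prop := ∀ n : ℕ, 1 ≤ n → ∀ (N : ℕ) (B : ℝ), 0 ≤ B → ∃ C : ℝ, 0 < C ∧
  ∀ K : 𝓢(E n, ℂ), CZK (N + 1) B K → (∀ ξ, ‖𝓕 (K : E n → ℂ) ξ‖ ≤ B) →
  ∀ f : E n → ℂ, MemLp f 2 → ∀ H : E n → ℝ≥0∞, LowerSemicontinuous H →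
  (∀ (x : E n) (t : ℝ) (ψ : E n → ℂ), 0 < t → Tst N x t ψ → ‖∫ z, ψ z * f z‖ₑ ≤ H x) →
  (∀ᵐ x, ‖f x‖ₑ ≤ H x) → ∀ l : ℝ, 0 < l → volume {x | ENNReal.ofReal l < H x} ≠ ⊤ →
  volume {x | ENNReal.ofReal (C * l) < ‖cv K f x‖ₑ} ≤
    ENNReal.ofReal C * volume {x | ENNReal.ofReal l < H x} +
      ENNReal.ofReal (C / l ^ 2) * ∫⁻ x in {x | H x ≤ ENNReal.ofReal l}, H x ^ (2 : ℝ)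

def St_KER : Prop := ∀ (n : ℕ) (j : Fin n) (N : ℕ), ∃ B : ℝ, 0 ≤ B ∧ ∃ K : ℕ → 𝓢(E n, ℂ),
  (∀ L, CZK N B (K L)) ∧ (∀ L ξ, ‖𝓕 (K L : E n → ℂ) ξ‖ ≤ B) ∧
  ∀ ξ : E n, ξ ≠ 0 → Tendsto (fun L => 𝓕 (K L : E n → ℂ) ξ) atTop (𝓝 (rs j ξ))

def St_LAY : Prop := ∀ (n : ℕ) (p C : ℝ), 0 < p → p < 2 → 0 < C → ∃ C' : ℝ, 0 ≤ C' ∧
  ∀ u H : E n → ℝ≥0∞, Measurable u → Measurable H →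
  (∀ l : ℝ, 0 < l → volume {x | ENNReal.ofReal l < H x} ≠ ⊤ →
    volume {x | ENNReal.ofReal (C * l) < u x} ≤
      ENNReal.ofReal C * volume {x | ENNReal.ofReal l < H x} +
        ENNReal.ofReal (C / l ^ 2) * ∫⁻ x in {x | H x ≤ ENNReal.ofReal l}, H x ^ (2 : ℝ)) →
  ∫⁻ x, u x ^ p ≤ ENNReal.ofReal C' * ∫⁻ x, H x ^ p

/-! ### assembly -/

def St_NTA : Prop := ∀ n : ℕ, 1 ≤ n → St_A n →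
  ∃ q a C A : ℝ, 0 < q ∧ q < ((n : ℝ) - 1) / n ∧ (n : ℝ) < a ∧ 0 ≤ C ∧ 0 ≤ A ∧
    ∀ (f g : E n → ℂ) (R : Fin n → E n → ℂ), IsHat f g →
      (∀ j, IsHat (R j) (fun ξ => rs j ξ * g ξ)) →
      ∀ᵐ x, PS A (T po g) x ^ q ≤
        ENNReal.ofReal C * KM a (fun z => ‖f z‖ₑ ^ q + ∑ j, ‖R j z‖ₑ ^ q) x

def St_LOW : Prop := ∀ n : ℕ, 1 ≤ n → St_A n →
  ∃ q : ℝ, 0 < q ∧ q < ((n : ℝ) - 1) / n ∧ ∀ p : ℝ, q < p → ∀ φ : 𝓢(E n, ℂ),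
    ∃ C : ℝ, 0 < C ∧ ∀ f : E n → ℂ, MemLp f 2 → ∀ R : Fin n → E n → ℂ,
      (∀ j, IsRiesz j f (R j)) →
      eLpNorm (Mx φ f) (ENNReal.ofReal p) volume ≤ ENNReal.ofReal C *
        (eLpNorm f (ENNReal.ofReal p) volume + ∑ j, eLpNorm (R j) (ENNReal.ofReal p) volume)

def St_UPR : Prop := ∀ n : ℕ, 1 ≤ n → ∀ p : ℝ, 0 < p → p < 2 → ∀ N : ℕ, ∃ C : ℝ, 0 ≤ C ∧
  ∀ (j : Fin n) (f R : E n → ℂ), MemLp f 2 → IsRiesz j f R →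
  ∀ H : E n → ℝ≥0∞, LowerSemicontinuous H →
  (∀ (x : E n) (t : ℝ) (ψ : E n → ℂ), 0 < t → Tst N x t ψ → ‖∫ z, ψ z * f z‖ₑ ≤ H x) →
  (∀ᵐ x, ‖f x‖ₑ ≤ H x) →
  ∫⁻ x, ‖R x‖ₑ ^ p ≤ ENNReal.ofReal C * ∫⁻ x, H x ^ p

def St_UP : Prop := ∀ n : ℕ, 1 ≤ n → ∀ p : ℝ, 0 < p → p < 2 →
  ∀ φ : 𝓢(E n, ℂ), ∫ x, φ x = 1 →
    ∃ C : ℝ, 0 < C ∧ ∀ f : E n → ℂ, MemLp f 2 → ∀ R : Fin n → E n → ℂ,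
      (∀ j, IsRiesz j f (R j)) →
      eLpNorm f (ENNReal.ofReal p) volume + ∑ j, eLpNorm (R j) (ENNReal.ofReal p) volume ≤
        ENNReal.ofReal C * eLpNorm (Mx φ f) (ENNReal.ofReal p) volume

end Pool.Agent.HP
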