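import Mathlib
import Pool.Agent.Lib.HP.Defs

set_option autoImplicit false

open MeasureTheory Complex Real Filter Topology
open scoped ENNReal ContDiff SchwartzMap FourierTransform

noncomputable section

namespace Pool.Agent.HP

namespace GRD

variable {n : ℕ}

/-- the rescaled test function -/
def resc (x : E n) (t : ℝ) (ψ : E n → ℂ) (u : E n) : ℂ := (t ^ n : ℝ) • ψ (x + (-t) • u)

theorem resc_smooth (x : E n) (t : ℝ) (ψ : E n → ℂ) (h : ContDiff ℝ ∞ ψ) :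
    ContDiff ℝ ∞ (resc x t ψ) := by
  unfold resc
  exact (h.comp (contDiff_const.add (contDiff_id.const_smul (-t)))).const_smul (t ^ n : ℝ)

theorem resc_zero (x : E n) (t : ℝ) (ht : 0 < t) (ψ : E n → ℂ)
    (h : ∀ z, t < ‖z - x‖ → ψ z = 0) (u : E n) (hu : 1 < ‖u‖) : resc x t ψ u = 0 := by
  unfold resc
  rw [h, smul_zero]
  rw [add_sub_cancel_left, norm_smul, norm_neg, Real.norm_of_nonneg ht.le]
  nlinarith

theorem resc_supp (x : E n) (t : ℝ) (ht : 0 < t) (ψ : E n → ℂ)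
    (h : ∀ z, t < ‖z - x‖ → ψ z = 0) : HasCompactSupport (resc x t ψ) := by
  refine HasCompactSupport.intro (isCompact_closedBall (0 : E n) 1) ?_
  intro u hu
  refine resc_zero x t ht ψ h u ?_
  simpa using hu

theorem resc_deriv (x : E n) (t : ℝ) (ht : 0 < t) (ψ : E n → ℂ) (h : ContDiff ℝ ∞ ψ) (k : ℕ)
    (hk : ∀ z, ‖iteratedFDeriv ℝ k ψ z‖ ≤ (t ^ (n + k))⁻¹) (u : E n) :
    ‖iteratedFDeriv ℝ k (resc x t ψ) u‖ ≤ 1 := by
  let L : E n →L[ℝ] E n := (-t) • ContinuousLinearMap.id ℝ (E n)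
  have hL : ‖L‖ ≤ t := by
    refine ContinuousLinearMap.opNorm_le_bound _ ht.le ?_
    intro v
    show ‖(-t) • v‖ ≤ t * ‖v‖
    rw [norm_smul, norm_neg, Real.norm_of_nonneg ht.le]
  have h1 : ContDiff ℝ ∞ (fun z : E n => ψ (x + z)) := h.comp (contDiff_const.add contDiff_id)
  have hk' : (k : WithTop ℕ∞) ≤ ((⊤ : ℕ∞) : WithTop ℕ∞) := by exact_mod_cast le_top
  have h2 : ContDiff ℝ ∞ ((fun z : E n => ψ (x + z)) ∘ L) := h1.comp L.contDiff
  have e : resc x t ψ = (t ^ n : ℝ) • ((fun z : E n => ψ (x + z)) ∘ L) := rfl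
  rw [e, iteratedFDeriv_const_smul_apply ((h2.of_le hk').contDiffAt),
    L.iteratedFDeriv_comp_right h1 u hk', iteratedFDeriv_comp_add_left, norm_smul,
    Real.norm_of_nonneg (pow_pos ht n).le]
  have h3 := ContinuousMultilinearMap.norm_compContinuousLinearMap_le
    (iteratedFDeriv ℝ k ψ (x + L u)) (fun _ : Fin k => L)
  have h4 : ∏ _i : Fin k, ‖L‖ ≤ t ^ k := by
    rw [Finset.prod_const, Finset.card_univ, Fintype.card_fin]
    exact pow_le_pow_left₀ (norm_nonneg _) hL k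
  have h5 : ‖iteratedFDeriv ℝ k ψ (x + L u)‖ * ∏ _i : Fin k, ‖L‖ ≤ (t ^ (n + k))⁻¹ * t ^ k :=
    mul_le_mul (hk _) h4 (Finset.prod_nonneg fun _ _ => norm_nonneg _)
      (inv_nonneg.2 (pow_pos ht _).le)
  calc t ^ n * ‖(iteratedFDeriv ℝ k ψ (x + L u)).compContinuousLinearMap fun _ => L‖
      ≤ t ^ n * ((t ^ (n + k))⁻¹ * t ^ k) :=
        mul_le_mul_of_nonneg_left (h3.trans h5) (pow_pos ht n).le
    _ = 1 := by
        rw [pow_add]
        field_simp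

theorem conv_resc (x : E n) (t : ℝ) (ht : 0 < t) (ψ f : E n → ℂ) :
    conv (resc x t ψ) f (x, t) = ∫ z, ψ z * f z := by
  unfold conv resc
  refine integral_congr_ae (Eventually.of_forall fun y => ?_)
  have e : x + (-t) • (t⁻¹ • (x - y)) = y := by
    rw [smul_smul, neg_mul, mul_inv_cancel₀ ht.ne', neg_smul, one_smul]
    abel
  have ht' : ((t : ℂ) ^ n) ≠ 0 := pow_ne_zero _ (by exact_mod_cast ht.ne')
  simp only [e, Complex.real_smul]
  push_cast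
  field_simp

end GRD

theorem st_GRD (hHAT : St_HAT) (hPAR : St_PAR) (hADM : St_ADM) (hTST : St_TST)
    (hDSUP : St_DSUP) : St_GRD := by
  intro n φ hφ A hA
  obtain ⟨N', C₁, hC₁, hD⟩ := hDSUP n _ ((hADM n).1 φ hφ) A hA
  obtain ⟨N, C₂, hC₂, hT⟩ := hTST n N'
  refine ⟨N, C₁ * C₂, mul_nonneg hC₁ hC₂, ?_⟩
  intro f hf x t ψ ht hψ
  obtain ⟨hs, hz, hd⟩ := hψ
  obtain ⟨g, hg⟩ := (hHAT n).1 f hf
  let φ' : 𝓢(E n, ℂ) := (GRD.resc_supp x t ht ψ hz).toSchwartzMap (GRD.resc_smooth x t ψ hs)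
  have hφ' : (φ' : E n → ℂ) = GRD.resc x t ψ := rfl
  have hB : Bd N' C₂ (𝓕 (φ' : E n → ℂ)) := by
    refine hT φ' (fun z hz' => ?_) (fun k hk z => ?_)
    · exact GRD.resc_zero x t ht ψ hz z hz'
    · rw [hφ']
      exact GRD.resc_deriv x t ht ψ hs k (hd k hk) z
  have hM : MemLp (𝓕 (φ' : E n → ℂ)) 2 := by
    rw [← SchwartzMap.fourier_coe]
    exact (𝓕 φ').memLp 2
  have h1 := hD _ C₂ hB hM g hg.2.1 x t ht
  have h2 : PS A (T (𝓕 (φ : E n → ℂ)) g) x = PS A (conv φ f) x := by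
    unfold PS
    refine iSup_congr fun s => iSup_congr fun hs' => iSup_congr fun y => ?_
    rw [(hPAR n φ s hs').1 f g hg y]
  rw [← GRD.conv_resc x t ht ψ f, ← hφ', (hPAR n φ' t ht).1 f g hg x, ← h2]
  exact h1

end Pool.Agent.HP
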