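import Mathlib
import Pool.Agent.Lib.HP.Defs

set_option autoImplicit false

open MeasureTheory Complex Real Filter Topology
open scoped ENNReal ContDiff SchwartzMap FourierTransform

noncomputable section

namespace Pool.Agent.HP

namespace HAT

variable {n : ℕ}

theorem uniq {a b : E n → ℂ} (ha : LocallyIntegrable a) (hb : LocallyIntegrable b)
    (h : ∀ ψ : 𝓢(E n, ℂ), ∫ x, a x * ψ x = ∫ x, b x * ψ x) : a =ᵐ[volume] b := by
  refine ae_eq_of_integral_contDiff_smul_eq ha hb fun g hg hc => ?_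
  have hg₁ : HasCompactSupport (Complex.ofRealCLM ∘ g) := hc.comp_left rfl
  have hg₂ : ContDiff ℝ ∞ (Complex.ofRealCLM ∘ g) := by fun_prop
  simpa [mul_comm] using h (hg₁.toSchwartzMap hg₂)

theorem pair (u : Lp ℂ 2 (volume : Measure (E n))) (ψ : 𝓢(E n, ℂ)) :
    ∫ x, u x * 𝓕 (ψ : E n → ℂ) x = ∫ ξ, (𝓕 u : Lp ℂ 2 (volume : Measure (E n))) ξ * ψ ξ := by
  have h := congrArg (fun T => T ψ) (Lp.fourier_toTemperedDistribution_eq u)
  simp only [TemperedDistribution.fourier_apply, Lp.toTemperedDistribution_apply, smul_eq_mul,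
    SchwartzMap.fourier_coe] at h
  simpa only [mul_comm] using h

theorem pair' {f : E n → ℂ} (hf : MemLp f 2) (ψ : 𝓢(E n, ℂ)) :
    ∫ x, f x * 𝓕 (ψ : E n → ℂ) x =
      ∫ ξ, (𝓕 (hf.toLp f) : Lp ℂ 2 (volume : Measure (E n))) ξ * ψ ξ := by
  rw [← pair]
  refine integral_congr_ae ?_
  filter_upwards [hf.coeFn_toLp] with x hx
  rw [hx]

theorem hat_ae {f g : E n → ℂ} (h : IsHat f g) :
    g =ᵐ[volume] (𝓕 (h.1.toLp f) : Lp ℂ 2 (volume : Measure (E n))) :=
  uniq (h.2.1.locallyIntegrable one_le_two) ((Lp.memLp _).locallyIntegrable one_le_two)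
    fun ψ => (h.2.2 ψ).symm.trans (pair' h.1 ψ)

theorem cont {h : E n → ℂ} (hh : Integrable h) : Continuous (𝓕 h) :=
  VectorFourier.fourierIntegral_continuous Real.continuous_fourierChar
    (innerSL ℝ).continuous₂ hh

theorem flip {h k : E n → ℂ} (hh : Integrable h) (hk : Integrable k) :
    ∫ x, 𝓕 h x * k x = ∫ x, h x * 𝓕 k x := by
  have := VectorFourier.integral_fourierIntegral_smul_eq_flip (L := innerₗ (E n))
    Real.continuous_fourierChar (innerSL ℝ).continuous₂ hh hk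
  rw [flip_innerₗ] at this
  exact this

theorem four_ae {h : E n → ℂ} (hh : Integrable h) (h2 : MemLp h 2) :
    𝓕 h =ᵐ[volume] (𝓕 (h2.toLp h) : Lp ℂ 2 (volume : Measure (E n))) :=
  uniq (cont hh).locallyIntegrable ((Lp.memLp _).locallyIntegrable one_le_two)
    fun ψ => (flip hh ψ.integrable).trans (pair' h2 ψ)

theorem cpair (w : Lp ℂ 2 (volume : Measure (E n))) :
    Continuous fun v : Lp ℂ 2 (volume : Measure (E n)) => ∫ x, w x * v x := by
  have := ((ContinuousLinearMap.mul ℂ ℂ).lpPairing volume 2 2 w).continuous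
  refine this.congr fun v => ?_
  rw [ContinuousLinearMap.lpPairing_eq_integral]
  rfl

theorem pair2 (u v : Lp ℂ 2 (volume : Measure (E n))) :
    ∫ x, u x * (𝓕 v : Lp ℂ 2 (volume : Measure (E n))) x =
      ∫ ξ, (𝓕 u : Lp ℂ 2 (volume : Measure (E n))) ξ * v ξ := by
  refine DenseRange.induction_on
    (p := fun v : Lp ℂ 2 (volume : Measure (E n)) =>
      ∫ x, u x * (𝓕 v : Lp ℂ 2 (volume : Measure (E n))) x =
        ∫ ξ, (𝓕 u : Lp ℂ 2 (volume : Measure (E n))) ξ * v ξ)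
    (SchwartzMap.denseRange_toLpCLM (p := 2) ENNReal.ofNat_ne_top) v ?_ fun ψ => ?_
  · exact isClosed_eq ((cpair u).comp (Lp.fourierTransformₗᵢ (E n) ℂ).continuous) (cpair _)
  · rw [SchwartzMap.toLpCLM_apply, SchwartzMap.toLp_fourier_eq]
    refine Eq.trans (integral_congr_ae ?_) ((pair u ψ).trans (integral_congr_ae ?_))
    · filter_upwards [(𝓕 ψ).coeFn_toLp 2] with x hx
      rw [hx, SchwartzMap.fourier_coe]
    · filter_upwards [ψ.coeFn_toLp 2] with x hx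
      rw [hx]

theorem inv_pair {h : E n → ℂ} (hh : Integrable h) (ψ : 𝓢(E n, ℂ)) :
    ∫ x, 𝓕⁻ h x * 𝓕 (ψ : E n → ℂ) x = ∫ ξ, h ξ * ψ ξ := by
  have e : 𝓕 (𝓕 (ψ : E n → ℂ)) = fun x => ψ (-x) := by
    ext x
    have h0 : (𝓕⁻ (𝓕 ψ : 𝓢(E n, ℂ)) : 𝓢(E n, ℂ)) = ψ := FourierTransform.fourierInv_fourier_eq ψ
    have h1 := congrArg (fun T : 𝓢(E n, ℂ) => T (-x)) h0
    simp only [SchwartzMap.fourierInv_coe, SchwartzMap.fourier_coe] at h1
    rw [← h1, fourierInv_eq_fourier_neg, neg_neg]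
  rw [fourierInv_eq_fourier_comp_neg, ← SchwartzMap.fourier_coe, flip hh.comp_neg (𝓕 ψ).integrable,
    SchwartzMap.fourier_coe, e]
  exact integral_neg_eq_self (fun x => h x * ψ x) volume

end HAT

theorem st_HAT : St_HAT := by
  intro n
  refine ⟨fun f hf => ⟨_, hf, Lp.memLp _, HAT.pair' hf⟩, fun f g h => ?_, fun h hh h2 => ?_,
    fun f g h hfg hh h2 => ?_, fun f g f' g' h h' => ⟨h.1.sub h'.1, h.2.1.sub h'.2.1, fun ψ => ?_⟩⟩
  · rw [eLpNorm_congr_ae (HAT.hat_ae h), ← Lp.enorm_def, ← Lp.enorm_toLp h.1, ← ofReal_norm,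
      ← ofReal_norm, Lp.norm_fourier_eq]
  · refine ⟨?_, h2, HAT.inv_pair hh⟩
    rw [fourierInv_eq_fourier_comp_neg]
    have h3 : MemLp (fun x => h (-x)) 2 := h2.comp_measurePreserving (Measure.measurePreserving_neg _)
    exact (memLp_congr_ae (HAT.four_ae hh.comp_neg h3)).2 (Lp.memLp _)
  · refine Eq.trans (integral_congr_ae ?_)
      ((HAT.pair2 (hfg.1.toLp f) (h2.toLp h)).trans (integral_congr_ae ?_))
    · filter_upwards [HAT.four_ae hh h2, hfg.1.coeFn_toLp] with x h1 h3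
      rw [h1, h3]
    · filter_upwards [HAT.hat_ae hfg, h2.coeFn_toLp] with x h1 h3
      rw [h1, h3]
  · have h1 : MemLp (𝓕 (ψ : E n → ℂ)) 2 := (𝓕 ψ : 𝓢(E n, ℂ)).memLp 2 volume
    have h2 : MemLp (ψ : E n → ℂ) 2 := ψ.memLp 2
    simp only [sub_mul]
    refine (integral_sub (h.1.integrable_mul h1) (h'.1.integrable_mul h1)).trans
      (Eq.trans ?_ (integral_sub (h.2.1.integrable_mul h2) (h'.2.1.integrable_mul h2)).symm)
    exact congrArg₂ (· - ·) (h.2.2 ψ) (h'.2.2 ψ)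

end Pool.Agent.HP
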