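import Pool.Agent.Lib.HP.Defs

set_option autoImplicit false

open MeasureTheory Complex Real Filter Topology
open scoped ENNReal ContDiff SchwartzMap FourierTransform ComplexConjugate

noncomputable section

namespace Pool.Agent.HP

namespace HAT46

variable {n : ℕ}

theorem uniq {g g' : E n → ℂ} (hg : MemLp g 2) (hg' : MemLp g' 2)
    (h : ∀ ψ : 𝓢(E n, ℂ), ∫ ξ, g ξ * ψ ξ = ∫ ξ, g' ξ * ψ ξ) : g =ᵐ[volume] g' := by
  refine ae_eq_of_integral_contDiff_smul_eq (hg.locallyIntegrable (by norm_num))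
    (hg'.locallyIntegrable (by norm_num)) fun φ hφ hc => ?_
  have h1 : HasCompactSupport (fun x => (φ x : ℂ)) := hc.comp_left (g := fun r : ℝ => (r : ℂ)) (by simp)
  have h2 : ContDiff ℝ ∞ (fun x => (φ x : ℂ)) := Complex.ofRealCLM.contDiff.comp hφ
  have := h (h1.toSchwartzMap h2)
  simpa [mul_comm] using this

theorem isHat_lp (u : Lp ℂ 2 (volume : Measure (E n))) :
    IsHat (u : E n → ℂ) ((𝓕 u : Lp ℂ 2 (volume : Measure (E n))) : E n → ℂ) := by
  refine ⟨Lp.memLp u, Lp.memLp _, fun ψ => ?_⟩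
  have h := congrArg (fun T : 𝓢'(E n, ℂ) => T ψ) (Lp.fourier_toTemperedDistribution_eq u)
  simp only [TemperedDistribution.fourier_apply, Lp.toTemperedDistribution_apply] at h
  simpa [mul_comm, SchwartzMap.fourier_coe] using h

theorem IsHat.congr' {f g f' g' : E n → ℂ} (h : IsHat f g) (hf : f =ᵐ[volume] f')
    (hg : g =ᵐ[volume] g') : IsHat f' g' := by
  refine ⟨h.1.ae_eq hf, h.2.1.ae_eq hg, fun ψ => ?_⟩
  have h1 : ∫ x, f' x * 𝓕 (ψ : E n → ℂ) x = ∫ x, f x * 𝓕 (ψ : E n → ℂ) x :=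
    integral_congr_ae (by filter_upwards [hf] with x hx; rw [hx])
  have h2 : ∫ x, g' x * ψ x = ∫ x, g x * ψ x :=
    integral_congr_ae (by filter_upwards [hg] with x hx; rw [hx])
  rw [h1, h2, h.2.2 ψ]

theorem hat_eq {f g : E n → ℂ} (h : IsHat f g) :
    (𝓕 (h.1.toLp f) : Lp ℂ 2 (volume : Measure (E n))) = h.2.1.toLp g := by
  have h1 := IsHat.congr' (isHat_lp (h.1.toLp f)) h.1.coeFn_toLp (ae_eq_refl _)
  have h2 := uniq h1.2.1 h.2.1 fun ψ => by rw [← h1.2.2 ψ, h.2.2 ψ]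
  exact Lp.ext (h2.trans h.2.1.coeFn_toLp.symm)

theorem pair {f g : E n → ℂ} (hf : Integrable f) (hg : Integrable g) :
    ∫ ξ, 𝓕 f ξ * g ξ = ∫ x, f x * 𝓕 g x := by
  have h := VectorFourier.integral_fourierIntegral_smul_eq_flip (μ := volume) (ν := volume)
    (L := innerₗ (E n)) Real.continuous_fourierChar (innerSL ℝ).continuous₂ hf hg
  have e : (innerₗ (E n)).flip = innerₗ (E n) := flip_innerₗ _
  rw [e] at h
  exact h

theorem inv_hat {h : E n → ℂ} (h1 : Integrable h) (h2 : MemLp h 2) : IsHat (𝓕⁻ h) h := by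
  have hneg : Integrable (fun x => h (-x)) := h1.comp_neg
  have hp : ∀ ψ : 𝓢(E n, ℂ), ∫ x, 𝓕⁻ h x * 𝓕 (ψ : E n → ℂ) x = ∫ ξ, h ξ * ψ ξ := by
    intro ψ
    rw [Real.fourierInv_eq_fourier_comp_neg,
      pair hneg (show Integrable (𝓕 (ψ : E n → ℂ)) from (𝓕 ψ : 𝓢(E n, ℂ)).integrable),
      ← integral_neg_eq_self]
    refine integral_congr_ae (ae_of_all _ fun x => ?_)
    simp only [neg_neg]
    rw [← Real.fourierInv_eq_fourier_neg,
      ψ.continuous.fourierInv_fourier_eq ψ.integrable (𝓕 ψ : 𝓢(E n, ℂ)).integrable]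
  set u : Lp ℂ 2 (volume : Measure (E n)) := 𝓕⁻ (h2.toLp h) with hu
  have h3 := isHat_lp u
  have e : (𝓕 u : Lp ℂ 2 (volume : Measure (E n))) = h2.toLp h :=
    FourierTransform.fourier_fourierInv_eq _
  rw [e] at h3
  have h4 := IsHat.congr' h3 (ae_eq_refl _) h2.coeFn_toLp
  have hc : Continuous (𝓕⁻ h) := by
    rw [Real.fourierInv_eq_fourier_comp_neg]
    exact VectorFourier.fourierIntegral_continuous Real.continuous_fourierChar
      (innerSL ℝ).continuous₂ hneg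
  have h5 : (u : E n → ℂ) =ᵐ[volume] 𝓕⁻ h := by
    refine ae_eq_of_integral_contDiff_smul_eq (h4.1.locallyIntegrable (by norm_num))
      hc.locallyIntegrable fun φ hφ hcs => ?_
    have k1 : HasCompactSupport (fun x => (φ x : ℂ)) :=
      hcs.comp_left (g := fun r : ℝ => (r : ℂ)) (by simp)
    have k2 : ContDiff ℝ ∞ (fun x => (φ x : ℂ)) := Complex.ofRealCLM.contDiff.comp hφ
    have k3 := (h4.2.2 (𝓕⁻ (k1.toSchwartzMap k2))).trans (hp (𝓕⁻ (k1.toSchwartzMap k2))).symm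
    rw [← SchwartzMap.fourier_coe, FourierTransform.fourier_fourierInv_eq] at k3
    simpa [mul_comm] using k3
  exact IsHat.congr' h4 h5 (ae_eq_refl _)

theorem polar {f g u w : E n → ℂ} (h : IsHat f g) (h' : IsHat u w) :
    ∫ x, f x * conj (u x) = ∫ ξ, g ξ * conj (w ξ) := by
  have k := Lp.inner_fourier_eq (h'.1.toLp u) (h.1.toLp f)
  rw [hat_eq h, hat_eq h', L2.inner_def, L2.inner_def] at k
  have e1 : ∫ x, f x * conj (u x) = ∫ x, inner ℂ ((h'.1.toLp u) x) ((h.1.toLp f) x) := by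
    refine integral_congr_ae ?_
    filter_upwards [h'.1.coeFn_toLp, h.1.coeFn_toLp] with x h1 h2
    rw [h1, h2]; simp
  have e2 : ∫ x, g x * conj (w x) = ∫ x, inner ℂ ((h'.2.1.toLp w) x) ((h.2.1.toLp g) x) := by
    refine integral_congr_ae ?_
    filter_upwards [h'.2.1.coeFn_toLp, h.2.1.coeFn_toLp] with x h1 h2
    rw [h1, h2]; simp
  rw [e1, e2, k]

theorem conj_inv (h : E n → ℂ) (x : E n) : conj (𝓕⁻ (fun ξ => conj (h ξ)) x) = 𝓕 h x := by
  rw [Real.fourierInv_eq', Real.fourier_eq', ← integral_conj]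
  refine integral_congr_ae (ae_of_all _ fun ξ => ?_)
  simp only [smul_eq_mul, map_mul, Complex.conj_conj, ← Complex.exp_conj, Complex.conj_ofReal,
    Complex.conj_I]
  congr 2
  push_cast
  ring

end HAT46

open HAT46 in
theorem st_HAT46 : St_HAT := by
  intro n
  refine ⟨fun f hf => ⟨_, IsHat.congr' (isHat_lp (hf.toLp f)) hf.coeFn_toLp (ae_eq_refl _)⟩,
    fun f g h => ?_, fun h h1 h2 => inv_hat h1 h2, fun f g h hfg h1 h2 => ?_,
    fun f g f' g' h h' => ⟨h.1.sub h'.1, h.2.1.sub h'.2.1, fun ψ => ?_⟩⟩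
  · have k := Lp.norm_fourier_eq (h.1.toLp f)
    rw [hat_eq h, Lp.norm_toLp, Lp.norm_toLp] at k
    exact ((ENNReal.toReal_eq_toReal_iff' h.2.1.2.ne h.1.2.ne).1 k).symm
  · have c1 : Integrable (fun ξ => conj (h ξ)) := (Complex.conjCLE : ℂ →L[ℝ] ℂ).integrable_comp h1
    have c2 : MemLp (fun ξ => conj (h ξ)) 2 := (Complex.conjCLE : ℂ →L[ℝ] ℂ).comp_memLp' h2
    have k := polar hfg (inv_hat c1 c2)
    simpa only [HAT46.conj_inv, Complex.conj_conj] using k
  · have hψ : MemLp (𝓕 (ψ : E n → ℂ)) 2 := (𝓕 ψ : 𝓢(E n, ℂ)).memLp 2 volume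
    simp only [sub_mul]
    have i1 : Integrable (fun x => f x * 𝓕 (ψ : E n → ℂ) x) := h.1.integrable_mul hψ
    have i2 : Integrable (fun x => f' x * 𝓕 (ψ : E n → ℂ) x) := h'.1.integrable_mul hψ
    have i3 : Integrable (fun x => g x * ψ x) := h.2.1.integrable_mul (ψ.memLp 2 volume)
    have i4 : Integrable (fun x => g' x * ψ x) := h'.2.1.integrable_mul (ψ.memLp 2 volume)
    rw [integral_sub i1 i2, integral_sub i3 i4, h.2.2 ψ, h'.2.2 ψ]

end Pool.Agent.HP
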