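import Pool.Agent.Lib.HP.Base

/-! The Hardy-Littlewood maximal inequality for `KM`. -/

set_option autoImplicit false

open MeasureTheory Metric Set Filter
open scoped ENNReal Topology

noncomputable section

namespace Pool.Agent.HP.HL

variable {n : ℕ}

/-- centred maximal function, normalised by `s ^ n` -/
def NM (g : E n → ℝ≥0∞) (x : E n) : ℝ≥0∞ :=
  ⨆ (s : ℝ) (_ : 0 < s), ENNReal.ofReal ((s ^ n)⁻¹) * ∫⁻ z in ball x s, g z

/-- volume of the unit ball -/
def cB (n : ℕ) : ℝ≥0∞ := volume (ball (0 : E n) 1)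

lemma cB_ne_top : cB n ≠ ∞ := measure_ball_lt_top.ne

lemma cB_ne_zero : cB n ≠ 0 := (measure_ball_pos _ _ one_pos).ne'

lemma vol_ball (x : E n) {s : ℝ} (hs : 0 < s) :
    volume (ball x s) = ENNReal.ofReal (s ^ n) * cB n := by
  rw [Measure.addHaar_ball_of_pos _ _ hs, finrank_euclideanSpace_fin]
  rfl

lemma mul_inv_pow {s : ℝ} (hs : 0 < s) :
    ENNReal.ofReal (s ^ n) * ENNReal.ofReal ((s ^ n)⁻¹) = 1 := by
  rw [← ENNReal.ofReal_mul (by positivity), mul_inv_cancel₀ (by positivity), ENNReal.ofReal_one]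

lemma le_NM (g : E n → ℝ≥0∞) (x : E n) {s : ℝ} (hs : 0 < s) :
    ENNReal.ofReal ((s ^ n)⁻¹) * ∫⁻ z in ball x s, g z ≤ NM g x :=
  le_iSup₂_of_le (f := fun (s : ℝ) (_ : 0 < s) =>
    ENNReal.ofReal ((s ^ n)⁻¹) * ∫⁻ z in ball x s, g z) s hs le_rfl

lemma setInt_le (g : E n → ℝ≥0∞) (x : E n) {s : ℝ} (hs : 0 < s) :
    ∫⁻ z in ball x s, g z ≤ ENNReal.ofReal (s ^ n) * NM g x := by
  calc ∫⁻ z in ball x s, g z
      = ENNReal.ofReal (s ^ n) * (ENNReal.ofReal ((s ^ n)⁻¹) * ∫⁻ z in ball x s, g z) := by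
        rw [← mul_assoc, mul_inv_pow hs, one_mul]
    _ ≤ _ := by gcongr; exact le_NM g x hs

lemma NM_congr {g g' : E n → ℝ≥0∞} (h : g =ᵐ[volume] g') : NM g = NM g' := by
  funext x
  unfold NM
  refine iSup_congr fun s => iSup_congr fun _ => ?_
  rw [lintegral_congr_ae (ae_restrict_of_ae h)]

lemma NM_mono {g g' : E n → ℝ≥0∞} (h : ∀ z, g z ≤ g' z) (x : E n) : NM g x ≤ NM g' x := by
  refine iSup₂_le fun s hs => le_trans ?_ (le_NM g' x hs)
  gcongr with z
  exact h z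

/-- weak type `(1,1)` -/
theorem weak (hn : 0 < n) (g : E n → ℝ≥0∞) (l : ℝ≥0∞) :
    l * volume {x | l < NM g x} ≤ 4 ^ n * cB n * ∫⁻ z, g z := by
  by_cases hI : ∫⁻ z, g z = ∞
  · rw [hI, ENNReal.mul_top (mul_ne_zero (by positivity) cB_ne_zero)]
    exact le_top
  by_cases hl0 : l = 0
  · simp [hl0]
  by_cases hlt : l = ∞
  · simp [hlt]
  have hex : ∀ x : E n, ∃ s : ℝ, 0 < s ∧ (l < NM g x →
      l * ENNReal.ofReal (s ^ n) ≤ ∫⁻ z in ball x s, g z) := by
    intro x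
    by_cases hx : l < NM g x
    · obtain ⟨s, hs⟩ := lt_iSup_iff.1 hx
      obtain ⟨hs0, hs⟩ := lt_iSup_iff.1 hs
      refine ⟨s, hs0, fun _ => ?_⟩
      calc l * ENNReal.ofReal (s ^ n)
          ≤ (ENNReal.ofReal ((s ^ n)⁻¹) * ∫⁻ z in ball x s, g z) * ENNReal.ofReal (s ^ n) := by
            gcongr
        _ = _ := by rw [mul_comm, ← mul_assoc, mul_inv_pow hs0, one_mul]
    · exact ⟨1, one_pos, fun h => absurd h hx⟩
  choose ρ hρ0 hρ using hex
  have hb : ∀ x ∈ {x | l < NM g x}, ρ x ≤ max 1 ((∫⁻ z, g z) / l).toReal := by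
    intro x hx
    rcases le_or_gt (ρ x) 1 with h1 | h1
    · exact h1.trans (le_max_left _ _)
    refine le_trans ?_ (le_max_right _ _)
    have h2 : ENNReal.ofReal (ρ x ^ n) ≤ (∫⁻ z, g z) / l := by
      rw [ENNReal.le_div_iff_mul_le (Or.inl hl0) (Or.inl hlt), mul_comm]
      exact (hρ x hx).trans (setLIntegral_le_lintegral _ _)
    have h3 := (ENNReal.ofReal_le_iff_le_toReal (ENNReal.div_ne_top hI hl0)).1 h2
    exact (le_self_pow₀ h1.le hn.ne').trans h3
  obtain ⟨u, hut, hud, hcov⟩ := Vitali.exists_disjoint_subfamily_covering_enlargement_ball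
    {x | l < NM g x} (fun x => x) ρ _ hb 4 (by norm_num)
  have huc : u.Countable :=
    hud.countable_of_isOpen (fun _ _ => isOpen_ball) (fun a _ => nonempty_ball.2 (hρ0 a))
  have hsub : {x | l < NM g x} ⊆ ⋃ b ∈ u, ball b (4 * ρ b) := by
    intro x hx
    obtain ⟨b, hb, hxb⟩ := hcov x hx
    exact mem_biUnion hb (hxb (mem_ball_self (hρ0 x)))
  calc l * volume {x | l < NM g x} ≤ l * ∑' b : u, volume (ball (b : E n) (4 * ρ b)) := by
        gcongr
        exact (measure_mono hsub).trans (measure_biUnion_le _ huc _)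
    _ = ∑' b : u, 4 ^ n * cB n * (l * ENNReal.ofReal (ρ b ^ n)) := by
        rw [← ENNReal.tsum_mul_left]
        refine tsum_congr fun b => ?_
        rw [vol_ball _ (mul_pos (by norm_num) (hρ0 b)), mul_pow,
          ENNReal.ofReal_mul (by positivity), ENNReal.ofReal_pow (by norm_num)]
        simp only [ENNReal.ofReal_ofNat]
        ring
    _ ≤ ∑' b : u, 4 ^ n * cB n * ∫⁻ z in ball (b : E n) (ρ b), g z := by
        refine ENNReal.tsum_le_tsum fun b => ?_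
        gcongr
        exact hρ b (hut b.2)
    _ = 4 ^ n * cB n * ∫⁻ z in ⋃ b ∈ u, ball b (ρ b), g z := by
        rw [ENNReal.tsum_mul_left, lintegral_biUnion huc (fun _ _ => measurableSet_ball) hud]
    _ ≤ _ := by
        gcongr
        exact Measure.restrict_le_self

lemma NM_trunc (g : E n → ℝ≥0∞) (l : ℝ≥0∞) (x : E n) :
    NM g x ≤ NM (fun z => {z | l < g z}.indicator g z) x + cB n * l := by
  refine iSup₂_le fun s hs => ?_
  have h1 : ∫⁻ z in ball x s, g z ≤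
      (∫⁻ z in ball x s, {z | l < g z}.indicator g z) + l * volume (ball x s) := by
    rw [← setLIntegral_const, ← lintegral_add_right _ measurable_const]
    refine lintegral_mono fun z => ?_
    by_cases hz : l < g z
    · rw [indicator_of_mem (show z ∈ {z | l < g z} from hz)]
      exact le_self_add
    · exact (not_lt.1 hz).trans le_add_self
  calc ENNReal.ofReal ((s ^ n)⁻¹) * ∫⁻ z in ball x s, g z
      ≤ ENNReal.ofReal ((s ^ n)⁻¹) *
        ((∫⁻ z in ball x s, {z | l < g z}.indicator g z) + l * volume (ball x s)) := by gcongr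
    _ = ENNReal.ofReal ((s ^ n)⁻¹) * (∫⁻ z in ball x s, {z | l < g z}.indicator g z) +
        (ENNReal.ofReal (s ^ n) * ENNReal.ofReal ((s ^ n)⁻¹)) * (cB n * l) := by
        rw [vol_ball _ hs]
        ring
    _ ≤ _ := by
        rw [mul_inv_pow hs, one_mul]
        gcongr
        exact le_NM _ x hs

/-- truncated weak type bound -/
theorem weak_trunc (hn : 0 < n) (g : E n → ℝ≥0∞) (l : ℝ≥0∞) :
    l * volume {x | (1 + cB n) * l < NM g x} ≤
      4 ^ n * cB n * ∫⁻ z, {z | l < g z}.indicator g z := by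
  refine le_trans ?_ (weak hn _ l)
  refine mul_le_mul' le_rfl (measure_mono fun x hx => ?_)
  by_contra hc
  have h1 := NM_trunc g l x
  have h2 : NM g x ≤ (1 + cB n) * l := by
    rw [add_mul, one_mul]
    exact h1.trans (add_le_add (not_lt.1 hc) le_rfl)
  exact absurd hx (not_lt.2 h2)

lemma two_zpow_ne_zero (k : ℤ) : (2 : ℝ≥0∞) ^ k ≠ 0 :=
  (ENNReal.zpow_pos (by norm_num) (by norm_num) k).ne'

lemma two_zpow_ne_top (k : ℤ) : (2 : ℝ≥0∞) ^ k ≠ ∞ :=
  (ENNReal.zpow_lt_top (by norm_num) (by norm_num) k).ne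

lemma dy_upper {A : ℝ≥0∞} (hA : 1 ≤ A) (hAt : A ≠ ∞) {r : ℝ} (hr : 1 < r) (y : ℝ≥0∞) :
    y ^ r ≤ ∑' k : ℤ, if A * 2 ^ k < y then (A * 2 ^ (k + 1)) ^ r else 0 := by
  have hA0 : A ≠ 0 := (lt_of_lt_of_le one_pos hA).ne'
  by_cases hy0 : y = 0
  · rw [hy0, ENNReal.zero_rpow_of_pos (by linarith)]
    exact zero_le
  by_cases hyt : y = ∞
  · have key : ∀ m : ℕ, (m : ℝ≥0∞) ≤
        ∑' k : ℤ, if A * 2 ^ k < y then (A * 2 ^ (k + 1)) ^ r else 0 := by
      intro m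
      refine le_trans ?_ (ENNReal.le_tsum (m : ℤ))
      rw [if_pos (by rw [hyt]; exact (ENNReal.mul_ne_top hAt (two_zpow_ne_top _)).lt_top)]
      have h1 : (m : ℝ≥0∞) ≤ 2 ^ ((m : ℤ) + 1) := by
        have : ((m : ℤ) + 1) = ((m + 1 : ℕ) : ℤ) := by push_cast; ring
        rw [this, zpow_natCast]
        have h2 : m ≤ 2 ^ (m + 1) := (Nat.le_succ m).trans (Nat.lt_two_pow_self).le
        exact_mod_cast h2
      have h3 : (1 : ℝ≥0∞) ≤ 2 ^ ((m : ℤ) + 1) := by
        have : ((m : ℤ) + 1) = ((m + 1 : ℕ) : ℤ) := by push_cast; ring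
        rw [this, zpow_natCast]
        exact one_le_pow₀ (by norm_num)
      have h4 : (2 : ℝ≥0∞) ^ ((m : ℤ) + 1) ≤ A * 2 ^ ((m : ℤ) + 1) := le_mul_of_one_le_left' hA
      calc (m : ℝ≥0∞) ≤ (A * 2 ^ ((m : ℤ) + 1)) ^ (1 : ℝ) := by
            rw [ENNReal.rpow_one]; exact h1.trans h4
        _ ≤ _ := ENNReal.rpow_le_rpow_of_exponent_le (h3.trans h4) hr.le
    rw [ENNReal.eq_top_of_forall_nnreal_le (x := ∑' k : ℤ,
      if A * 2 ^ k < y then (A * 2 ^ (k + 1)) ^ r else 0) ?_]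
    · exact le_top
    · intro c
      obtain ⟨m, hm⟩ := exists_nat_ge c
      exact le_trans (by exact_mod_cast hm) (key m)
  obtain ⟨k, hk1, hk2⟩ := ENNReal.exists_mem_Ioc_zpow (x := y / A) (y := 2)
    (ENNReal.div_ne_zero.2 ⟨hy0, hAt⟩) (ENNReal.div_ne_top hyt hA0) (by norm_num) (by norm_num)
  refine le_trans ?_ (ENNReal.le_tsum k)
  rw [ENNReal.lt_div_iff_mul_lt (Or.inl hA0) (Or.inl hAt), mul_comm] at hk1
  rw [ENNReal.div_le_iff hA0 hAt, mul_comm] at hk2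
  rw [if_pos hk1]
  exact ENNReal.rpow_le_rpow hk2 (by linarith)

lemma dy_lower {A : ℝ≥0∞} (hA : A ≠ 0) (hAt : A ≠ ∞) {r : ℝ} (hr : 1 < r) :
    ∃ C : ℝ≥0∞, C ≠ ∞ ∧ ∀ y : ℝ≥0∞,
      ∑' k : ℤ, (A * 2 ^ (k + 1)) ^ r * (2 ^ k)⁻¹ * (if 2 ^ k < y then y else 0) ≤ C * y ^ r := by
  have hθ : (2⁻¹ : ℝ≥0∞) ^ (r - 1) < 1 := ENNReal.rpow_lt_one (by norm_num) (by linarith)
  have h2A : (2 * A) ^ r ≠ ∞ :=
    ENNReal.rpow_ne_top_of_nonneg (by linarith) (ENNReal.mul_ne_top (by norm_num) hAt)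
  have h2A0 : (2 * A) ^ r ≠ 0 :=
    (ENNReal.rpow_pos (ENNReal.mul_pos (by norm_num) hA)
      (ENNReal.mul_ne_top (by norm_num) hAt)).ne'
  have hg : (1 - (2⁻¹ : ℝ≥0∞) ^ (r - 1))⁻¹ ≠ ∞ := ENNReal.inv_ne_top.2 (tsub_pos_of_lt hθ).ne'
  refine ⟨(2 * A) ^ r * (1 - (2⁻¹ : ℝ≥0∞) ^ (r - 1))⁻¹, ENNReal.mul_ne_top h2A hg, fun y => ?_⟩
  by_cases hy0 : y = 0
  · simp [hy0]
  by_cases hyt : y = ∞
  · rw [hyt, ENNReal.top_rpow_of_pos (by linarith), ENNReal.mul_top]
    · exact le_top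
    · exact mul_ne_zero h2A0 (ENNReal.inv_ne_zero.2 (ne_top_of_le_ne_top ENNReal.one_ne_top
        tsub_le_self))
  obtain ⟨K, hK1, hK2⟩ := ENNReal.exists_mem_Ioc_zpow (x := y) (y := 2) hy0 hyt (by norm_num)
    (by norm_num)
  have hinj : Function.Injective (fun j : ℕ => K - (j : ℤ)) := by
    intro a b h
    simp only at h
    omega
  rw [← hinj.tsum_eq]
  · rw [← ENNReal.tsum_geometric, ← ENNReal.tsum_mul_left, ← ENNReal.tsum_mul_right]
    refine ENNReal.tsum_le_tsum fun j => ?_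
    have e1 : A * 2 ^ (K - (j : ℤ) + 1) = (2 * A) * 2 ^ (K - (j : ℤ)) := by
      rw [ENNReal.zpow_add (by norm_num) (by norm_num), zpow_one]
      ring
    have e2 : (2 : ℝ≥0∞) ^ (K - (j : ℤ)) = 2 ^ K * (2⁻¹) ^ j := by
      rw [sub_eq_add_neg, ENNReal.zpow_add (by norm_num) (by norm_num), ENNReal.zpow_neg,
        zpow_natCast, ENNReal.inv_pow]
    have e3 : ((2 : ℝ≥0∞) ^ (K - (j : ℤ))) ^ r * (2 ^ (K - (j : ℤ)))⁻¹ =
        ((2 : ℝ≥0∞) ^ (K - (j : ℤ))) ^ (r - 1) := by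
      rw [ENNReal.rpow_sub _ _ (two_zpow_ne_zero _) (two_zpow_ne_top _), ENNReal.rpow_one,
        div_eq_mul_inv]
    have e4 : (((2 : ℝ≥0∞)⁻¹) ^ j) ^ (r - 1) = ((2⁻¹ : ℝ≥0∞) ^ (r - 1)) ^ j := by
      rw [← ENNReal.rpow_natCast, ← ENNReal.rpow_natCast, ← ENNReal.rpow_mul,
        ← ENNReal.rpow_mul, mul_comm]
    have e5 : y ^ (r - 1) * y = y ^ r := by
      conv_lhs => rw [← ENNReal.rpow_one y, ← ENNReal.rpow_mul, ← ENNReal.rpow_add _ _ hy0 hyt]
      simp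
    have h6 : ((2 : ℝ≥0∞) ^ K) ^ (r - 1) ≤ y ^ (r - 1) :=
      ENNReal.rpow_le_rpow hK1.le (by linarith)
    have h7 : (if 2 ^ (K - (j : ℤ)) < y then y else 0) ≤ y := by split_ifs <;> simp
    calc (A * 2 ^ (K - (j : ℤ) + 1)) ^ r * (2 ^ (K - (j : ℤ)))⁻¹ *
          (if 2 ^ (K - (j : ℤ)) < y then y else 0)
        ≤ (A * 2 ^ (K - (j : ℤ) + 1)) ^ r * (2 ^ (K - (j : ℤ)))⁻¹ * y := by gcongr
      _ = (2 * A) ^ r * (((2 : ℝ≥0∞) ^ K) ^ (r - 1) * ((2⁻¹ : ℝ≥0∞) ^ (r - 1)) ^ j) * y := by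
          rw [e1, ENNReal.mul_rpow_of_nonneg _ _ (by linarith : (0 : ℝ) ≤ r), mul_assoc _ _ (_)⁻¹,
            e3, e2, ENNReal.mul_rpow_of_nonneg _ _ (by linarith : (0 : ℝ) ≤ r - 1), e4]
      _ ≤ (2 * A) ^ r * (y ^ (r - 1) * ((2⁻¹ : ℝ≥0∞) ^ (r - 1)) ^ j) * y := by gcongr
      _ = _ := by rw [← e5]; ring
  · intro k hk
    rcases le_or_gt k K with h | h
    · exact ⟨(K - k).toNat, by simp only; omega⟩
    · exfalso
      apply hk
      have h1 : (2 : ℝ≥0∞) ^ (K + 1) ≤ 2 ^ k := ENNReal.zpow_le_of_le (by norm_num) (by omega)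
      simp only
      rw [if_neg (not_lt.2 (hK2.trans h1)), mul_zero]

/-- strong type `(r,r)` for `r > 1` -/
theorem NM_lp (hn : 0 < n) {r : ℝ} (hr : 1 < r) : ∃ C : ℝ≥0∞, C ≠ ∞ ∧
    ∀ g : E n → ℝ≥0∞, AEMeasurable g → ∫⁻ x, NM g x ^ r ≤ C * ∫⁻ x, g x ^ r := by
  have hA : (1 : ℝ≥0∞) ≤ 1 + cB n := le_self_add
  have hAt : 1 + cB n ≠ ∞ := ENNReal.add_ne_top.2 ⟨ENNReal.one_ne_top, cB_ne_top⟩
  obtain ⟨C, hC, hle⟩ := dy_lower (lt_of_lt_of_le one_pos hA).ne' hAt hr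
  have hD : 4 ^ n * cB n ≠ ∞ := ENNReal.mul_ne_top (by finiteness) cB_ne_top
  refine ⟨4 ^ n * cB n * C, ENNReal.mul_ne_top hD hC, ?_⟩
  have main : ∀ g : E n → ℝ≥0∞, Measurable g →
      ∫⁻ x, NM g x ^ r ≤ 4 ^ n * cB n * C * ∫⁻ x, g x ^ r := by
    intro g hg
    have hm : ∀ k : ℤ, Measurable fun z => {z | 2 ^ k < g z}.indicator g z := fun k =>
      hg.indicator (measurableSet_lt measurable_const hg)
    calc ∫⁻ x, NM g x ^ r
        ≤ ∫⁻ x, ∑' k : ℤ, (toMeasurable volume {x | (1 + cB n) * 2 ^ k < NM g x}).indicator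
            (fun _ => ((1 + cB n) * 2 ^ (k + 1)) ^ r) x := by
          refine lintegral_mono fun x => (dy_upper hA hAt hr _).trans ?_
          refine ENNReal.tsum_le_tsum fun k => ?_
          split_ifs with h
          · rw [indicator_of_mem (subset_toMeasurable _ _
              (show x ∈ {x | (1 + cB n) * 2 ^ k < NM g x} from h))]
          · exact zero_le
      _ = ∑' k : ℤ, ((1 + cB n) * 2 ^ (k + 1)) ^ r * (2 ^ k)⁻¹ *
            (2 ^ k * volume {x | (1 + cB n) * 2 ^ k < NM g x}) := by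
          rw [lintegral_tsum fun k =>
            (measurable_const.indicator (measurableSet_toMeasurable _ _)).aemeasurable]
          refine tsum_congr fun k => ?_
          rw [lintegral_indicator_const (measurableSet_toMeasurable _ _), measure_toMeasurable,
            mul_assoc, ← mul_assoc (_)⁻¹,
            ENNReal.inv_mul_cancel (two_zpow_ne_zero _) (two_zpow_ne_top _), one_mul]
      _ ≤ ∑' k : ℤ, ((1 + cB n) * 2 ^ (k + 1)) ^ r * (2 ^ k)⁻¹ *
            (4 ^ n * cB n * ∫⁻ z, {z | 2 ^ k < g z}.indicator g z) := by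
          refine ENNReal.tsum_le_tsum fun k => ?_
          exact mul_le_mul' le_rfl (weak_trunc hn g _)
      _ = 4 ^ n * cB n * ∫⁻ z, ∑' k : ℤ, ((1 + cB n) * 2 ^ (k + 1)) ^ r * (2 ^ k)⁻¹ *
            (if 2 ^ k < g z then g z else 0) := by
          have e : ∀ (k : ℤ) (z : E n), (if 2 ^ k < g z then g z else 0) =
              {z | 2 ^ k < g z}.indicator g z := by
            intro k z
            by_cases h : 2 ^ k < g z
            · rw [if_pos h, indicator_of_mem (show z ∈ {z | 2 ^ k < g z} from h)]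
            · rw [if_neg h, indicator_of_notMem (show z ∉ {z | 2 ^ k < g z} from h)]
          simp only [e]
          rw [lintegral_tsum fun k => ((hm k).const_mul _).aemeasurable, ← ENNReal.tsum_mul_left]
          refine tsum_congr fun k => ?_
          rw [lintegral_const_mul _ (hm k)]
          ring
      _ ≤ 4 ^ n * cB n * ∫⁻ z, C * g z ^ r := by
          gcongr with z
          exact hle _
      _ = _ := by rw [lintegral_const_mul' _ _ hC, mul_assoc (4 ^ n * cB n)]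
  intro g hg
  rw [NM_congr hg.ae_eq_mk]
  refine (main _ hg.measurable_mk).trans (le_of_eq ?_)
  congr 1
  refine lintegral_congr_ae ?_
  filter_upwards [hg.ae_eq_mk] with z hz
  rw [hz]

lemma KM_congr (a : ℝ) {g g' : E n → ℝ≥0∞} (h : g =ᵐ[volume] g') : KM a g = KM a g' := by
  funext x
  unfold KM
  refine iSup_congr fun s => iSup_congr fun _ => lintegral_congr_ae ?_
  filter_upwards [h] with z hz
  rw [hz]

lemma ker_pos (a : ℝ) {s : ℝ} (hs : 0 < s) (z : E n) : 0 < ker n a s z := by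
  unfold ker
  positivity

lemma ker_le {a : ℝ} (ha : 0 ≤ a) {s : ℝ} (hs : 0 < s) (x z : E n) :
    ∃ k : ℕ, z ∈ ball x (2 ^ k * s) ∧ ker n a s (z - x) ≤ (s ^ n)⁻¹ * ((2 : ℝ) ^ k / 2) ^ (-a) := by
  classical
  have hex : ∃ k : ℕ, ‖z - x‖ / s < 2 ^ k := pow_unbounded_of_one_lt _ (by norm_num)
  refine ⟨Nat.find hex, ?_, ?_⟩
  · rw [mem_ball, dist_eq_norm, ← div_lt_iff₀ hs]
    exact Nat.find_spec hex
  · unfold ker
    have h0 : 0 ≤ ‖z - x‖ / s := by positivity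
    have h1 : (2 : ℝ) ^ Nat.find hex / 2 ≤ 1 + ‖z - x‖ / s := by
      rcases h : Nat.find hex with _ | m
      · norm_num
        linarith
      · have := Nat.find_min hex (m := m) (by omega)
        rw [pow_succ]
        linarith [not_lt.1 this]
    exact mul_le_mul_of_nonneg_left (Real.rpow_le_rpow_of_nonpos (by positivity) h1 (by linarith))
      (by positivity)

/-- `KM` is dominated by the centred maximal function -/
theorem KM_le_NM {a : ℝ} (ha : (n : ℝ) < a) : ∃ C : ℝ≥0∞, C ≠ ∞ ∧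
    ∀ g : E n → ℝ≥0∞, AEMeasurable g → ∀ x, KM a g x ≤ C * NM g x := by
  have ha0 : 0 ≤ a := le_trans (Nat.cast_nonneg n) ha.le
  have hθ : (2 : ℝ) ^ ((n : ℝ) - a) < 1 :=
    Real.rpow_lt_one_of_one_lt_of_neg (by norm_num) (by linarith)
  have hs : Summable fun k : ℕ => (2 : ℝ) ^ a * ((2 : ℝ) ^ ((n : ℝ) - a)) ^ k :=
    (summable_geometric_of_lt_one (by positivity) hθ).mul_left _
  refine ⟨∑' k : ℕ, ENNReal.ofReal ((2 : ℝ) ^ a * ((2 : ℝ) ^ ((n : ℝ) - a)) ^ k), ?_, ?_⟩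
  · rw [← ENNReal.ofReal_tsum_of_nonneg (fun k => by positivity) hs]
    exact ENNReal.ofReal_ne_top
  intro g hg x
  refine iSup₂_le fun s hs0 => ?_
  calc ∫⁻ z, ENNReal.ofReal (ker n a s (z - x)) * g z
      ≤ ∫⁻ z, ∑' k : ℕ, ENNReal.ofReal ((s ^ n)⁻¹ * ((2 : ℝ) ^ k / 2) ^ (-a)) *
          (ball x (2 ^ k * s)).indicator g z := by
        refine lintegral_mono fun z => ?_
        obtain ⟨k, hk1, hk2⟩ := ker_le ha0 hs0 x z
        refine le_trans ?_ (ENNReal.le_tsum k)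
        rw [indicator_of_mem hk1]
        gcongr
    _ = ∑' k : ℕ, ENNReal.ofReal ((s ^ n)⁻¹ * ((2 : ℝ) ^ k / 2) ^ (-a)) *
          ∫⁻ z in ball x (2 ^ k * s), g z := by
        rw [lintegral_tsum fun k => (hg.indicator measurableSet_ball).const_mul _]
        refine tsum_congr fun k => ?_
        rw [lintegral_const_mul' _ _ ENNReal.ofReal_ne_top, lintegral_indicator measurableSet_ball]
    _ ≤ ∑' k : ℕ, ENNReal.ofReal ((s ^ n)⁻¹ * ((2 : ℝ) ^ k / 2) ^ (-a)) *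
          (ENNReal.ofReal ((2 ^ k * s) ^ n) * NM g x) := by
        refine ENNReal.tsum_le_tsum fun k => ?_
        gcongr
        exact setInt_le g x (by positivity)
    _ = _ := by
        rw [← ENNReal.tsum_mul_right]
        refine tsum_congr fun k => ?_
        rw [← mul_assoc, ← ENNReal.ofReal_mul (by positivity)]
        congr 2
        have e1 : ((2 : ℝ) ^ k / 2) ^ (-a) = (2 : ℝ) ^ a * ((2 : ℝ) ^ (-a)) ^ k := by
          rw [Real.div_rpow (by positivity) (by norm_num), ← Real.rpow_natCast,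
            ← Real.rpow_natCast, ← Real.rpow_mul (by norm_num), ← Real.rpow_mul (by norm_num),
            Real.rpow_neg (by norm_num : (0 : ℝ) ≤ 2) a, div_inv_eq_mul, mul_comm (k : ℝ)]
          ring
        have e2 : (2 : ℝ) ^ ((n : ℝ) - a) = 2 ^ n * (2 : ℝ) ^ (-a) := by
          rw [sub_eq_add_neg, Real.rpow_add (by norm_num), Real.rpow_natCast]
        rw [e1, e2, mul_pow, mul_pow, ← pow_mul, ← pow_mul, mul_comm k n]
        field_simp

/-- the maximal inequality for `KM` -/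
theorem KM_lp (hn : 0 < n) {a r : ℝ} (ha : (n : ℝ) < a) (hr : 1 < r) : ∃ C : ℝ≥0∞, C ≠ ∞ ∧
    ∀ g : E n → ℝ≥0∞, AEMeasurable g → ∫⁻ x, KM a g x ^ r ≤ C * ∫⁻ x, g x ^ r := by
  obtain ⟨C1, hC1, h1⟩ := KM_le_NM ha
  obtain ⟨C2, hC2, h2⟩ := NM_lp hn hr
  have hC : C1 ^ r ≠ ∞ := ENNReal.rpow_ne_top_of_nonneg (by linarith) hC1
  refine ⟨C1 ^ r * C2, ENNReal.mul_ne_top hC hC2, fun g hg => ?_⟩
  calc ∫⁻ x, KM a g x ^ r ≤ ∫⁻ x, C1 ^ r * NM g x ^ r := by
        refine lintegral_mono fun x => ?_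
        rw [← ENNReal.mul_rpow_of_nonneg _ _ (by linarith)]
        exact ENNReal.rpow_le_rpow (h1 g hg x) (by linarith)
    _ = C1 ^ r * ∫⁻ x, NM g x ^ r := lintegral_const_mul' _ _ hC
    _ ≤ C1 ^ r * (C2 * ∫⁻ x, g x ^ r) := by gcongr; exact h2 g hg
    _ = _ := (mul_assoc _ _ _).symm

/-- weak type `(1,1)` for `KM` -/
theorem KM_weak (hn : 0 < n) {a : ℝ} (ha : (n : ℝ) < a) : ∃ C : ℝ≥0∞, C ≠ ∞ ∧
    ∀ g : E n → ℝ≥0∞, AEMeasurable g → ∀ l : ℝ≥0∞,
      l * volume {x | l < KM a g x} ≤ C * ∫⁻ x, g x := by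
  obtain ⟨C1, hC1, h1⟩ := KM_le_NM ha
  refine ⟨C1 * (4 ^ n * cB n),
    ENNReal.mul_ne_top hC1 (ENNReal.mul_ne_top (by finiteness) cB_ne_top), fun g hg l => ?_⟩
  by_cases h0 : C1 = 0
  · have : {x | l < KM a g x} = ∅ := by
      ext x
      have := h1 g hg x
      rw [h0, zero_mul] at this
      simp [le_zero_iff.1 this]
    simp [this]
  have hsub : {x | l < KM a g x} ⊆ {x | l / C1 < NM g x} := by
    intro x hx
    have h2 : l < C1 * NM g x := lt_of_lt_of_le hx (h1 g hg x)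
    exact ENNReal.div_lt_of_lt_mul' h2
  calc l * volume {x | l < KM a g x} ≤ C1 * (l / C1 * volume {x | l / C1 < NM g x}) := by
        rw [← mul_assoc, ENNReal.mul_div_cancel h0 hC1]
        gcongr
    _ ≤ C1 * (4 ^ n * cB n * ∫⁻ x, g x) := mul_le_mul' le_rfl (weak hn g _)
    _ = _ := (mul_assoc _ _ _).symm

lemma ker_continuous (a : ℝ) {s : ℝ} (hs : 0 < s) : Continuous (ker n a s) := by
  unfold ker
  refine continuous_const.mul (Continuous.rpow_const (by fun_prop) fun z => Or.inl ?_)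
  positivity

/-- `KM a g` is lower semicontinuous -/
theorem KM_lsc (a : ℝ) {g : E n → ℝ≥0∞} (hg : AEMeasurable g) : LowerSemicontinuous (KM a g) := by
  refine lowerSemicontinuous_iSup fun s => lowerSemicontinuous_iSup fun hs => ?_
  rw [lowerSemicontinuous_iff_isClosed_preimage]
  intro c
  refine IsSeqClosed.isClosed fun u x hu hx => ?_
  have hc := ker_continuous (n := n) a hs
  have hlim : ∀ z, Tendsto (fun m => ENNReal.ofReal (ker n a s (z - u m)) * g z) atTop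
      (𝓝 (ENNReal.ofReal (ker n a s (z - x)) * g z)) := by
    intro z
    refine ENNReal.Tendsto.mul_const (ENNReal.tendsto_ofReal ?_)
      (Or.inl (ENNReal.ofReal_pos.2 (ker_pos a hs _)).ne')
    exact (hc.tendsto _).comp (tendsto_const_nhds.sub hx)
  calc ∫⁻ z, ENNReal.ofReal (ker n a s (z - x)) * g z
      = ∫⁻ z, liminf (fun m => ENNReal.ofReal (ker n a s (z - u m)) * g z) atTop :=
        lintegral_congr fun z => (hlim z).liminf_eq.symm
    _ ≤ liminf (fun m => ∫⁻ z, ENNReal.ofReal (ker n a s (z - u m)) * g z) atTop := by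
        refine lintegral_liminf_le' fun m => AEMeasurable.mul ?_ hg
        exact (ENNReal.continuous_ofReal.comp
          (hc.comp (continuous_id.sub continuous_const))).measurable.aemeasurable
    _ ≤ c := liminf_le_of_frequently_le' (Frequently.of_forall hu)

theorem KM_measurable (a : ℝ) {g : E n → ℝ≥0∞} (hg : AEMeasurable g) : Measurable (KM a g) :=
  (KM_lsc a hg).measurable

end Pool.Agent.HP.HL
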