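import Pool.Agent.Lib.HP.Defs
import Pool.Agent.Lib.HP.HL

set_option autoImplicit false

open MeasureTheory
open scoped ENNReal

noncomputable section

namespace Pool.Agent.HP

theorem st_W11 : St_W11 := by
  intro n hn
  have hD : 4 ^ n * HL.cB n ≠ ∞ := ENNReal.mul_ne_top (by finiteness) HL.cB_ne_top
  refine ⟨(4 ^ n * HL.cB n).toReal, ENNReal.toReal_nonneg, fun g l _ => ?_⟩
  rw [ENNReal.ofReal_toReal hD]
  exact HL.weak hn g _

theorem st_KB : St_KB := by
  intro n a ha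
  obtain ⟨C, hC, h⟩ := HL.KM_le_NM ha
  refine ⟨C.toReal, ENNReal.toReal_nonneg, fun g hg x => ?_⟩
  rw [ENNReal.ofReal_toReal hC]
  exact h g hg x

theorem st_HL : St_HL := by
  intro n hn a s ha hs
  obtain ⟨C, hC, h⟩ := HL.KM_lp hn ha hs
  refine ⟨C.toReal, ENNReal.toReal_nonneg, fun g hg => ?_⟩
  rw [ENNReal.ofReal_toReal hC]
  exact h g hg

end Pool.Agent.HP
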