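import Mathlib
import Pool.Agent.Lib.HP.Defs

set_option autoImplicit false

open MeasureTheory
open scoped ContDiff

noncomputable section

namespace Pool.Agent.HP

namespace KD

variable {n : ℕ}

theorem norm_refl (K : E n → ℂ) (x z : E n) (k : ℕ) :
    ‖iteratedFDeriv ℝ k (fun z => K (x - z)) z‖ = ‖iteratedFDeriv ℝ k K (x - z)‖ := by
  have h := (LinearIsometryEquiv.neg ℝ (E := E n)).norm_iteratedFDeriv_comp_right
    (fun y => K (x + y)) z k
  rw [iteratedFDeriv_comp_add_left] at h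
  simp only [sub_eq_add_neg]
  exact h

theorem bound {N : ℕ} {B : ℝ} {K : E n → ℂ} (hB : 0 ≤ B) (hK : CZK (N + 1) B K) {x w z : E n}
    {r : ℝ} (hr : 0 < r) (hd : 2 * r ≤ ‖x - w‖) (hz : ‖z - w‖ ≤ r) {k : ℕ} (hk : k ≤ N) :
    ‖iteratedFDeriv ℝ (k + 1) (fun z => K (x - z)) z‖ ≤
      2 ^ (n + 1) * B / ‖x - w‖ ^ (n + 1) / r ^ k := by
  have h1 : ‖x - w‖ ≤ ‖x - z‖ + ‖z - w‖ := norm_sub_le_norm_sub_add_norm_sub x z w
  have h2 : ‖x - w‖ / 2 ≤ ‖x - z‖ := by linarith
  have h3 : r ≤ ‖x - z‖ := by linarith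
  have h4 : 0 < ‖x - w‖ := by linarith
  have h5 : x - z ≠ 0 := norm_pos_iff.1 (hr.trans_le h3)
  rw [norm_refl]
  refine (hK (k + 1) (by omega) _ h5).trans ?_
  have h6 : (‖x - w‖ / 2) ^ (n + 1) * r ^ k ≤ ‖x - z‖ ^ (n + (k + 1)) := by
    rw [show n + (k + 1) = n + 1 + k by ring, pow_add ‖x - z‖ (n + 1) k]
    gcongr
  refine (div_le_div_of_nonneg_left hB (by positivity) h6).trans (le_of_eq ?_)
  rw [div_pow]
  field_simp

end KD

theorem st_KD : St_KD := by
  intro n N
  refine ⟨2 ^ (n + 1), by positivity, fun K B hB hK hC x w r hr hd k hk z hz => ?_⟩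
  have hs : ContDiff ℝ ∞ fun z => K (x - z) := hK.comp (contDiff_const.sub contDiff_id)
  have h4 : 0 < ‖x - w‖ := by linarith
  rcases k with _ | k
  · rw [norm_iteratedFDeriv_zero, pow_zero, div_one]
    have h := (convex_closedBall w r).norm_image_sub_le_of_norm_fderiv_le (𝕜 := ℝ)
      (f := fun z => K (x - z)) (C := 2 ^ (n + 1) * B / ‖x - w‖ ^ (n + 1))
      (fun y _ => (hs.differentiable (by simp)).differentiableAt)
      (fun y hy => by
        have := KD.bound hB hC hr hd (mem_closedBall_iff_norm.1 hy) (Nat.zero_le N)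
        rwa [zero_add, norm_iteratedFDeriv_one, pow_zero, div_one] at this)
      (Metric.mem_closedBall_self hr.le) (mem_closedBall_iff_norm.2 hz)
    refine h.trans ((mul_le_mul_of_nonneg_left hz (by positivity)).trans (le_of_eq ?_))
    ring
  · rw [fun_iteratedFDeriv_sub_apply ((hs.of_le (by exact_mod_cast le_top)).contDiffAt)
      contDiffAt_const, iteratedFDeriv_const_of_ne (Nat.succ_ne_zero k), Pi.zero_apply, sub_zero]
    refine (KD.bound hB hC hr hd hz (k := k) (by omega)).trans (le_of_eq ?_)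
    field_simp
    ring

end Pool.Agent.HP
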