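import Pool.Agent.Lib.HP.Defs

set_option autoImplicit false

open MeasureTheory Complex Real Filter Topology
open scoped ENNReal ContDiff SchwartzMap FourierTransform

noncomputable section

namespace Pool.Agent.HP

namespace KER

variable {n : ℕ}

/-- scaling as a linear equivalence -/
def sc (n : ℕ) (c : ℝ) (hc : c ≠ 0) : E n ≃L[ℝ] E n :=
  ContinuousLinearEquiv.equivOfInverse (c • ContinuousLinearMap.id ℝ (E n))
    (c⁻¹ • ContinuousLinearMap.id ℝ (E n)) (fun x => by simp [smul_smul, hc])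
    (fun x => by simp [smul_smul, hc])

/-- the normalised dilation of a Schwartz function -/
def dl (κ : 𝓢(E n, ℂ)) (c : ℝ) (hc : c ≠ 0) : 𝓢(E n, ℂ) :=
  (c ^ n) • SchwartzMap.compCLMOfContinuousLinearEquiv ℝ (sc n c hc) κ

lemma dl_coe (κ : 𝓢(E n, ℂ)) (c : ℝ) (hc : c ≠ 0) :
    (dl κ c hc : E n → ℂ) = fun z => (c ^ n) • κ (c • z) := rfl

lemma four_dl (κ : 𝓢(E n, ℂ)) {c : ℝ} (hc : 0 < c) (ξ : E n) :
    𝓕 (dl κ c hc.ne' : E n → ℂ) ξ = 𝓕 (κ : E n → ℂ) (c⁻¹ • ξ) := by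
  have h := Measure.integral_comp_smul (volume : Measure (E n))
    (fun w => Real.fourierChar (-inner ℝ w (c⁻¹ • ξ)) • κ w) c
  rw [dl_coe, Real.fourier_eq, Real.fourier_eq]
  have e : ∀ z : E n, Real.fourierChar (-inner ℝ z ξ) • (c ^ n) • κ (c • z) =
      (c ^ n) • Real.fourierChar (-inner ℝ (c • z) (c⁻¹ • ξ)) • κ (c • z) := fun z => by
    rw [real_inner_smul_left, real_inner_smul_right, ← mul_assoc, mul_inv_cancel₀ hc.ne', one_mul,
      smul_comm]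
  simp only [e]
  rw [integral_smul, h, smul_smul, finrank_euclideanSpace_fin, abs_of_pos (by positivity),
    mul_inv_cancel₀ (by positivity), one_smul]

lemma der_dl (κ : 𝓢(E n, ℂ)) {c : ℝ} (hc : 0 < c) (k : ℕ) (z : E n) :
    ‖iteratedFDeriv ℝ k (dl κ c hc.ne' : E n → ℂ) z‖ =
      c ^ (n + k) * ‖iteratedFDeriv ℝ k (κ : E n → ℂ) (c • z)‖ := by
  have h1 : ContDiff ℝ k (κ : E n → ℂ) := κ.smooth k
  have h2 : ContDiff ℝ k fun z : E n => κ (c • z) := h1.comp (contDiff_const_smul c)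
  rw [dl_coe, iteratedFDeriv_const_smul_apply' h2.contDiffAt, iteratedFDeriv_comp_const_smul c h1,
    norm_smul, norm_smul, Real.norm_of_nonneg (by positivity), Real.norm_of_nonneg (by positivity),
    pow_add, mul_assoc]

lemma decay (κ : 𝓢(E n, ℂ)) (N : ℕ) (hn : 1 ≤ n) : ∃ C : ℝ, 0 ≤ C ∧ ∀ k ≤ N, ∀ w : E n,
    ‖w‖ ^ (n + k) * ‖iteratedFDeriv ℝ k (κ : E n → ℂ) w‖ ≤
      C * ((1 + ‖w‖ / 2)⁻¹ - (1 + ‖w‖)⁻¹) := by
  have h : ∀ k, ∃ C : ℝ, 0 ≤ C ∧ ∀ w : E n,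
      ‖w‖ ^ (n + k) * ‖iteratedFDeriv ℝ k (κ : E n → ℂ) w‖ ≤
        C * ((1 + ‖w‖ / 2)⁻¹ - (1 + ‖w‖)⁻¹) := by
    intro k
    obtain ⟨m, hm⟩ : ∃ m, n + k = m + 1 := ⟨n + k - 1, by omega⟩
    obtain ⟨C0, p0, h0⟩ := κ.decay m k
    obtain ⟨C1, p1, h1⟩ := κ.decay (m + 1) k
    obtain ⟨C2, p2, h2⟩ := κ.decay (m + 2) k
    refine ⟨2 * C0 + 3 * C1 + C2, by positivity, fun w => ?_⟩
    have hu := norm_nonneg w
    have e : (1 + ‖w‖ / 2)⁻¹ - (1 + ‖w‖)⁻¹ = ‖w‖ / ((1 + ‖w‖) * (2 + ‖w‖)) := by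
      field_simp
      ring
    rw [e, hm, ← mul_div_assoc, le_div_iff₀ (by positivity)]
    have h3 := h0 w
    have h4 := h1 w
    have h5 := h2 w
    have h6 : ‖w‖ ^ (m + 1) * ‖iteratedFDeriv ℝ k (κ : E n → ℂ) w‖ * ((1 + ‖w‖) * (2 + ‖w‖)) =
        (2 * (‖w‖ ^ m * ‖iteratedFDeriv ℝ k (κ : E n → ℂ) w‖) +
          3 * (‖w‖ ^ (m + 1) * ‖iteratedFDeriv ℝ k (κ : E n → ℂ) w‖) +
          ‖w‖ ^ (m + 2) * ‖iteratedFDeriv ℝ k (κ : E n → ℂ) w‖) * ‖w‖ := by ring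
    rw [h6]
    exact mul_le_mul_of_nonneg_right (by linarith) hu
  choose C h0 h1 using h
  refine ⟨∑ k ∈ Finset.range (N + 1), C k, Finset.sum_nonneg fun k _ => h0 k, fun k hk w =>
    (h1 k w).trans (mul_le_mul_of_nonneg_right (Finset.single_le_sum (fun k _ => h0 k)
      (Finset.mem_range.2 (by omega))) ?_)⟩
  have hu := norm_nonneg w
  exact sub_nonneg.2 (inv_anti₀ (by positivity) (by linarith))

/-- the cut-off -/
def bp (n : ℕ) : ContDiffBump (0 : E n) := ⟨1, 2, one_pos, one_lt_two⟩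

lemma rs_smul (j : Fin n) {c : ℝ} (hc : 0 < c) (ξ : E n) : rs j (c • ξ) = rs j ξ := by
  have h : (c : ℂ) ≠ 0 := Complex.ofReal_ne_zero.2 hc.ne'
  rw [rs, rs, real_inner_smul_left, norm_smul, Real.norm_of_nonneg hc.le, Complex.ofReal_mul,
    Complex.ofReal_mul, mul_left_comm, mul_div_mul_left _ _ h]

lemma rs_le (j : Fin n) (ξ : E n) : ‖rs j ξ‖ ≤ 1 := by
  rw [rs, norm_div, norm_mul, norm_neg, Complex.norm_I, one_mul, Complex.norm_real,
    Complex.norm_real, norm_norm]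
  refine div_le_one_of_le₀ ((norm_inner_le_norm _ _).trans (le_of_eq ?_)) (norm_nonneg _)
  simp

/-- the localised symbol -/
def sg (j : Fin n) (ξ : E n) : ℂ := rs j ξ * ((bp n ξ - bp n ((2 : ℝ) • ξ) : ℝ) : ℂ)

lemma sg_smooth (j : Fin n) : ContDiff ℝ ∞ (sg j) := by
  refine contDiff_iff_contDiffAt.2 fun ξ => ?_
  by_cases h : ξ = 0
  · subst h
    refine (contDiffAt_const (c := (0 : ℂ))).congr_of_eventuallyEq ?_
    filter_upwards [Metric.closedBall_mem_nhds (0 : E n) (by norm_num : (0 : ℝ) < 1 / 2)] with ξ h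
    rw [mem_closedBall_zero_iff] at h
    rw [sg, (bp n).one_of_mem_closedBall (mem_closedBall_zero_iff.2 (by
      change _ ≤ (1 : ℝ); linarith)), (bp n).one_of_mem_closedBall (mem_closedBall_zero_iff.2 (by
      change _ ≤ (1 : ℝ); rw [norm_smul, Real.norm_two]; linarith))]
    simp
  · have h1 : ContDiff ℝ ∞ fun ξ : E n => ((bp n ξ - bp n ((2 : ℝ) • ξ) : ℝ) : ℂ) :=
      Complex.ofRealCLM.contDiff.comp
        ((bp n).contDiff.sub ((bp n).contDiff.comp (contDiff_const_smul _)))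
    have h2 : ContDiffAt ℝ ∞ (fun ξ : E n => (‖ξ‖ : ℂ)) ξ :=
      Complex.ofRealCLM.contDiff.contDiffAt.comp ξ (contDiffAt_norm ℝ h)
    have h3 : ContDiff ℝ ∞ fun ξ : E n => (inner ℝ ξ (EuclideanSpace.single j (1 : ℝ)) : ℂ) :=
      Complex.ofRealCLM.contDiff.comp (contDiff_id.inner ℝ contDiff_const)
    have h4 : ContDiffAt ℝ ∞ (rs j) ξ := by
      unfold rs
      simp only [div_eq_mul_inv]
      exact (contDiffAt_const.mul h3.contDiffAt).mul
        (h2.inv (Complex.ofReal_ne_zero.2 (norm_ne_zero_iff.2 h)))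
    exact h4.mul h1.contDiffAt

lemma sg_supp (j : Fin n) : HasCompactSupport (sg j) := by
  refine HasCompactSupport.intro (isCompact_closedBall (0 : E n) 2) fun ξ h => ?_
  rw [mem_closedBall_zero_iff, not_le] at h
  rw [sg, (bp n).zero_of_le_dist (by rw [dist_zero_right]; exact h.le),
    (bp n).zero_of_le_dist (by
      rw [dist_zero_right, norm_smul, Real.norm_two]; change (2 : ℝ) ≤ _; linarith)]
  simp

/-- the scales -/
def bb (L l : ℕ) : ℝ := 2 ^ l / 2 ^ L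

lemma bb_pos (L l : ℕ) : 0 < bb L l := by unfold bb; positivity

lemma bb_succ (L l : ℕ) : bb L (l + 1) = 2 * bb L l := by unfold bb; ring

/-- the truncated kernels -/
def KK (κ : 𝓢(E n, ℂ)) (L : ℕ) : 𝓢(E n, ℂ) :=
  ∑ l ∈ Finset.range (2 * L), dl κ (bb L l)⁻¹ (inv_pos.2 (bb_pos L l)).ne'

lemma KK_coe (κ : 𝓢(E n, ℂ)) (L : ℕ) : (KK κ L : E n → ℂ) =
    fun z => ∑ l ∈ Finset.range (2 * L), dl κ (bb L l)⁻¹ (inv_pos.2 (bb_pos L l)).ne' z := by
  funext z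
  rw [KK, SchwartzMap.sum_apply]

lemma czk (κ : 𝓢(E n, ℂ)) (N : ℕ) (hn : 1 ≤ n) : ∃ C : ℝ, 0 ≤ C ∧ ∀ L, CZK N C (KK κ L) := by
  obtain ⟨C, hC, h⟩ := decay κ N hn
  refine ⟨C, hC, fun L k hk z hz => ?_⟩
  have hu := norm_pos_iff.2 hz
  rw [le_div_iff₀ (by positivity), KK_coe,
    iteratedFDeriv_fun_sum_apply fun l _ => (SchwartzMap.smooth _ k).contDiffAt]
  let g : ℕ → ℝ := fun l => (1 + ‖z‖ / bb L l)⁻¹
  have h1 : ∀ l, ‖iteratedFDeriv ℝ k
      (dl κ (bb L l)⁻¹ (inv_pos.2 (bb_pos L l)).ne' : E n → ℂ) z‖ * ‖z‖ ^ (n + k) ≤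
        C * (g (l + 1) - g l) := fun l => by
    have h2 := h k hk ((bb L l)⁻¹ • z)
    have h3 := bb_pos L l
    rw [norm_smul, Real.norm_of_nonneg (inv_pos.2 h3).le] at h2
    rw [der_dl κ (inv_pos.2 h3), mul_right_comm, ← mul_pow]
    refine h2.trans (le_of_eq ?_)
    simp only [g, bb_succ]
    rw [show (bb L l)⁻¹ * ‖z‖ / 2 = ‖z‖ / (2 * bb L l) by field_simp,
      show (bb L l)⁻¹ * ‖z‖ = ‖z‖ / bb L l by field_simp]
  refine (mul_le_mul_of_nonneg_right (norm_sum_le _ _) (by positivity)).trans ?_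
  rw [Finset.sum_mul]
  refine (Finset.sum_le_sum fun l _ => h1 l).trans ?_
  rw [← Finset.mul_sum, Finset.sum_range_sub]
  have h4 : g (2 * L) ≤ 1 := inv_le_one_of_one_le₀ (by
    have := bb_pos L (2 * L)
    have : 0 ≤ ‖z‖ / bb L (2 * L) := by positivity
    linarith)
  have h5 : 0 ≤ g 0 := by
    have := bb_pos L 0
    positivity
  exact mul_le_of_le_one_right hC (by linarith)

lemma four_KK (j : Fin n) (κ : 𝓢(E n, ℂ)) (hκ : 𝓕 (κ : E n → ℂ) = sg j) (L : ℕ) (ξ : E n) :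
    𝓕 (KK κ L : E n → ℂ) ξ =
      rs j ξ * ((bp n (bb L 0 • ξ) - bp n (bb L (2 * L) • ξ) : ℝ) : ℂ) := by
  rw [← SchwartzMap.fourier_coe, ← SchwartzMap.fourierTransformCLM_apply ℂ, KK, map_sum,
    SchwartzMap.sum_apply, ← Finset.sum_range_sub' (fun l => bp n (bb L l • ξ)),
    Complex.ofReal_sum, Finset.mul_sum]
  refine Finset.sum_congr rfl fun l _ => ?_
  rw [SchwartzMap.fourierTransformCLM_apply, SchwartzMap.fourier_coe,
    four_dl κ (inv_pos.2 (bb_pos L l)), inv_inv, hκ, sg, rs_smul j (bb_pos L l), bb_succ,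
    smul_smul]

end KER

open KER in
theorem st_KER : St_KER := by
  intro n j N
  let κ : 𝓢(E n, ℂ) := 𝓕⁻ ((sg_supp j).toSchwartzMap (sg_smooth j))
  have hκ : 𝓕 (κ : E n → ℂ) = sg j := by
    rw [← SchwartzMap.fourier_coe, FourierTransform.fourier_fourierInv_eq]
    rfl
  obtain ⟨C, hC, h⟩ := czk κ N j.pos
  refine ⟨C + 1, by positivity, KK κ, fun L k hk z hz => (h L k hk z hz).trans ?_,
    fun L ξ => ?_, fun ξ hξ => ?_⟩
  · exact div_le_div_of_nonneg_right (by linarith) (by positivity)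
  · rw [four_KK j κ hκ, norm_mul, Complex.norm_real, Real.norm_eq_abs]
    have h1 : |bp n (bb L 0 • ξ) - bp n (bb L (2 * L) • ξ)| ≤ 1 := by
      have := (bp n).nonneg (x := bb L 0 • ξ)
      have := (bp n).nonneg (x := bb L (2 * L) • ξ)
      have := (bp n).le_one (x := bb L 0 • ξ)
      have := (bp n).le_one (x := bb L (2 * L) • ξ)
      rw [abs_le]
      constructor <;> linarith
    exact (mul_le_one₀ (rs_le j ξ) (abs_nonneg _) h1).trans (by linarith)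
  · have hu := norm_pos_iff.2 hξ
    have ht : Tendsto (fun L : ℕ => (2 : ℝ) ^ L) atTop atTop :=
      tendsto_pow_atTop_atTop_of_one_lt one_lt_two
    refine tendsto_const_nhds.congr' ?_
    filter_upwards [ht.eventually_ge_atTop ‖ξ‖, ht.eventually_ge_atTop (2 / ‖ξ‖)] with L h1 h2
    have h3 : (0 : ℝ) < 2 ^ L := by positivity
    have e0 : bb L 0 = (2 ^ L)⁻¹ := by rw [bb, pow_zero, one_div]
    have e1 : bb L (2 * L) = 2 ^ L := by
      rw [bb, two_mul, pow_add, mul_div_cancel_right₀ _ h3.ne']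
    rw [four_KK j κ hκ, (bp n).one_of_mem_closedBall (mem_closedBall_zero_iff.2 (by
        change _ ≤ (1 : ℝ)
        rw [e0, norm_smul, Real.norm_of_nonneg (by positivity), inv_mul_le_iff₀ h3, mul_one]
        exact h1)),
      (bp n).zero_of_le_dist (by
        change (2 : ℝ) ≤ _
        rw [dist_zero_right, e1, norm_smul, Real.norm_of_nonneg h3.le]
        exact (div_le_iff₀ hu).1 h2)]
    simp

end Pool.Agent.HP
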