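import Pool.Agent.Lib.HP.Defs

set_option autoImplicit false

open MeasureTheory Complex Real Filter Topology
open scoped ENNReal ContDiff SchwartzMap FourierTransform

noncomputable section

namespace Pool.Agent.HP

theorem st_L2B (hHAT : St_HAT) (hPAR : St_PAR) : St_L2B := by
  intro n K B hB u hu
  obtain ⟨h1, h2, h3, -, -⟩ := hHAT n
  obtain ⟨g, hg⟩ := h1 u hu
  have hK : MemLp (𝓕 (K : E n → ℂ)) 2 volume := by
    rw [← SchwartzMap.fourier_coe]
    exact (𝓕 K).memLp 2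
  have hi : Integrable (fun ξ => 𝓕 (K : E n → ℂ) ξ * g ξ) := hK.integrable_mul hg.2.1
  have hle : ∀ᵐ ξ, ‖𝓕 (K : E n → ℂ) ξ * g ξ‖ ≤ B * ‖g ξ‖ := ae_of_all _ fun ξ => by
    rw [norm_mul]
    exact mul_le_mul_of_nonneg_right (hB ξ) (norm_nonneg _)
  have hm : MemLp (fun ξ => 𝓕 (K : E n → ℂ) ξ * g ξ) 2 volume :=
    hg.2.1.of_le_mul hi.aestronglyMeasurable hle
  have he : cv K u = 𝓕⁻ (fun ξ => 𝓕 (K : E n → ℂ) ξ * g ξ) := funext fun x => by
    have h := (hPAR n K 1 one_pos).1 u g hg x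
    simpa [conv, T, cv] using h
  rw [he]
  refine ⟨?_, ?_⟩
  · have hc : Continuous (𝓕 fun ξ => 𝓕 (K : E n → ℂ) ξ * g ξ) :=
      VectorFourier.fourierIntegral_continuous Real.continuous_fourierChar
        (innerSL ℝ).continuous₂ hi
    have h : 𝓕⁻ (fun ξ => 𝓕 (K : E n → ℂ) ξ * g ξ) =
        fun x => 𝓕 (fun ξ => 𝓕 (K : E n → ℂ) ξ * g ξ) (-x) :=
      funext fun x => Real.fourierInv_eq_fourier_neg _ x
    rw [h]
    exact hc.comp continuous_neg
  · rw [h2 _ _ (h3 _ hi hm), h2 u g hg]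
    exact eLpNorm_le_mul_eLpNorm_of_ae_le_mul hle 2

end Pool.Agent.HP
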