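import Pool.Agent.Lib.HP.Defs

set_option autoImplicit false

open MeasureTheory Complex Real Filter Topology
open scoped ENNReal ContDiff SchwartzMap FourierTransform

noncomputable section

namespace Pool.Agent.HP

theorem st_L2C (hHAT : St_HAT) : St_L2C := by
  intro n h g m mk B hg hh hmk hB hlim
  obtain ⟨-, h2, h3, -, h5⟩ := hHAT n
  have hmg : ∀ k, MemLp (fun ξ => mk k ξ * g ξ) 2 := fun k => by
    refine (hg.const_mul (B : ℂ)).of_le ((hmk k).1.mul hg.1) (ae_of_all _ fun ξ => ?_)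
    rw [norm_mul, norm_mul, Complex.norm_real]
    exact mul_le_mul_of_nonneg_right ((hB k ξ).trans (le_abs_self _)) (norm_nonneg _)
  have he : ∀ k, eLpNorm (fun x => 𝓕⁻ (fun ξ => mk k ξ * g ξ) x - h x) 2 volume =
      eLpNorm (fun ξ => mk k ξ * g ξ - m ξ * g ξ) 2 volume := fun k =>
    h2 _ _ (h5 _ _ _ _ (h3 _ ((hmk k).integrable_mul hg) (hmg k)) hh)
  simp only [he]
  have hmB : ∀ᵐ ξ, ‖m ξ‖ ≤ B := by
    filter_upwards [hlim] with ξ hξ
    exact le_of_tendsto' hξ.norm fun k => hB k ξ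
  have hI : Tendsto (fun k => ∫⁻ ξ, ‖mk k ξ * g ξ - m ξ * g ξ‖ₑ ^ (2 : ℝ)) atTop
      (𝓝 (∫⁻ _ : E n, (0 : ℝ≥0∞))) := by
    refine tendsto_lintegral_of_dominated_convergence'
      (fun ξ => ‖((2 * B : ℝ) : ℂ) * g ξ‖ₑ ^ (2 : ℝ)) (fun k => ?_) (fun k => ?_) ?_ ?_
    · exact (((hmg k).1.sub hh.2.1.1).enorm).pow_const _
    · filter_upwards [hmB] with ξ hξ
      refine ENNReal.rpow_le_rpow ?_ (by norm_num)
      rw [← ofReal_norm, ← ofReal_norm]
      refine ENNReal.ofReal_le_ofReal ?_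
      rw [← sub_mul, norm_mul, norm_mul, Complex.norm_real]
      refine mul_le_mul_of_nonneg_right ?_ (norm_nonneg _)
      have h1 := norm_sub_le (mk k ξ) (m ξ)
      have h2 := hB k ξ
      exact (by linarith : ‖mk k ξ - m ξ‖ ≤ 2 * B).trans (le_abs_self _)
    · have h1 := (hg.const_mul ((2 * B : ℝ) : ℂ)).2
      have h2 := lintegral_rpow_enorm_lt_top_of_eLpNorm_lt_top (by norm_num) (by norm_num) h1
      simpa using h2.ne
    · filter_upwards [hlim] with ξ hξ
      have h1 : Tendsto (fun k => mk k ξ * g ξ - m ξ * g ξ) atTop (𝓝 0) := by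
        have := (hξ.mul_const (g ξ)).sub_const (m ξ * g ξ)
        rwa [sub_self] at this
      have h2 := (ENNReal.continuous_rpow_const (y := (2 : ℝ))).tendsto _ |>.comp h1.enorm
      simpa [Function.comp_def] using h2
  rw [lintegral_zero] at hI
  have h6 := (ENNReal.continuous_rpow_const (y := (1 / 2 : ℝ))).tendsto _ |>.comp hI
  have e0 : (0 : ℝ≥0∞) ^ (1 / 2 : ℝ) = 0 := ENNReal.zero_rpow_of_pos (by norm_num)
  rw [e0] at h6
  refine h6.congr fun k => ?_
  rw [eLpNorm_eq_lintegral_rpow_enorm_toReal (by norm_num) (by norm_num)]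
  simp

end Pool.Agent.HP
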