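import Pool.Agent.Lib.HP.Defs

/-! Layer cake step: a good-lambda type inequality gives an `L^p` bound. -/

namespace Pool.Agent.HP

open MeasureTheory Set
open scoped ENNReal

namespace LAY

theorem low {p : ℝ} (hp : 0 < p) {b : ℝ} (hb : 0 ≤ b) :
    ∫⁻ l in Ioo (0 : ℝ) b, ENNReal.ofReal (p * l ^ (p - 1)) = ENNReal.ofReal (b ^ p) := by
  have hi : IntervalIntegrable (fun l : ℝ => p * l ^ (p - 1)) volume 0 b :=
    (intervalIntegral.intervalIntegrable_rpow' (by linarith)).const_mul p
  have hi2 : IntegrableOn (fun l : ℝ => p * l ^ (p - 1)) (Ioo 0 b) :=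
    ((intervalIntegrable_iff_integrableOn_Ioc_of_le hb).1 hi).mono_set Ioo_subset_Ioc_self
  rw [← ofReal_integral_eq_lintegral_ofReal hi2]
  · rw [← integral_Ioc_eq_integral_Ioo, ← intervalIntegral.integral_of_le hb,
      intervalIntegral.integral_const_mul, integral_rpow (Or.inl (by linarith))]
    congr 1
    rw [sub_add_cancel, Real.zero_rpow hp.ne']
    field_simp
    ring
  · refine (ae_restrict_iff' measurableSet_Ioo).2 (Filter.Eventually.of_forall fun l hl => ?_)
    exact mul_nonneg hp.le (Real.rpow_nonneg hl.1.le _)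

theorem fin {p c : ℝ} (hp : 0 < p) (hc : 0 < c) {b : ℝ} (hb : 0 ≤ b) :
    ∫⁻ l in Ioi (0 : ℝ), (if ENNReal.ofReal (c * l) < ENNReal.ofReal b
      then ENNReal.ofReal (p * l ^ (p - 1)) else 0) = ENNReal.ofReal ((b / c) ^ p) := by
  rw [← low hp (div_nonneg hb hc.le), ← lintegral_indicator measurableSet_Ioi,
    ← lintegral_indicator measurableSet_Ioo]
  refine lintegral_congr fun l => ?_
  by_cases hl : 0 < l
  · have h1 : ENNReal.ofReal (c * l) < ENNReal.ofReal b ↔ l < b / c := by
      rw [ENNReal.ofReal_lt_ofReal_iff_of_nonneg (by positivity), lt_div_iff₀ hc, mul_comm]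
    by_cases h : l < b / c
    · rw [indicator_of_mem (mem_Ioi.2 hl), indicator_of_mem (mem_Ioo.2 ⟨hl, h⟩), if_pos (h1.2 h)]
    · rw [indicator_of_mem (mem_Ioi.2 hl), indicator_of_notMem (fun hh => h hh.2),
        if_neg (fun hh => h (h1.1 hh))]
  · rw [indicator_of_notMem (s := Ioi 0) hl,
      indicator_of_notMem (s := Ioo 0 (b / c)) (fun hh => hl hh.1)]

theorem up1 {p : ℝ} (hp : 0 < p) (a : ℝ≥0∞) :
    ∫⁻ l in Ioi (0 : ℝ), (if ENNReal.ofReal l < a then ENNReal.ofReal (p * l ^ (p - 1)) else 0)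
      ≤ a ^ p := by
  by_cases ha : a = ⊤
  · rw [ha, ENNReal.top_rpow_of_pos hp]; exact le_top
  · have h := fin hp one_pos (ENNReal.toReal_nonneg (a := a))
    simp only [one_mul, div_one, ENNReal.ofReal_toReal ha] at h
    rw [h, ← ENNReal.ofReal_rpow_of_nonneg ENNReal.toReal_nonneg hp.le, ENNReal.ofReal_toReal ha]

theorem lo1 {p c : ℝ} (hp : 0 < p) (hc : 0 < c) (a : ℝ≥0∞) :
    a ^ p ≤ ENNReal.ofReal (c ^ p) * ∫⁻ l in Ioi (0 : ℝ),
      (if ENNReal.ofReal (c * l) < a then ENNReal.ofReal (p * l ^ (p - 1)) else 0) := by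
  have key : ∀ b : ℝ, 0 ≤ b → ENNReal.ofReal b ≤ a → ENNReal.ofReal b ^ p
      ≤ ENNReal.ofReal (c ^ p) * ∫⁻ l in Ioi (0 : ℝ),
        (if ENNReal.ofReal (c * l) < a then ENNReal.ofReal (p * l ^ (p - 1)) else 0) := by
    intro b hb hba
    have h1 : ENNReal.ofReal b ^ p = ENNReal.ofReal (c ^ p) * ENNReal.ofReal ((b / c) ^ p) := by
      rw [← ENNReal.ofReal_mul (by positivity), ← Real.mul_rpow hc.le (div_nonneg hb hc.le),
        mul_div_cancel₀ _ hc.ne', ENNReal.ofReal_rpow_of_nonneg hb hp.le]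
    rw [h1, ← fin hp hc hb]
    refine mul_le_mul_right (lintegral_mono fun l => ?_) _
    split_ifs with h2 h3
    · exact le_rfl
    · exact absurd (h2.trans_le hba) h3
    · exact zero_le
    · exact le_rfl
  by_cases ha : a = ⊤
  · rw [ha, ENNReal.top_rpow_of_pos hp, top_le_iff]
    refine ENNReal.eq_top_of_forall_nnreal_le fun r => ?_
    have h := key ((r : ℝ) ^ (1 / p)) (by positivity) (ha ▸ le_top)
    rw [ENNReal.ofReal_rpow_of_nonneg (by positivity) hp.le, ← Real.rpow_mul r.coe_nonneg,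
      one_div_mul_cancel hp.ne', Real.rpow_one, ENNReal.ofReal_coe_nnreal, ha] at h
    exact h
  · have h := key a.toReal ENNReal.toReal_nonneg (ENNReal.ofReal_toReal ha).le
    rwa [ENNReal.ofReal_toReal ha] at h

theorem up2 {p c : ℝ} (hp : 0 < p) (hp2 : p < 2) (hc : 0 < c) (a : ℝ≥0∞) :
    ∫⁻ l in Ioi (0 : ℝ), (if a ≤ ENNReal.ofReal l then ENNReal.ofReal (p * l ^ (p - 1))
      * (ENNReal.ofReal (c / l ^ 2) * a ^ (2 : ℝ)) else 0)
      ≤ ENNReal.ofReal (c * p / (2 - p)) * a ^ p := by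
  by_cases ha : a = ⊤
  · simp [ha]
  by_cases h0 : a = 0
  · simp [h0]
  obtain ⟨b, hb, rfl⟩ : ∃ b : ℝ, 0 < b ∧ a = ENNReal.ofReal b :=
    ⟨a.toReal, ENNReal.toReal_pos h0 ha, (ENNReal.ofReal_toReal ha).symm⟩
  have hi : IntegrableOn (fun l : ℝ => c * p * b ^ (2 : ℝ) * l ^ (p - 3)) (Ici b) :=
    (integrableOn_Ici_iff_integrableOn_Ioi (by finiteness)).2
      ((integrableOn_Ioi_rpow_of_lt (by linarith) hb).const_mul _)
  have h1 : ∫⁻ l in Ici b, ENNReal.ofReal (c * p * b ^ (2 : ℝ) * l ^ (p - 3))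
      = ENNReal.ofReal (c * p / (2 - p)) * ENNReal.ofReal b ^ p := by
    rw [← ofReal_integral_eq_lintegral_ofReal hi]
    · rw [integral_Ici_eq_integral_Ioi, integral_const_mul,
        integral_Ioi_rpow_of_lt (by linarith) hb, ENNReal.ofReal_rpow_of_nonneg hb.le hp.le,
        ← ENNReal.ofReal_mul (div_nonneg (by positivity) (by linarith))]
      congr 1
      have h2 : b ^ p = b ^ (2 : ℝ) * b ^ (p - 3 + 1) := by
        rw [← Real.rpow_add hb]; congr 1; ring
      have h3 : p - 3 + 1 ≠ 0 := by linarith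
      have h4 : 2 - p ≠ 0 := by linarith
      rw [h2]
      field_simp
      ring
    · refine (ae_restrict_iff' measurableSet_Ici).2 (Filter.Eventually.of_forall fun l hl => ?_)
      have : 0 < l := hb.trans_le hl
      positivity
  rw [← h1, ← lintegral_indicator measurableSet_Ioi, ← lintegral_indicator measurableSet_Ici]
  refine lintegral_mono fun l => ?_
  by_cases hl : 0 < l
  · rw [indicator_of_mem (mem_Ioi.2 hl)]
    split_ifs with h
    · have hbl : b ≤ l := (ENNReal.ofReal_le_ofReal_iff hl.le).1 h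
      rw [indicator_of_mem (mem_Ici.2 hbl), ENNReal.ofReal_rpow_of_nonneg hb.le (by norm_num),
        ← ENNReal.ofReal_mul (by positivity), ← ENNReal.ofReal_mul (by positivity)]
      refine le_of_eq ?_
      congr 1
      have h2 : l ^ (p - 1) = l ^ (p - 3) * l ^ 2 := by
        rw [← Real.rpow_natCast, ← Real.rpow_add hl]; congr 1; push_cast; ring
      rw [h2]
      field_simp
    · exact zero_le
  · rw [indicator_of_notMem (s := Ioi 0) hl]
    exact zero_le

end LAY

theorem st_LAY : St_LAY := by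
  intro n p C hp hp2 hC
  have hk : 0 ≤ C * p / (2 - p) := div_nonneg (by positivity) (by linarith)
  refine ⟨C ^ p * (C + C * p / (2 - p)), by positivity, fun u H hu hH h => ?_⟩
  by_cases hT : ∫⁻ x, H x ^ p = ⊤
  · rw [hT, ENNReal.mul_top]
    · exact le_top
    · have : 0 < C ^ p * (C + C * p / (2 - p)) := by positivity
      simpa using this
  have hw : Measurable fun l : ℝ => ENNReal.ofReal (p * l ^ (p - 1)) := by fun_prop
  have hfin : ∀ l : ℝ, 0 < l → volume {x | ENNReal.ofReal l < H x} ≠ ⊤ := by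
    intro l hl
    have h1 := meas_ge_le_lintegral_div (μ := volume) (f := fun x => H x ^ p)
      (hH.pow_const p).aemeasurable (ε := ENNReal.ofReal l ^ p)
      (ENNReal.rpow_pos (by simpa using hl) ENNReal.ofReal_ne_top).ne'
      (ENNReal.rpow_ne_top_of_nonneg hp.le ENNReal.ofReal_ne_top)
    refine ne_top_of_le_ne_top (ENNReal.div_ne_top hT
      (ENNReal.rpow_pos (by simpa using hl) ENNReal.ofReal_ne_top).ne')
      ((measure_mono fun x hx => ?_).trans h1)
    exact ENNReal.rpow_le_rpow (le_of_lt hx) hp.le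
  have lev : ∀ (g : E n → ℝ≥0∞) (c : ℝ), Measurable g →
      ∫⁻ x, ∫⁻ l in Ioi (0 : ℝ), (if ENNReal.ofReal (c * l) < g x
        then ENNReal.ofReal (p * l ^ (p - 1)) else 0)
      = ∫⁻ l in Ioi (0 : ℝ), ENNReal.ofReal (p * l ^ (p - 1))
        * volume {x | ENNReal.ofReal (c * l) < g x} := by
    intro g c hg
    rw [lintegral_lintegral_swap]
    · refine lintegral_congr fun l => ?_
      have hm : MeasurableSet {x | ENNReal.ofReal (c * l) < g x} :=
        measurableSet_lt measurable_const hg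
      rw [← setLIntegral_const, ← lintegral_indicator hm]
      exact lintegral_congr fun x => by simp [indicator]
    · refine Measurable.aemeasurable (Measurable.ite ?_ (hw.comp measurable_snd) measurable_const)
      exact measurableSet_lt (by fun_prop) (hg.comp measurable_fst)
  have lev2 : ∫⁻ x, ∫⁻ l in Ioi (0 : ℝ), (if H x ≤ ENNReal.ofReal l
        then ENNReal.ofReal (p * l ^ (p - 1)) * (ENNReal.ofReal (C / l ^ 2) * H x ^ (2 : ℝ))
        else 0)
      = ∫⁻ l in Ioi (0 : ℝ), ENNReal.ofReal (p * l ^ (p - 1)) * (ENNReal.ofReal (C / l ^ 2)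
        * ∫⁻ x in {x | H x ≤ ENNReal.ofReal l}, H x ^ (2 : ℝ)) := by
    rw [lintegral_lintegral_swap]
    · refine lintegral_congr fun l => ?_
      have hm : MeasurableSet {x | H x ≤ ENNReal.ofReal l} := measurableSet_le hH measurable_const
      rw [← lintegral_const_mul _ (hH.pow_const _),
        ← lintegral_const_mul _ ((hH.pow_const _).const_mul _), ← lintegral_indicator hm]
      exact lintegral_congr fun x => by simp [indicator]
    · refine Measurable.aemeasurable (Measurable.ite ?_ ((hw.comp measurable_snd).mul ?_)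
        measurable_const)
      · exact measurableSet_le (hH.comp measurable_fst) (by fun_prop)
      · exact Measurable.mul (by fun_prop) ((hH.comp measurable_fst).pow_const _)
  have hm1 : Measurable fun l : ℝ => ENNReal.ofReal (p * l ^ (p - 1))
      * volume {x | ENNReal.ofReal l < H x} :=
    hw.mul (Antitone.measurable fun a b hab => measure_mono fun x hx =>
      lt_of_le_of_lt (ENNReal.ofReal_le_ofReal hab) hx)
  have l1 := lev H 1 hH
  simp only [one_mul] at l1
  calc ∫⁻ x, u x ^ p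
      ≤ ∫⁻ x, ENNReal.ofReal (C ^ p) * ∫⁻ l in Ioi (0 : ℝ), (if ENNReal.ofReal (C * l) < u x
        then ENNReal.ofReal (p * l ^ (p - 1)) else 0) := lintegral_mono fun x => LAY.lo1 hp hC _
    _ = ENNReal.ofReal (C ^ p) * ∫⁻ l in Ioi (0 : ℝ), ENNReal.ofReal (p * l ^ (p - 1))
        * volume {x | ENNReal.ofReal (C * l) < u x} := by
      rw [lintegral_const_mul' _ _ ENNReal.ofReal_ne_top, lev u C hu]
    _ ≤ ENNReal.ofReal (C ^ p) * ∫⁻ l in Ioi (0 : ℝ), (ENNReal.ofReal C
        * (ENNReal.ofReal (p * l ^ (p - 1)) * volume {x | ENNReal.ofReal l < H x})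
        + ENNReal.ofReal (p * l ^ (p - 1)) * (ENNReal.ofReal (C / l ^ 2)
          * ∫⁻ x in {x | H x ≤ ENNReal.ofReal l}, H x ^ (2 : ℝ))) := by
      refine mul_le_mul_right (setLIntegral_mono' measurableSet_Ioi fun l hl => ?_) _
      refine (mul_le_mul_right (h l hl (hfin l hl)) _).trans (le_of_eq ?_)
      ring
    _ ≤ ENNReal.ofReal (C ^ p) * (ENNReal.ofReal C * (∫⁻ x, H x ^ p)
        + ENNReal.ofReal (C * p / (2 - p)) * ∫⁻ x, H x ^ p) := by
      refine mul_le_mul_right ?_ _
      rw [lintegral_add_left (hm1.const_mul _), lintegral_const_mul _ hm1, ← l1, ← lev2]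
      refine add_le_add (mul_le_mul_right (lintegral_mono fun x => LAY.up1 hp _) _) ?_
      rw [← lintegral_const_mul _ (hH.pow_const _)]
      exact lintegral_mono fun x => LAY.up2 hp hp2 hC _
    _ = _ := by
      rw [← add_mul, ← mul_assoc, ← ENNReal.ofReal_add hC.le hk,
        ← ENNReal.ofReal_mul (by positivity)]

end Pool.Agent.HP
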