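import Pool.Agent.Lib.HP.Defs

set_option autoImplicit false

open Filter Topology
open scoped ContDiff

noncomputable section

namespace Pool.Agent.HP

namespace LOC

variable {n : ℕ}

/-- scaled bounds for the derivatives at one point -/
def P (N : ℕ) (r B : ℝ) (f : E n → ℂ) (z : E n) : Prop :=
  ∀ k ≤ N, ‖iteratedFDeriv ℝ k f z‖ ≤ B / r ^ k

theorem le_top' (k : ℕ) : (k : WithTop ℕ∞) ≤ ∞ := by exact_mod_cast le_top

theorem P.mul {N : ℕ} {r B B' : ℝ} {f g : E n → ℂ} {z : E n} (hr : 0 < r) (hB : 0 ≤ B)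
    (hB' : 0 ≤ B') (hf : ContDiff ℝ ∞ f) (hg : ContDiff ℝ ∞ g) (h : P N r B f z)
    (h' : P N r B' g z) : P N r (2 ^ N * (B * B')) (fun y => f y * g y) z := by
  intro k hk
  refine (norm_iteratedFDeriv_mul_le hf hg z (le_top' k)).trans ?_
  have h1 : ∀ i ∈ Finset.range (k + 1), (k.choose i : ℝ) * ‖iteratedFDeriv ℝ i f z‖ *
      ‖iteratedFDeriv ℝ (k - i) g z‖ ≤ (k.choose i : ℝ) * (B * B' / r ^ k) := by
    intro i hi
    have hi' : i ≤ k := Nat.lt_succ_iff.1 (Finset.mem_range.1 hi)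
    rw [mul_assoc]
    refine mul_le_mul_of_nonneg_left ?_ (Nat.cast_nonneg _)
    calc _ ≤ B / r ^ i * (B' / r ^ (k - i)) :=
          mul_le_mul (h i (hi'.trans hk)) (h' _ ((Nat.sub_le k i).trans hk)) (norm_nonneg _)
            (by positivity)
      _ = B * B' / r ^ k := by rw [div_mul_div_comm, ← pow_add, Nat.add_sub_cancel' hi']
  refine (Finset.sum_le_sum h1).trans ?_
  rw [← Finset.sum_mul, ← Nat.cast_sum, Nat.sum_range_choose, mul_div_assoc ((2 : ℝ) ^ N)]
  refine mul_le_mul_of_nonneg_right ?_ (by positivity)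
  push_cast
  exact pow_le_pow_right₀ one_le_two hk

theorem P.const_mul {N : ℕ} {r B : ℝ} {f : E n → ℂ} {z : E n} (c : ℝ) (hc : 0 ≤ c)
    (hf : ContDiff ℝ ∞ f) (h : P N r B f z) : P N r (c * B) (fun y => (c : ℂ) * f y) z := by
  intro k hk
  have h1 : (fun y => (c : ℂ) * f y) = fun y => c • f y := by
    ext y
    rw [Complex.real_smul]
  rw [h1, iteratedFDeriv_const_smul_apply' (hf.of_le (le_top' k)).contDiffAt, norm_smul,
    Real.norm_of_nonneg hc, mul_div_assoc]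
  exact mul_le_mul_of_nonneg_left (h k hk) hc

theorem bound {η : E n → ℂ} (h : ContDiff ℝ ∞ η) (h0 : ∀ z, 1 < ‖z‖ → η z = 0) (N : ℕ) :
    ∃ M : ℝ, 0 ≤ M ∧ ∀ k ≤ N, ∀ z, ‖iteratedFDeriv ℝ k η z‖ ≤ M := by
  have hc : HasCompactSupport η := HasCompactSupport.intro (isCompact_closedBall 0 1)
    fun z hz => h0 z (by simpa using hz)
  choose M hM using fun k : ℕ => (h.continuous_iteratedFDeriv (le_top' k)).bounded_above_of_compact_support
    (hc.iteratedFDeriv k)
  have h1 : ∀ k, 0 ≤ M k := fun k => (norm_nonneg _).trans (hM k 0)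
  exact ⟨∑ k ∈ Finset.range (N + 1), M k, Finset.sum_nonneg fun k _ => h1 k, fun k hk z =>
    (hM k z).trans (Finset.single_le_sum (fun k _ => h1 k)
      (Finset.mem_range.2 (Nat.lt_succ_of_le hk)))⟩

theorem scale {η : E n → ℂ} (h : ContDiff ℝ ∞ η) {N : ℕ} {M r : ℝ} (hr : 0 < r)
    (hM : ∀ k ≤ N, ∀ z, ‖iteratedFDeriv ℝ k η z‖ ≤ M) (w z : E n) :
    P N r M (fun y => η (r⁻¹ • (y - w))) z := by
  intro k hk
  rw [iteratedFDeriv_comp_sub (f := fun y => η (r⁻¹ • y)) k w z,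
    iteratedFDeriv_comp_const_smul r⁻¹ (h.of_le (le_top' k)), norm_smul, norm_pow,
    Real.norm_of_nonneg (inv_nonneg.2 hr.le), inv_pow, ← div_eq_inv_mul]
  exact div_le_div_of_nonneg_right (hM k hk _) (by positivity)

end LOC

theorem st_LOC : St_LOC := by
  intro n N η hη h0 B hB
  obtain ⟨M, hM0, hM⟩ := LOC.bound hη h0 N
  refine ⟨2 ^ N * (2 ^ N * (B * M)) * 12 ^ (n + N) + 1, by positivity, ?_⟩
  intro θ G w x₀ r L hr hL hw hθ hG hθ' hG'
  generalize hC : 2 ^ N * (2 ^ N * (B * M)) * 12 ^ (n + N) + 1 = C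
  have hC0 : 0 < C := by rw [← hC]; positivity
  have hη' : ContDiff ℝ ∞ fun z : E n => η (r⁻¹ • (z - w)) :=
    hη.comp ((contDiff_id.sub contDiff_const).const_smul _)
  have h1 : ContDiff ℝ ∞ fun z : E n => (((r ^ n)⁻¹ : ℝ) : ℂ) * η (r⁻¹ • (z - w)) :=
    contDiff_const.mul hη'
  have hz : ∀ z : E n, r < ‖z - w‖ → η (r⁻¹ • (z - w)) = 0 := fun z hz => h0 _ (by
    rw [norm_smul, Real.norm_of_nonneg (inv_nonneg.2 hr.le), ← div_eq_inv_mul]
    exact (one_lt_div hr).2 hz)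
  refine ⟨contDiff_const.mul ((hθ.mul h1).mul hG), fun z h => ?_, fun k hk z => ?_⟩
  · have h2 := norm_sub_le_norm_sub_add_norm_sub z w x₀
    simp [hz z (by linarith)]
  · rcases le_or_gt ‖z - w‖ r with h | h
    · have h2 := (((LOC.P.mul hr hB (by positivity) hθ h1 (fun k hk => hθ' k hk z)
        ((LOC.scale hη hr hM w z).const_mul (r ^ n)⁻¹ (by positivity) hη')).mul hr
          (by positivity) hL.le (hθ.mul h1) hG fun k hk => hG' k hk z h).const_mul (C * L)⁻¹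
            (by positivity) ((hθ.mul h1).mul hG)) k hk
      refine h2.trans ?_
      have h3 : 2 ^ N * (2 ^ N * (B * M)) * 12 ^ (n + k) ≤ C := by
        have : (12 : ℝ) ^ (n + k) ≤ 12 ^ (n + N) := pow_le_pow_right₀ (by norm_num) (by omega)
        have h4 := mul_le_mul_of_nonneg_left this
          (show (0 : ℝ) ≤ 2 ^ N * (2 ^ N * (B * M)) by positivity)
        linarith
      calc _ = 2 ^ N * (2 ^ N * (B * M)) * 12 ^ (n + k) / C * ((12 * r) ^ (n + k))⁻¹ := by
            rw [mul_pow, pow_add r]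
            field_simp
        _ ≤ 1 * ((12 * r) ^ (n + k))⁻¹ :=
            mul_le_mul_of_nonneg_right ((div_le_one hC0).2 h3) (by positivity)
        _ = _ := one_mul _
    · have h2 : (fun z => (((C * L)⁻¹ : ℝ) : ℂ) *
          (θ z * ((((r ^ n)⁻¹ : ℝ) : ℂ) * η (r⁻¹ • (z - w))) * G z)) =ᶠ[𝓝 z] fun _ => 0 := by
        have h3 : ∀ᶠ y in 𝓝 z, r < ‖y - w‖ :=
          (continuous_id.sub continuous_const).norm.continuousAt.eventually (lt_mem_nhds h)
        exact h3.mono fun y hy => by simp [hz y hy]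
      rw [(h2.iteratedFDeriv ℝ k).eq_of_nhds, iteratedFDeriv_fun_zero, Pi.zero_apply, norm_zero]
      positivity

end Pool.Agent.HP
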