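import Pool.Agent.Lib.HP.Defs

set_option autoImplicit false

open MeasureTheory Complex Real Filter Topology
open scoped ENNReal ContDiff SchwartzMap FourierTransform

noncomputable section

namespace Pool.Agent.HP

namespace LOW

lemma lint_eq {n : ℕ} {W : Type} [ENorm W] {p : ℝ} (hp : 0 < p) (u : E n → W) :
    ∫⁻ x, ‖u x‖ₑ ^ p = eLpNorm u (ENNReal.ofReal p) volume ^ p := by
  rw [eLpNorm_eq_lintegral_rpow_enorm_toReal (by simpa using hp) ENNReal.ofReal_ne_top,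
    ENNReal.toReal_ofReal hp.le, ← ENNReal.rpow_mul, one_div, inv_mul_cancel₀ hp.ne',
    ENNReal.rpow_one]

lemma sum_le {n : ℕ} {ι : Type} [Fintype ι] {p q : ℝ} (hq : 0 < q) (hp : q < p)
    (u : ι → E n → ℂ) (hu : ∀ i, AEStronglyMeasurable (u i) volume) :
    ∫⁻ x, (∑ i, ‖u i x‖ₑ ^ q) ^ (p / q) ≤
      (Fintype.card ι : ℝ≥0∞) ^ (p / q - 1) * Fintype.card ι *
        (∑ i, eLpNorm (u i) (ENNReal.ofReal p) volume) ^ p := by
  have h1 : 1 ≤ p / q := ((one_lt_div hq).2 hp).le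
  have h0 : 0 < p := hq.trans hp
  calc ∫⁻ x, (∑ i, ‖u i x‖ₑ ^ q) ^ (p / q)
      ≤ ∫⁻ x, (Fintype.card ι : ℝ≥0∞) ^ (p / q - 1) * ∑ i, ‖u i x‖ₑ ^ p := by
        refine lintegral_mono fun x => ?_
        refine (ENNReal.rpow_sum_le_const_mul_sum_rpow _ _ h1).trans_eq ?_
        simp only [← ENNReal.rpow_mul, mul_div_cancel₀ p hq.ne', Finset.card_univ]
    _ = (Fintype.card ι : ℝ≥0∞) ^ (p / q - 1) * ∑ i, ∫⁻ x, ‖u i x‖ₑ ^ p := by
        rw [lintegral_const_mul' _ _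
          (ENNReal.rpow_ne_top_of_nonneg (by linarith) (ENNReal.natCast_ne_top _)),
          lintegral_finsetSum' _ fun i _ => (hu i).enorm.pow_const p]
    _ ≤ _ := by
        rw [mul_assoc]
        refine mul_le_mul' le_rfl ?_
        rw [← nsmul_eq_mul, ← Finset.card_univ]
        refine Finset.sum_le_card_nsmul _ _ _ fun i _ => ?_
        rw [lint_eq h0]
        exact ENNReal.rpow_le_rpow (Finset.single_le_sum
          (f := fun i => eLpNorm (u i) (ENNReal.ofReal p) volume) (fun _ _ => zero_le)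
          (Finset.mem_univ i)) h0.le

end LOW

open LOW in
theorem st_LOW (hHAT : St_HAT) (hRSZ : St_RSZ) (hPHI : St_PHI) (hNTA : St_NTA) (hHL : St_HL) :
    St_LOW := by
  intro n hn hA
  obtain ⟨q, a, C, A, hq, hq', ha, hC, hA0, h⟩ := hNTA n hn hA
  refine ⟨q, hq, hq', fun p hp φ => ?_⟩
  have h0 : 0 < p := hq.trans hp
  have h1 : 1 < p / q := (one_lt_div hq).2 hp
  obtain ⟨C1, hC1, hH⟩ := hHL n hn a (p / q) ha h1
  obtain ⟨C2, hC2, hP⟩ := hPHI n φ A hA0
  obtain ⟨K, hK, hK'⟩ : ∃ K : ℝ≥0∞, K ≠ ⊤ ∧ K = ENNReal.ofReal C2 ^ p *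
      ENNReal.ofReal C ^ (p / q) * (ENNReal.ofReal C1 *
        ((Fintype.card (Option (Fin n)) : ℝ≥0∞) ^ (p / q - 1) * Fintype.card (Option (Fin n)))) :=
    ⟨_, ENNReal.mul_ne_top (ENNReal.mul_ne_top
      (ENNReal.rpow_ne_top_of_nonneg h0.le ENNReal.ofReal_ne_top)
      (ENNReal.rpow_ne_top_of_nonneg (by linarith) ENNReal.ofReal_ne_top))
      (ENNReal.mul_ne_top ENNReal.ofReal_ne_top (ENNReal.mul_ne_top
        (ENNReal.rpow_ne_top_of_nonneg (by linarith) (ENNReal.natCast_ne_top _))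
        (ENNReal.natCast_ne_top _))), rfl⟩
  have hK1 : K ^ (1 / p) ≠ ⊤ := ENNReal.rpow_ne_top_of_nonneg (by positivity) hK
  refine ⟨(K ^ (1 / p)).toReal + 1, by positivity, fun f hf R hR => ?_⟩
  obtain ⟨g, hg⟩ := (hHAT n).1 f hf
  have h2 := h f g R hg fun j => hRSZ n j f g (R j) hg (hR j)
  have h3 := sum_le (ι := Option (Fin n)) hq hp (fun o => o.elim f R) fun o => by
    rcases o with _ | j
    exacts [hf.1, (hR j).1.1]
  simp only [Fintype.sum_option, Option.elim_none, Option.elim_some] at h3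
  have h4 := hH (fun z => ‖f z‖ₑ ^ q + ∑ j, ‖R j z‖ₑ ^ q) ((hf.1.enorm.pow_const q).add
    (Finset.aemeasurable_fun_sum _ fun j _ => (hR j).1.1.enorm.pow_const q))
  have h5 : eLpNorm (Mx φ f) (ENNReal.ofReal p) volume ^ p ≤ K *
      (eLpNorm f (ENNReal.ofReal p) volume + ∑ j, eLpNorm (R j) (ENNReal.ofReal p) volume) ^ p := by
    rw [← lint_eq h0]
    calc ∫⁻ x, ‖Mx φ f x‖ₑ ^ p
        ≤ ∫⁻ x, ENNReal.ofReal C2 ^ p * ENNReal.ofReal C ^ (p / q) *
          KM a (fun z => ‖f z‖ₑ ^ q + ∑ j, ‖R j z‖ₑ ^ q) x ^ (p / q) := by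
          refine lintegral_mono_ae (h2.mono fun x hx => ?_)
          rw [enorm_eq_self, mul_assoc, ← ENNReal.mul_rpow_of_nonneg _ _ (by linarith)]
          refine (ENNReal.rpow_le_rpow (hP f g hg x) h0.le).trans ?_
          rw [ENNReal.mul_rpow_of_nonneg _ _ h0.le]
          refine mul_le_mul' le_rfl (le_trans (le_of_eq ?_) (ENNReal.rpow_le_rpow hx (by linarith)))
          rw [← ENNReal.rpow_mul, mul_div_cancel₀ p hq.ne']
      _ ≤ _ := by
          rw [lintegral_const_mul' _ _ (ENNReal.mul_ne_top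
            (ENNReal.rpow_ne_top_of_nonneg h0.le ENNReal.ofReal_ne_top)
            (ENNReal.rpow_ne_top_of_nonneg (by linarith) ENNReal.ofReal_ne_top)), hK',
            mul_assoc _ (_ * _), mul_assoc (ENNReal.ofReal C1)]
          exact mul_le_mul' le_rfl (h4.trans (mul_le_mul' le_rfl h3))
  have h6 := ENNReal.rpow_le_rpow h5 (show 0 ≤ 1 / p by positivity)
  rw [ENNReal.mul_rpow_of_nonneg _ _ (by positivity), ← ENNReal.rpow_mul, ← ENNReal.rpow_mul,
    mul_one_div_cancel h0.ne', ENNReal.rpow_one, ENNReal.rpow_one] at h6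
  refine h6.trans (mul_le_mul' ?_ le_rfl)
  rw [ENNReal.ofReal_add ENNReal.toReal_nonneg zero_le_one, ENNReal.ofReal_toReal hK1]
  exact le_self_add

end Pool.Agent.HP
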