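import Pool.Agent.Lib.HP.Util

set_option autoImplicit false

open MeasureTheory Complex Real Filter Topology
open scoped ENNReal ContDiff SchwartzMap FourierTransform

noncomputable section

namespace Pool.Agent.HP

namespace NTA

variable {n : ℕ}

theorem rpow_sum_le {ι : Type} (s : Finset ι) (u : ι → ℝ≥0∞) {q : ℝ} (h0 : 0 < q) (h1 : q ≤ 1) :
    (∑ i ∈ s, u i) ^ q ≤ ∑ i ∈ s, u i ^ q := by
  classical
  induction s using Finset.induction_on with
  | empty => simp [h0]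
  | insert a s ha ih =>
    rw [Finset.sum_insert ha, Finset.sum_insert ha]
    exact (ENNReal.rpow_add_le_add_rpow _ _ h0.le h1).trans (add_le_add_right ih _)

theorem norm_le_sum (v : V n) : ‖v‖ ≤ ∑ i, ‖v i‖ := by
  rw [EuclideanSpace.norm_eq]
  refine Real.sqrt_le_iff.2 ⟨Finset.sum_nonneg fun _ _ => norm_nonneg _, ?_⟩
  exact Finset.sum_sq_le_sq_sum_of_nonneg fun _ _ => norm_nonneg _

theorem ofReal_eq {W : Type} [NormedAddCommGroup W] (v : W) {q : ℝ} (h0 : 0 < q) :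
    ENNReal.ofReal (‖v‖ ^ q) = ‖v‖ₑ ^ q := by
  rw [← ENNReal.ofReal_rpow_of_nonneg (norm_nonneg _) h0.le, ofReal_norm]

/-- the field at a point against boundary data `h` -/
theorem field_le {L : ℂ →L[ℝ] ℝ} (hL : ∀ w, ‖L w‖ ≤ ‖w‖) (g : E n → ℂ) (X : Y n)
    (h : Option (Fin n) → ℂ) {q : ℝ} (h0 : 0 < q) (h1 : q ≤ 1) :
    ENNReal.ofReal (‖FU L g X‖ ^ q) ≤
      ∑ i, ‖h i‖ₑ ^ q + ∑ i, ‖T po (gs g i) X - h i‖ₑ ^ q := by
  have e : ‖FU L g X‖ₑ ≤ ∑ i, (‖h i‖ₑ + ‖T po (gs g i) X - h i‖ₑ) := by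
    have k : ‖FU L g X‖ ≤ ∑ i, (‖h i‖ + ‖T po (gs g i) X - h i‖) :=
      (norm_le_sum _).trans (Finset.sum_le_sum fun i _ =>
        (hL (T po (gs g i) X)).trans (norm_le_norm_add_norm_sub' _ _))
    rw [← ofReal_norm]
    refine (ENNReal.ofReal_le_ofReal k).trans (le_of_eq ?_)
    rw [ENNReal.ofReal_sum_of_nonneg fun i _ => by positivity]
    refine Finset.sum_congr rfl fun i _ => ?_
    rw [ENNReal.ofReal_add (norm_nonneg _) (norm_nonneg _), ofReal_norm,
      ofReal_norm]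
  rw [ofReal_eq _ h0, ← Finset.sum_add_distrib]
  refine (ENNReal.rpow_le_rpow e h0.le).trans ((rpow_sum_le _ _ h0 h1).trans ?_)
  exact Finset.sum_le_sum fun i _ => ENNReal.rpow_add_le_add_rpow _ _ h0.le h1

/-- the Poisson integral against the two real fields -/
theorem pois_le (g : E n → ℂ) (X : Y n) {q : ℝ} (h0 : 0 < q) (h1 : q ≤ 1) :
    ‖T po g X‖ₑ ^ q ≤
      ENNReal.ofReal (‖FU reCLM g X‖ ^ q) + ENNReal.ofReal (‖FU imCLM g X‖ ^ q) := by
  have k : ‖T po g X‖ ≤ ‖FU reCLM g X‖ + ‖FU imCLM g X‖ :=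
    (Complex.norm_le_abs_re_add_abs_im _).trans (add_le_add
      (PiLp.norm_apply_le (FU reCLM g X) none) (PiLp.norm_apply_le (FU imCLM g X) none))
  have e : ‖T po g X‖ₑ ≤ ‖FU reCLM g X‖ₑ + ‖FU imCLM g X‖ₑ := by
    rw [← ofReal_norm, ← ofReal_norm, ← ofReal_norm,
      ← ENNReal.ofReal_add (norm_nonneg _) (norm_nonneg _)]
    exact ENNReal.ofReal_le_ofReal k
  rw [ofReal_eq _ h0, ofReal_eq _ h0]
  exact (ENNReal.rpow_le_rpow e h0.le).trans (ENNReal.rpow_add_le_add_rpow _ _ h0.le h1)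

/-- maximal functions of a null sequence are frequently small almost everywhere -/
theorem freq_small (hHL : St_HL) (hn : 1 ≤ n) {a s : ℝ} (ha : (n : ℝ) < a) (hs : 1 < s)
    {D : ℕ → E n → ℝ≥0∞} (hD : ∀ k, AEMeasurable (D k) volume)
    (h0 : Tendsto (fun k => ∫⁻ z, D k z ^ s) atTop (𝓝 0)) :
    ∀ᵐ x, ∀ η : ℝ≥0∞, 0 < η → ∃ᶠ k in atTop, KM a (D k) x < η := by
  obtain ⟨C, -, hC⟩ := hHL n hn a s ha hs
  have ha0 : 0 ≤ a := (Nat.cast_nonneg n).trans ha.le
  have hm : ∀ k, Measurable fun x => KM a (D k) x ^ s := fun k =>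
    (measurable_KM ha0 _).pow_const s
  have h1 : Tendsto (fun k => ∫⁻ x, KM a (D k) x ^ s) atTop (𝓝 0) := by
    have h2 := ENNReal.Tendsto.const_mul (a := ENNReal.ofReal C) h0
      (Or.inr ENNReal.ofReal_ne_top)
    rw [mul_zero] at h2
    exact tendsto_of_tendsto_of_tendsto_of_le_of_le tendsto_const_nhds h2 (fun _ => zero_le)
      fun k => hC _ (hD k)
  have h3 := lintegral_liminf_le (μ := volume) (u := atTop) hm
  rw [h1.liminf_eq, nonpos_iff_eq_zero, lintegral_eq_zero_iff (Measurable.liminf hm)] at h3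
  filter_upwards [h3] with x hx η hη
  have h4 : liminf (fun k => KM a (D k) x ^ s) atTop < η ^ s := by
    rw [hx]
    exact ENNReal.rpow_pos_of_nonneg hη (by linarith)
  exact (frequently_lt_of_liminf_lt (h := h4)).mono fun k hk =>
    (ENNReal.rpow_lt_rpow_iff (by linarith)).1 hk

theorem le_of_freq {X c K : ℝ≥0∞} {d : ℕ → ℝ≥0∞} (hc : c ≠ ⊤)
    (hd : ∀ η : ℝ≥0∞, 0 < η → ∃ᶠ k in atTop, d k < η)
    (h : ∀ᶠ k in atTop, X ≤ c * (K + d k)) : X ≤ c * K := by
  refine ENNReal.le_of_forall_pos_le_add fun ε hε _ => ?_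
  obtain ⟨k, h1, h2⟩ := ((hd (ε / c) (ENNReal.div_pos (by simpa using hε.ne') hc)).and_eventually
    h).exists
  refine h2.trans ?_
  rw [mul_add]
  exact add_le_add_right ((mul_le_mul_right h1.le _).trans ENNReal.mul_div_le) _

theorem lint_sq {u : ℕ → E n → ℂ} (h : Tendsto (fun k => eLpNorm (u k) 2 volume) atTop (𝓝 0)) :
    Tendsto (fun k => ∫⁻ z, ‖u k z‖ₑ ^ (2 : ℝ)) atTop (𝓝 0) := by
  have h1 := ((ENNReal.continuous_rpow_const (y := 2)).tendsto 0).comp h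
  rw [ENNReal.zero_rpow_of_pos two_pos] at h1
  refine h1.congr fun k => ?_
  simp only [Function.comp]
  rw [eLpNorm_eq_lintegral_rpow_enorm_toReal two_ne_zero ENNReal.ofNat_ne_top,
    ← ENNReal.rpow_mul]
  simp

end NTA

theorem st_NTA (hHL : St_HL) (hL2C : St_L2C) (hCRU : St_CRU) : St_NTA := by
  intro n hn hA
  obtain ⟨q, q0, q1, a, C, A, ha, hC, hA0, H⟩ := hA
  have hn' : (1 : ℝ) ≤ n := by exact_mod_cast hn
  have q2 : q ≤ 1 := q1.le.trans (by rw [div_le_one (by linarith)]; linarith)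
  refine ⟨q, a, 2 * C * 2 ^ A, A / q, q0, q1, ha, by positivity, by positivity,
    fun f g R hf hR => ?_⟩
  obtain ⟨h, h1, h2⟩ : ∃ h : Option (Fin n) → E n → ℂ, (∀ i, IsHat (h i) (gs g i)) ∧
      ∀ z, ‖f z‖ₑ ^ q + ∑ j, ‖R j z‖ₑ ^ q = ∑ i, ‖h i z‖ₑ ^ q :=
    ⟨fun i => Option.casesOn i f R, fun i => Option.casesOn i hf hR,
      fun z => (Fintype.sum_option fun i => ‖(Option.casesOn i f R : E n → ℂ) z‖ₑ ^ q).symm⟩
  simp only [h2]
  have hg : MemLp g 2 := hf.2.1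
  obtain ⟨e, e0, e1⟩ : ∃ e : ℕ → ℝ, (∀ k, 0 < e k) ∧ Tendsto e atTop (𝓝 0) :=
    ⟨fun k => 1 / ((k : ℝ) + 1), fun k => by positivity, tendsto_one_div_add_atTop_nhds_zero_nat⟩
  have mu : ∀ k i, AEMeasurable (fun z => ‖T po (gs g i) (z, e k) - h i z‖ₑ) volume := fun k i =>
    ((continuous_T memLp_po (memLp_gs hg i) (e0 k).ne').aestronglyMeasurable.sub
      (h1 i).1.1).enorm
  have mG : AEMeasurable (fun z => ∑ i, ‖h i z‖ₑ ^ q) volume :=
    Finset.aemeasurable_fun_sum _ fun i _ => (h1 i).1.1.enorm.pow_const q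
  have s1 : 1 < 2 / q := by rw [lt_div_iff₀ q0]; linarith
  have l2 : ∀ i, Tendsto (fun k => ∫⁻ z, ‖T po (gs g i) (z, e k) - h i z‖ₑ ^ (2 : ℝ)) atTop
      (𝓝 0) := fun i => by
    refine NTA.lint_sq (hL2C n (h i) (gs g i) (fun _ => 1) (fun k ξ => po (e k • ξ)) 1
      (memLp_gs hg i) (by simpa using h1 i) (fun k => memLp_dil memLp_po (e0 k).ne')
      (fun k ξ => norm_po_le _) (ae_of_all _ fun ξ => ?_))
    have t1 : Tendsto (fun k => e k • ξ) atTop (𝓝 0) := by simpa using e1.smul_const ξ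
    have t2 := (continuous_po.tendsto 0).comp t1
    have t3 : po (0 : E n) = 1 := by simp [po]
    rwa [t3] at t2
  have l3 : Tendsto (fun k => ∫⁻ z, (∑ i, ‖T po (gs g i) (z, e k) - h i z‖ₑ ^ q) ^ (2 / q))
      atTop (𝓝 0) := by
    have t1 := tendsto_finsetSum Finset.univ fun i _ => l2 i
    have t2 := ENNReal.Tendsto.const_mul
      (a := ((Finset.univ : Finset (Option (Fin n))).card : ℝ≥0∞) ^ (2 / q - 1)) t1
      (Or.inr (ENNReal.rpow_ne_top_of_nonneg (by linarith) (ENNReal.natCast_ne_top _)))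
    rw [Finset.sum_const_zero, mul_zero] at t2
    refine tendsto_of_tendsto_of_tendsto_of_le_of_le tendsto_const_nhds t2 (fun _ => zero_le)
      fun k => ?_
    simp only
    rw [← lintegral_finsetSum' _ fun i _ => (mu k i).pow_const (2 : ℝ),
      ← lintegral_const_mul' _ _
        (ENNReal.rpow_ne_top_of_nonneg (by linarith) (ENNReal.natCast_ne_top _))]
    refine lintegral_mono fun z => (ENNReal.rpow_sum_le_const_mul_sum_rpow _ _ s1.le).trans ?_
    simp only [← ENNReal.rpow_mul, mul_div_cancel₀ _ q0.ne', le_refl]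
  filter_upwards [NTA.freq_small hHL hn ha s1
    (D := fun k z => ∑ i, ‖T po (gs g i) (z, e k) - h i z‖ₑ ^ q)
    (fun k => Finset.aemeasurable_fun_sum _ fun i _ => (mu k i).pow_const q) l3] with x hx
  rw [← ENNReal.le_rpow_inv_iff q0]
  refine iSup₂_le fun t ht => iSup_le fun y => ?_
  have r0 : 0 < 1 + ‖y - x‖ / t := by positivity
  have key : ‖T po g (y, t)‖ₑ ^ q ≤ ENNReal.ofReal (2 * C * 2 ^ A * (1 + ‖y - x‖ / t) ^ A) *
      KM a (fun z => ∑ i, ‖h i z‖ₑ ^ q) x := by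
    refine NTA.le_of_freq ENNReal.ofReal_ne_top hx ?_
    filter_upwards [e1.eventually (gt_mem_nhds (half_pos ht))] with k hk
    have one : ∀ L : ℂ →L[ℝ] ℝ, (∀ w, ‖L w‖ ≤ ‖w‖) → ENNReal.ofReal (‖FU L g (y, t)‖ ^ q) ≤
        ENNReal.ofReal (C * 2 ^ A * (1 + ‖y - x‖ / t) ^ A) * (KM a (fun z => ∑ i, ‖h i z‖ₑ ^ q) x
          + KM a (fun z => ∑ i, ‖T po (gs g i) (z, e k) - h i z‖ₑ ^ q) x) := fun L hL => by
      have t0 : 0 < t - e k := by linarith
      have b := H (FU L g) (hCRU n L g hg).1 (hCRU n L g hg).2 (e k) (e0 k) x y (t - e k) t0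
      rw [add_sub_cancel] at b
      refine b.trans (mul_le_mul' (ENNReal.ofReal_le_ofReal ?_)
        (le_trans (KM_mono_ae a (ae_of_all _ fun z => ?_) x) (KM_add_le a mG _ x)))
      · rw [mul_assoc, ← Real.mul_rpow two_pos.le r0.le]
        refine mul_le_mul_of_nonneg_left (Real.rpow_le_rpow (by positivity) ?_ hA0) hC
        have : ‖y - x‖ / (t - e k) ≤ ‖y - x‖ / (t / 2) :=
          div_le_div_of_nonneg_left (norm_nonneg _) (half_pos ht) (by linarith)
        have e2 : ‖y - x‖ / (t / 2) = 2 * (‖y - x‖ / t) := by field_simp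
        linarith
      · exact NTA.field_le hL g (z, e k) (fun i => h i z) q0 q2
    refine (NTA.pois_le g (y, t) q0 q2).trans ((add_le_add
      (one reCLM fun w => Complex.abs_re_le_norm w)
      (one imCLM fun w => Complex.abs_im_le_norm w)).trans (le_of_eq ?_))
    rw [← add_mul, ← ENNReal.ofReal_add (by positivity) (by positivity)]
    congr 2
    ring
  rw [ENNReal.le_rpow_inv_iff q0, ENNReal.mul_rpow_of_nonneg _ _ q0.le,
    ENNReal.ofReal_rpow_of_pos (Real.rpow_pos_of_pos r0 _), ← Real.rpow_mul r0.le]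
  refine (mul_le_mul_left key _).trans (le_of_eq ?_)
  rw [mul_right_comm, ← ENNReal.ofReal_mul (by positivity), mul_assoc (2 * C * 2 ^ A),
    ← Real.rpow_add r0]
  have e3 : A + -(A / q) * q = 0 := by field_simp; ring
  rw [e3, Real.rpow_zero, mul_one]

end Pool.Agent.HP
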