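import Mathlib
import Pool.Agent.Lib.HP.Defs

set_option autoImplicit false

open MeasureTheory Complex Real Filter Topology
open scoped ENNReal ContDiff SchwartzMap FourierTransform RealInnerProductSpace

noncomputable section

namespace Pool.Agent.HP

namespace PAR

variable {n : ℕ}

/-- modulated and dilated Fourier transform of `φ` -/
def hh (φ : 𝓢(E n, ℂ)) (t : ℝ) (x ξ : E n) : ℂ :=
  𝐞 ⟪ξ, x⟫ • 𝓕 (φ : E n → ℂ) (t • ξ)

theorem int_hat (φ : 𝓢(E n, ℂ)) : Integrable (𝓕 (φ : E n → ℂ)) := by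
  have := (𝓕 φ : 𝓢(E n, ℂ)).integrable (μ := volume)
  rwa [SchwartzMap.fourier_coe] at this

theorem cont_hat (φ : 𝓢(E n, ℂ)) : Continuous (𝓕 (φ : E n → ℂ)) := by
  have := (𝓕 φ : 𝓢(E n, ℂ)).continuous
  rwa [SchwartzMap.fourier_coe] at this

theorem norm_hh (φ : 𝓢(E n, ℂ)) (t : ℝ) (x ξ : E n) :
    ‖hh φ t x ξ‖ = ‖𝓕 (φ : E n → ℂ) (t • ξ)‖ := by
  simp [hh]

theorem cont_hh (φ : 𝓢(E n, ℂ)) (t : ℝ) (x : E n) : Continuous (hh φ t x) := by
  unfold hh
  have h1 : Continuous fun ξ : E n => (⟪ξ, x⟫ : ℝ) := continuous_id.inner continuous_const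
  have h2 : Continuous fun ξ : E n => 𝐞 (⟪ξ, x⟫ : ℝ) := Real.continuous_fourierChar.comp h1
  have h3 : Continuous fun ξ : E n => 𝓕 (φ : E n → ℂ) (t • ξ) :=
    (cont_hat φ).comp (continuous_const_smul t)
  exact h2.smul h3

theorem int_hh (φ : 𝓢(E n, ℂ)) {t : ℝ} (ht : 0 < t) (x : E n) : Integrable (hh φ t x) := by
  have h1 : Integrable (fun ξ : E n => 𝓕 (φ : E n → ℂ) (t • ξ)) :=
    (int_hat φ).comp_smul ht.ne'
  refine h1.norm.mono' (cont_hh φ t x).aestronglyMeasurable ?_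
  exact Eventually.of_forall fun ξ => (norm_hh φ t x ξ).le

theorem bd_hh (φ : 𝓢(E n, ℂ)) (t : ℝ) (x ξ : E n) :
    ‖hh φ t x ξ‖ ≤ ∫ y, ‖φ y‖ := by
  rw [norm_hh]
  exact VectorFourier.norm_fourierIntegral_le_integral_norm _ _ _ _ _

theorem mem_hh (φ : 𝓢(E n, ℂ)) {t : ℝ} (ht : 0 < t) (x : E n) : MemLp (hh φ t x) 2 := by
  rw [memLp_two_iff_integrable_sq_norm (cont_hh φ t x).aestronglyMeasurable]
  refine ((int_hh φ ht x).norm.const_mul (∫ y, ‖φ y‖)).mono'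
    ((cont_hh φ t x).norm.pow 2).aestronglyMeasurable ?_
  refine Eventually.of_forall fun ξ => ?_
  rw [Real.norm_of_nonneg (by positivity), sq]
  exact mul_le_mul_of_nonneg_right (bd_hh φ t x ξ) (norm_nonneg _)

theorem four_hh (φ : 𝓢(E n, ℂ)) {t : ℝ} (ht : 0 < t) (x y : E n) :
    𝓕 (hh φ t x) y = (((t ^ n)⁻¹ : ℝ) : ℂ) * φ (t⁻¹ • (x - y)) := by
  have hinv : 𝓕⁻ (𝓕 (φ : E n → ℂ)) = (φ : E n → ℂ) :=
    φ.continuous.fourierInv_fourier_eq φ.integrable (int_hat φ)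
  have h1 := Measure.integral_comp_smul_of_nonneg (volume : Measure (E n))
    (fun η : E n => 𝐞 ⟪η, t⁻¹ • (x - y)⟫ • 𝓕 (φ : E n → ℂ) η) t (hR := ht.le)
  rw [← Real.fourierInv_eq, hinv, finrank_euclideanSpace, Fintype.card_fin] at h1
  rw [Real.fourier_eq, ← Complex.real_smul, ← h1]
  refine integral_congr_ae (Eventually.of_forall fun ξ => ?_)
  have h2 : ⟪t • ξ, t⁻¹ • (x - y)⟫ = -⟪ξ, y⟫ + ⟪ξ, x⟫ := by
    rw [real_inner_smul_left, real_inner_smul_right, inner_sub_right, ← mul_assoc,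
      mul_inv_cancel₀ ht.ne']
    ring
  simp only [hh]
  rw [h2, AddChar.map_add_eq_mul, mul_smul]

theorem int_four (φ : 𝓢(E n, ℂ)) {t : ℝ} (ht : 0 < t) (x : E n) :
    Integrable (𝓕 (hh φ t x)) := by
  have h1 : Integrable (fun y : E n => φ (t⁻¹ • y)) :=
    (φ.integrable (μ := volume)).comp_smul (inv_ne_zero ht.ne')
  have h2 : Integrable (fun y : E n => φ (t⁻¹ • (x - y))) := h1.comp_sub_left x
  have h3 : 𝓕 (hh φ t x) = fun y => (((t ^ n)⁻¹ : ℝ) : ℂ) * φ (t⁻¹ • (x - y)) :=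
    funext fun y => four_hh φ ht x y
  rw [h3]
  exact h2.const_mul _

theorem conv_eq (φ : 𝓢(E n, ℂ)) {t : ℝ} (ht : 0 < t) (f : E n → ℂ) (x : E n) :
    conv φ f (x, t) = ∫ y, f y * 𝓕 (hh φ t x) y := by
  unfold conv
  refine integral_congr_ae (Eventually.of_forall fun y => ?_)
  simp only [four_hh φ ht x y]
  ring

theorem T_eq (φ : 𝓢(E n, ℂ)) (t : ℝ) (g : E n → ℂ) (x : E n) :
    T (𝓕 (φ : E n → ℂ)) g (x, t) = ∫ ξ, g ξ * hh φ t x ξ := by
  unfold T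
  rw [Real.fourierInv_eq]
  refine integral_congr_ae (Eventually.of_forall fun ξ => ?_)
  simp only [hh, Circle.smul_def, smul_eq_mul]
  ring

theorem inv_flip {u k : E n → ℂ} (hu : Integrable u) (hk : Integrable k) :
    ∫ y, 𝓕⁻ u y * k y = ∫ ξ, u ξ * 𝓕⁻ k ξ := by
  have hL : Continuous fun p : E n × E n => (-innerₗ (E n)) p.1 p.2 := by
    simp only [LinearMap.neg_apply, innerₗ_apply_apply]
    exact (continuous_fst.inner continuous_snd).neg
  have h := VectorFourier.integral_fourierIntegral_smul_eq_flip (e := 𝐞) (L := -innerₗ (E n))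
    (μ := volume) (ν := volume) Real.continuous_fourierChar hL hu hk
  have hf : (-innerₗ (E n)).flip = -innerₗ (E n) := by
    refine LinearMap.ext fun a => LinearMap.ext fun b => ?_
    simp only [LinearMap.flip_apply, LinearMap.neg_apply, innerₗ_apply_apply]
    rw [real_inner_comm]
  rw [hf] at h
  exact h

end PAR

theorem st_PAR (hHAT : St_HAT) : St_PAR := by
  intro n φ t ht
  refine ⟨fun f g hfg x => ?_, fun h hh x => ?_⟩
  · rw [PAR.conv_eq φ ht, PAR.T_eq]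
    exact (hHAT n).2.2.2.1 f g _ hfg (PAR.int_hh φ ht x) (PAR.mem_hh φ ht x)
  · rw [PAR.conv_eq φ ht, PAR.T_eq, PAR.inv_flip hh (PAR.int_four φ ht x),
      (PAR.cont_hh φ t x).fourierInv_fourier_eq (PAR.int_hh φ ht x) (PAR.int_four φ ht x)]

end Pool.Agent.HP
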