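import Pool.Agent.Lib.HP.Util

/-! The Peetre maximal function is controlled by kernel averages of a small power of the radial
maximal function. -/

set_option autoImplicit false

open MeasureTheory Complex Real Filter Topology
open scoped ENNReal ContDiff SchwartzMap FourierTransform

noncomputable section

namespace Pool.Agent.HP

namespace PEE

variable {n : ℕ}

theorem decay (φ : 𝓢(E n, ℂ)) (A : ℝ) :
    ∃ D : ℝ, 0 ≤ D ∧ ∀ u : E n, ‖φ u‖ ≤ D * (1 + ‖u‖) ^ (-A) := by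
  set k : ℕ := ⌈A⌉₊ with hk
  refine ⟨2 ^ k * (Finset.Iic (k, 0)).sup (fun m => SchwartzMap.seminorm ℝ m.1 m.2) φ,
    by positivity, fun u => ?_⟩
  have h := SchwartzMap.one_add_le_sup_seminorm_apply (𝕜 := ℝ) (m := (k, 0)) (k := k) (n := 0)
    le_rfl le_rfl φ u
  rw [norm_iteratedFDeriv_zero] at h
  have h0 : 0 < 1 + ‖u‖ := by positivity
  have h1 : (1 : ℝ) ≤ 1 + ‖u‖ := by linarith [norm_nonneg u]
  have h2 : (1 + ‖u‖) ^ A ≤ (1 + ‖u‖) ^ k := by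
    rw [← Real.rpow_natCast]
    exact Real.rpow_le_rpow_of_exponent_le h1 (Nat.le_ceil A)
  have h3 : 0 < (1 + ‖u‖) ^ A := Real.rpow_pos_of_pos h0 A
  rw [Real.rpow_neg h0.le, ← div_eq_mul_inv, le_div_iff₀ h3]
  calc ‖φ u‖ * (1 + ‖u‖) ^ A ≤ ‖φ u‖ * (1 + ‖u‖) ^ k :=
        mul_le_mul_of_nonneg_left h2 (norm_nonneg _)
    _ = (1 + ‖u‖) ^ k * ‖φ u‖ := mul_comm _ _
    _ ≤ _ := h

theorem PS_le_KM (φ : 𝓢(E n, ℂ)) {A : ℝ} (hA : 0 ≤ A) :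
    ∃ D : ℝ, ∀ (f : E n → ℂ) (x : E n),
      PS A (conv φ f) x ≤ ENNReal.ofReal D * KM A (fun z => ‖f z‖ₑ) x := by
  obtain ⟨D, hD, h⟩ := decay φ A
  refine ⟨D, fun f x => iSup₂_le fun t ht => iSup_le fun y => ?_⟩
  have h1 : ‖conv φ f (y, t)‖ₑ ≤
      ∫⁻ z, ‖(((t ^ n)⁻¹ : ℝ) : ℂ) * φ (t⁻¹ • (y - z)) * f z‖ₑ :=
    enorm_integral_le_lintegral_enorm _
  refine (mul_le_mul_left h1 _).trans ?_
  refine le_trans ?_ (mul_le_mul_right (le_KM A (fun z => ‖f z‖ₑ) x ht) _)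
  rw [← lintegral_mul_const' _ _ ENNReal.ofReal_ne_top,
    ← lintegral_const_mul' _ _ ENNReal.ofReal_ne_top]
  refine lintegral_mono fun z => ?_
  have hw : 0 ≤ (1 + ‖y - x‖ / t) ^ (-A) := by positivity
  have hk : ‖(((t ^ n)⁻¹ : ℝ) : ℂ) * φ (t⁻¹ • (y - z))‖ ≤ D * ker n A t (z - y) := by
    have e : ‖t⁻¹ • (y - z)‖ = ‖z - y‖ / t := by
      rw [norm_smul, Real.norm_eq_abs, abs_of_pos (inv_pos.2 ht), norm_sub_rev, div_eq_inv_mul]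
    have h2 := h (t⁻¹ • (y - z))
    rw [e] at h2
    have hp : 0 < (t ^ n)⁻¹ := by positivity
    rw [norm_mul, Complex.norm_real, Real.norm_eq_abs, abs_of_pos hp, ker]
    calc (t ^ n)⁻¹ * ‖φ (t⁻¹ • (y - z))‖ ≤ (t ^ n)⁻¹ * (D * (1 + ‖z - y‖ / t) ^ (-A)) :=
          mul_le_mul_of_nonneg_left h2 hp.le
      _ = _ := by ring
  have h3 : ‖(((t ^ n)⁻¹ : ℝ) : ℂ) * φ (t⁻¹ • (y - z))‖ * (1 + ‖y - x‖ / t) ^ (-A) ≤
      D * ker n A t (z - x) := by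
    calc _ ≤ D * ker n A t (z - y) * (1 + ‖y - x‖ / t) ^ (-A) :=
          mul_le_mul_of_nonneg_right hk hw
      _ = D * ((1 + ‖y - x‖ / t) ^ (-A) * ker n A t (z - y)) := by ring
      _ ≤ _ := mul_le_mul_of_nonneg_left (ker_shift hA ht x y z) hD
  have h4 := ENNReal.ofReal_le_ofReal h3
  rw [ENNReal.ofReal_mul (norm_nonneg _), ENNReal.ofReal_mul hD, ofReal_norm] at h4
  simp only
  rw [enorm_mul, mul_right_comm, ← mul_assoc]
  exact mul_le_mul_left h4 _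

theorem KS_le (φ f : E n → ℂ) {A r : ℝ} (hr : 0 < r) (hr1 : r ≤ 1) (x : E n)
    (hH : PS A (conv φ f) x ≠ ⊤) :
    KS A (conv φ f) x ≤
      PS A (conv φ f) x ^ (1 - r) * KM (A * r) (fun z => Mx φ f z ^ r) x := by
  have h1r : 0 ≤ 1 - r := by linarith
  refine iSup₂_le fun s hs => ?_
  refine le_trans ?_ (mul_le_mul_right (le_KM (A * r) (fun z => Mx φ f z ^ r) x hs) _)
  rw [← lintegral_const_mul' _ _ (ENNReal.rpow_ne_top_of_nonneg h1r hH)]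
  refine lintegral_mono fun z => ?_
  have hp : 0 < 1 + ‖z - x‖ / s := by positivity
  have e1 : ker n A s (z - x) =
      ker n (A * r) s (z - x) * ((1 + ‖z - x‖ / s) ^ (-A)) ^ (1 - r) := by
    rw [ker, ker, mul_assoc, ← Real.rpow_mul hp.le, ← Real.rpow_add hp]
    congr 2
    ring
  have h2 : ‖conv φ f (z, s)‖ₑ ≤ Mx φ f z :=
    le_iSup₂ (f := fun (t : ℝ) (_ : 0 < t) => ‖conv φ f (z, t)‖ₑ) s hs
  have h3 := le_PS A (conv φ f) x z hs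
  have h4 : (‖conv φ f (z, s)‖ₑ * ENNReal.ofReal ((1 + ‖z - x‖ / s) ^ (-A))) ^ (1 - r) ≤
      PS A (conv φ f) x ^ (1 - r) := ENNReal.rpow_le_rpow h3 h1r
  have h5 : ‖conv φ f (z, s)‖ₑ ^ r ≤ Mx φ f z ^ r := ENNReal.rpow_le_rpow h2 hr.le
  have e2 : ‖conv φ f (z, s)‖ₑ = ‖conv φ f (z, s)‖ₑ ^ r * ‖conv φ f (z, s)‖ₑ ^ (1 - r) := by
    rw [← ENNReal.rpow_add_of_nonneg _ _ hr.le h1r]
    simp
  simp only
  rw [e1, ENNReal.ofReal_mul (ker_pos _ hs _).le,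
    ← ENNReal.ofReal_rpow_of_nonneg (by positivity) h1r]
  rw [ENNReal.mul_rpow_of_nonneg _ _ h1r] at h4
  calc ENNReal.ofReal (ker n (A * r) s (z - x)) *
        ENNReal.ofReal ((1 + ‖z - x‖ / s) ^ (-A)) ^ (1 - r) * ‖conv φ f (z, s)‖ₑ
      = (‖conv φ f (z, s)‖ₑ ^ (1 - r) * ENNReal.ofReal ((1 + ‖z - x‖ / s) ^ (-A)) ^ (1 - r)) *
          (ENNReal.ofReal (ker n (A * r) s (z - x)) * ‖conv φ f (z, s)‖ₑ ^ r) := by
        nth_rewrite 1 [e2]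
        ring
    _ ≤ _ := mul_le_mul' h4 (mul_le_mul_right h5 _)

theorem divide {H K : ℝ≥0∞} {r : ℝ} (hr : 0 < r) (hr1 : r ≤ 1) (hH : H ≠ ⊤)
    (h : H ≤ H ^ (1 - r) * K) : H ^ r ≤ K := by
  have h1r : 0 ≤ 1 - r := by linarith
  by_cases h0 : H = 0
  · rw [h0, ENNReal.zero_rpow_of_pos hr]
    exact zero_le
  · have e : H = H ^ (1 - r) * H ^ r := by
      rw [← ENNReal.rpow_add_of_nonneg _ _ h1r hr.le]
      simp
    have h1 : H ^ (1 - r) ≠ ⊤ := ENNReal.rpow_ne_top_of_nonneg h1r hH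
    have h2 : H ^ (1 - r) ≠ 0 := (ENNReal.rpow_pos (pos_iff_ne_zero.2 h0) hH).ne'
    have h3 : H ^ (1 - r) * H ^ r ≤ H ^ (1 - r) * K := e ▸ h
    exact (ENNReal.mul_le_mul_iff_right h2 h1).1 h3

end PEE

theorem st_PEE (hHAT : St_HAT) (hPAR : St_PAR) (hADM : St_ADM) (hDEC : St_DEC) (hHL : St_HL) :
    St_PEE := by
  intro n hn φ hφ r A hr hr1 hAr
  have hn0 : (0 : ℝ) ≤ n := Nat.cast_nonneg n
  have hA : 0 ≤ A := by
    by_contra hc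
    have : A * r < 0 := mul_neg_of_neg_of_pos (not_le.1 hc) hr
    linarith
  have hnA : (n : ℝ) < A := lt_of_lt_of_le hAr (mul_le_of_le_one_right hA hr1)
  obtain ⟨N, C, hC, hdec⟩ := hDEC n _ ((hADM n).1 φ hφ) A hA
  obtain ⟨B, hB, hbd⟩ := bd_fourier φ N
  obtain ⟨D, hD⟩ := PEE.PS_le_KM φ hA
  obtain ⟨C₂, -, hhl⟩ := hHL n hn A 2 hnA (by norm_num)
  refine ⟨C * B, mul_nonneg hC hB, fun f hf => ?_⟩
  obtain ⟨g, hfg⟩ := (hHAT n).1 f hf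
  have hv : ∀ (y : E n) (t : ℝ), 0 < t →
      conv φ f (y, t) = T (𝓕 (φ : E n → ℂ)) g (y, t) :=
    fun y t ht => (hPAR n φ t ht).1 f g hfg y
  have hfin : ∫⁻ x, ‖f x‖ₑ ^ (2 : ℝ) < ⊤ := by
    have h := lintegral_rpow_enorm_lt_top_of_eLpNorm_lt_top (p := 2) (by norm_num) (by norm_num)
      hf.2
    simpa using h
  have hK : ∫⁻ x, KM A (fun z => ‖f z‖ₑ) x ^ (2 : ℝ) ≠ ⊤ :=
    (lt_of_le_of_lt (hhl _ hf.1.enorm) (ENNReal.mul_lt_top ENNReal.ofReal_lt_top hfin)).ne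
  have hae := ae_lt_top ((measurable_KM hA (fun z => ‖f z‖ₑ)).pow_const (2 : ℝ)) hK
  filter_upwards [hae] with x hx
  have hx1 : KM A (fun z => ‖f z‖ₑ) x ≠ ⊤ := by
    intro hc
    rw [hc, ENNReal.top_rpow_of_pos (by norm_num)] at hx
    exact lt_irrefl _ hx
  have hH : PS A (conv φ f) x ≠ ⊤ :=
    ne_top_of_le_ne_top (ENNReal.mul_ne_top ENNReal.ofReal_ne_top hx1) (hD f x)
  have h1 := hdec _ B hbd (memLp_fourier φ) g hfg.2.1 x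
  rw [← PS_congr A hv, ← KS_congr A hv] at h1
  refine PEE.divide hr hr1 hH (h1.trans ?_)
  refine (mul_le_mul_right (PEE.KS_le φ f hr hr1 x hH) _).trans (le_of_eq ?_)
  ring

end Pool.Agent.HP
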