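import Pool.Agent.Lib.HP.Util

set_option autoImplicit false

open MeasureTheory Complex Real Filter Topology
open scoped ENNReal ContDiff SchwartzMap FourierTransform

noncomputable section

namespace Pool.Agent.HP

namespace PEE46

variable {n : ℕ}

theorem decay (φ : 𝓢(E n, ℂ)) (A : ℝ) :
    ∃ D : ℝ, 0 ≤ D ∧ ∀ u, ‖φ u‖ ≤ D * (1 + ‖u‖) ^ (-A) := by
  set k := ⌈A⌉₊
  refine ⟨2 ^ k * (Finset.Iic (k, 0)).sup (fun m => SchwartzMap.seminorm ℝ m.1 m.2) φ,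
    by positivity, fun u => ?_⟩
  have h := SchwartzMap.one_add_le_sup_seminorm_apply (𝕜 := ℝ) (m := (k, 0)) (k := k) (n := 0)
    le_rfl le_rfl φ u
  rw [norm_iteratedFDeriv_zero] at h
  have h0 : 0 < 1 + ‖u‖ := by positivity
  have h1 : (1 + ‖u‖) ^ A ≤ (1 + ‖u‖) ^ k := by
    rw [← Real.rpow_natCast]
    exact Real.rpow_le_rpow_of_exponent_le (by linarith [norm_nonneg u]) (Nat.le_ceil A)
  have h2 : 0 < (1 + ‖u‖) ^ A := by positivity
  rw [Real.rpow_neg h0.le, ← div_eq_mul_inv, le_div_iff₀ h2, mul_comm]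
  exact (mul_le_mul_of_nonneg_right h1 (norm_nonneg _)).trans h

theorem PS_le_KM (φ : 𝓢(E n, ℂ)) {A : ℝ} (hA : 0 ≤ A) : ∃ D : ℝ, ∀ (f : E n → ℂ) (x : E n),
    PS A (conv φ f) x ≤ ENNReal.ofReal D * KM A (fun z => ‖f z‖ₑ) x := by
  obtain ⟨D, hD, h⟩ := decay φ A
  refine ⟨D, fun f x => iSup₂_le fun t ht => iSup_le fun y => ?_⟩
  refine le_trans ?_ (mul_le_mul_right (le_KM A _ x ht) _)
  refine (mul_le_mul_left (enorm_integral_le_lintegral_enorm _) _).trans ?_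
  rw [← lintegral_mul_const' _ _ ENNReal.ofReal_ne_top,
    ← lintegral_const_mul' _ _ ENNReal.ofReal_ne_top]
  refine lintegral_mono fun z => ?_
  have h1 : 0 < 1 + ‖y - x‖ / t := by positivity
  have e : ‖t⁻¹ • (y - z)‖ = ‖z - y‖ / t := by
    rw [norm_smul, Real.norm_eq_abs, abs_of_pos (inv_pos.2 ht), norm_sub_rev, div_eq_inv_mul]
  have h2 : ‖(((t ^ n)⁻¹ : ℝ) : ℂ) * φ (t⁻¹ • (y - z))‖ ≤ D * ker n A t (z - y) := by
    rw [norm_mul, Complex.norm_real, Real.norm_eq_abs, abs_of_pos (by positivity), ker]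
    have h3 := h (t⁻¹ • (y - z))
    rw [e] at h3
    calc _ ≤ (t ^ n)⁻¹ * (D * (1 + ‖z - y‖ / t) ^ (-A)) :=
          mul_le_mul_of_nonneg_left h3 (by positivity)
      _ = _ := by ring
  have h4 : ‖(((t ^ n)⁻¹ : ℝ) : ℂ) * φ (t⁻¹ • (y - z))‖ * (1 + ‖y - x‖ / t) ^ (-A) ≤
      D * ker n A t (z - x) := by
    calc _ ≤ D * ker n A t (z - y) * (1 + ‖y - x‖ / t) ^ (-A) :=
          mul_le_mul_of_nonneg_right h2 (by positivity)
      _ = D * ((1 + ‖y - x‖ / t) ^ (-A) * ker n A t (z - y)) := by ring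
      _ ≤ _ := mul_le_mul_of_nonneg_left (ker_shift hA ht x y z) hD
  simp only
  rw [enorm_mul, mul_right_comm, ← mul_assoc, ← ENNReal.ofReal_mul hD, ← ofReal_norm,
    ← ENNReal.ofReal_mul (norm_nonneg _)]
  exact mul_le_mul_left (ENNReal.ofReal_le_ofReal h4) _

theorem KS_le (φ f : E n → ℂ) {A r : ℝ} (hr : 0 < r) (hr1 : r ≤ 1) (x : E n)
    (hH : PS A (conv φ f) x ≠ ⊤) :
    KS A (conv φ f) x ≤ PS A (conv φ f) x ^ (1 - r) * KM (A * r) (fun z => Mx φ f z ^ r) x := by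
  refine iSup₂_le fun s hs => ?_
  refine le_trans ?_ (mul_le_mul_right (le_KM (A * r) _ x hs) _)
  rw [← lintegral_const_mul' _ _ (ENNReal.rpow_ne_top_of_nonneg (by linarith) hH)]
  refine lintegral_mono fun z => ?_
  have h1 : 0 < 1 + ‖z - x‖ / s := by positivity
  set w : ℝ≥0∞ := ENNReal.ofReal ((1 + ‖z - x‖ / s) ^ (-A)) with hw
  set a : ℝ≥0∞ := ‖conv φ f (z, s)‖ₑ with ha
  have e1 : ENNReal.ofReal (ker n A s (z - x)) = ENNReal.ofReal ((s ^ n)⁻¹) * w := by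
    rw [ker, ENNReal.ofReal_mul (by positivity)]
  have e2 : ENNReal.ofReal (ker n (A * r) s (z - x)) = ENNReal.ofReal ((s ^ n)⁻¹) * w ^ r := by
    rw [ker, ENNReal.ofReal_mul (by positivity), hw, ENNReal.ofReal_rpow_of_pos (by positivity),
      ← Real.rpow_mul h1.le, neg_mul]
  have h2 : a * w ≤ PS A (conv φ f) x := le_PS A _ x z hs
  have h3 : a ≤ Mx φ f z :=
    le_iSup₂ (f := fun (t : ℝ) (_ : 0 < t) => ‖conv φ f (z, t)‖ₑ) s hs
  have e3 : a * w = (a * w) ^ (1 - r) * (a ^ r * w ^ r) := by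
    rw [← ENNReal.mul_rpow_of_nonneg _ _ hr.le,
      ← ENNReal.rpow_add_of_nonneg _ _ (by linarith) hr.le]
    simp
  simp only
  rw [e1, e2]
  calc ENNReal.ofReal ((s ^ n)⁻¹) * w * a = ENNReal.ofReal ((s ^ n)⁻¹) * (a * w) := by ring
    _ = ENNReal.ofReal ((s ^ n)⁻¹) * ((a * w) ^ (1 - r) * (a ^ r * w ^ r)) := by rw [← e3]
    _ ≤ ENNReal.ofReal ((s ^ n)⁻¹) *
        (PS A (conv φ f) x ^ (1 - r) * (Mx φ f z ^ r * w ^ r)) := by
        have h4 : (0 : ℝ) ≤ 1 - r := by linarith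
        gcongr
    _ = _ := by ring

end PEE46

open PEE46 in
theorem st_PEE46 (hHAT : St_HAT) (hPAR : St_PAR) (hADM : St_ADM) (hDEC : St_DEC) (hHL : St_HL) :
    St_PEE := by
  intro n hn φ hφ r A hr hr1 hA
  have hn0 : (0 : ℝ) ≤ n := Nat.cast_nonneg n
  have hA0 : 0 < A := by
    by_contra h
    have : A * r ≤ 0 := mul_nonpos_of_nonpos_of_nonneg (not_lt.1 h) hr.le
    linarith
  have hnA : (n : ℝ) < A := hA.trans_le (mul_le_of_le_one_right hA0.le hr1)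
  obtain ⟨N', C, hC, hdec⟩ := hDEC n _ ((hADM n).1 φ hφ) A hA0.le
  obtain ⟨B, hB, hbd⟩ := bd_fourier φ N'
  obtain ⟨D, hD⟩ := PS_le_KM φ hA0.le
  obtain ⟨C₂, -, hHL2⟩ := hHL n hn A 2 hnA (by norm_num)
  refine ⟨C * B, by positivity, fun f hf => ?_⟩
  obtain ⟨g, hg⟩ := (hHAT n).1 f hf
  have hv : ∀ (y : E n) (t : ℝ), 0 < t → T (𝓕 (φ : E n → ℂ)) g (y, t) = conv φ f (y, t) :=
    fun y t ht => ((hPAR n φ t ht).1 f g hg y).symm
  have hfin : ∀ᵐ x, KM A (fun z => ‖f z‖ₑ) x ^ (2 : ℝ) < ⊤ := by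
    refine ae_lt_top ((measurable_KM hA0.le _).pow_const _) (ne_top_of_le_ne_top ?_
      (hHL2 _ hf.1.enorm))
    refine ENNReal.mul_ne_top ENNReal.ofReal_ne_top ?_
    have h2 := lintegral_rpow_enorm_lt_top_of_eLpNorm_lt_top (by norm_num) (by norm_num) hf.2
    simpa using h2.ne
  filter_upwards [hfin] with x hx
  have hK : KM A (fun z => ‖f z‖ₑ) x ≠ ⊤ := by
    intro h
    rw [h, ENNReal.top_rpow_of_pos (by norm_num)] at hx
    exact lt_irrefl _ hx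
  have hH : PS A (conv φ f) x ≠ ⊤ :=
    ne_top_of_le_ne_top (ENNReal.mul_ne_top ENNReal.ofReal_ne_top hK) (hD f x)
  have h1 := hdec _ B hbd (memLp_fourier φ) g hg.2.1 x
  rw [PS_congr A hv, KS_congr A hv] at h1
  have h2 := h1.trans (mul_le_mul_right (KS_le φ f hr hr1 x hH) _)
  by_cases h0 : PS A (conv φ f) x = 0
  · rw [h0, ENNReal.zero_rpow_of_pos hr]; exact zero_le
  have h3 : PS A (conv φ f) x ^ (1 - r) ≠ 0 := by
    simp [ENNReal.rpow_eq_zero_iff, h0, hH]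
  have h4 : PS A (conv φ f) x ^ (1 - r) ≠ ⊤ := ENNReal.rpow_ne_top_of_nonneg (by linarith) hH
  have e : PS A (conv φ f) x = PS A (conv φ f) x ^ (1 - r) * PS A (conv φ f) x ^ r := by
    rw [← ENNReal.rpow_add_of_nonneg _ _ (by linarith) hr.le]
    simp
  refine (ENNReal.mul_le_mul_iff_right h3 h4).1 ?_
  rw [← e]
  refine h2.trans (le_of_eq ?_)
  ring

end Pool.Agent.HP
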