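import Pool.Agent.Lib.HP.Defs

/-! The radial maximal function is dominated by the Peetre maximal function of the Poisson
extension. -/

set_option autoImplicit false

open MeasureTheory
open scoped ENNReal ContDiff SchwartzMap FourierTransform

namespace Pool.Agent.HP

namespace PHI

theorem bd {n : ℕ} (σ : 𝓢(E n, ℂ)) (N : ℕ) : ∃ B : ℝ, 0 ≤ B ∧ Bd N B σ := by
  choose c hc using σ.decay
  refine ⟨∑ i ∈ Finset.range (N + 1), ∑ j ∈ Finset.range (N + 1), c i j,
    Finset.sum_nonneg fun i _ => Finset.sum_nonneg fun j _ => (hc i j).1.le,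
    σ.smooth ⊤, fun i hi j hj ξ => ((hc i j).2 ξ).trans ?_⟩
  refine le_trans ?_ (Finset.single_le_sum (f := fun i => ∑ j ∈ Finset.range (N + 1), c i j)
    (fun i _ => Finset.sum_nonneg fun j _ => (hc i j).1.le)
    (Finset.mem_range.2 (Nat.lt_succ_of_le hi)))
  exact Finset.single_le_sum (f := fun j => c i j) (fun j _ => (hc i j).1.le)
    (Finset.mem_range.2 (Nat.lt_succ_of_le hj))

end PHI

theorem st_PHI (hPAR : St_PAR) (hADM : St_ADM) (hDSUP : St_DSUP) : St_PHI := by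
  intro n φ A hA
  obtain ⟨N, C, hC, h⟩ := hDSUP n po (hADM n).2 A hA
  obtain ⟨B, hB, h1⟩ := PHI.bd (𝓕 φ) N
  refine ⟨C * B, mul_nonneg hC hB, fun f g hfg x => iSup₂_le fun t ht => ?_⟩
  rw [(hPAR n φ t ht).1 f g hfg x]
  exact h _ B h1 ((𝓕 φ).memLp 2) g hfg.2.1 x t ht

end Pool.Agent.HP
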