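import Pool.Agent.Lib.HP.Defs

/-! A smooth cut-off at scale `r` around an arbitrary set, with uniform derivative bounds. -/

set_option autoImplicit false

open MeasureTheory Complex Real Filter Topology
open scoped ENNReal ContDiff Convolution

noncomputable section

namespace Pool.Agent.HP

namespace PUB

theorem bound (n k : ℕ) : ∀ (F : Type) [NormedAddCommGroup F] [NormedSpace ℝ F]
    (g : E n → F), ContDiff ℝ ∞ g → HasCompactSupport g → ∃ C : ℝ, 0 ≤ C ∧
      ∀ f : E n → ℝ, LocallyIntegrable f volume → (∀ y, ‖f y‖ ≤ 1) → ∀ x,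
        ‖iteratedFDeriv ℝ k (f ⋆[ContinuousLinearMap.lsmul ℝ ℝ, volume] g) x‖ ≤ C := by
  induction k with
  | zero =>
    intro F _ _ g hg hc
    refine ⟨∫ y, ‖g y‖, integral_nonneg fun y => norm_nonneg _, fun f hf h1 x => ?_⟩
    have hi : Integrable (fun y => ‖g y‖) volume :=
      (hg.continuous.integrable_of_hasCompactSupport hc).norm
    rw [norm_iteratedFDeriv_zero, convolution_def,
      ← integral_sub_left_eq_self (fun y => ‖g y‖) volume x]
    refine norm_integral_le_of_norm_le (hi.comp_sub_left x) (Eventually.of_forall fun y => ?_)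
    rw [ContinuousLinearMap.lsmul_apply, norm_smul]
    exact mul_le_of_le_one_left (norm_nonneg _) (h1 y)
  | succ k ih =>
    intro F _ _ g hg hc
    obtain ⟨C, hC, h⟩ := ih (E n →L[ℝ] F) (fderiv ℝ g) (hg.fderiv_right (m := ∞) (by simp))
      (hc.fderiv ℝ)
    refine ⟨C, hC, fun f hf h1 x => ?_⟩
    have hL : (ContinuousLinearMap.lsmul ℝ ℝ : ℝ →L[ℝ] F →L[ℝ] F).precompR (E n) =
        ContinuousLinearMap.lsmul ℝ ℝ := by
      ext; simp
    have hd : fderiv ℝ (f ⋆[ContinuousLinearMap.lsmul ℝ ℝ, volume] g) =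
        f ⋆[ContinuousLinearMap.lsmul ℝ ℝ, volume] fderiv ℝ g := by
      funext y
      rw [(hc.hasFDerivAt_convolution_right (ContinuousLinearMap.lsmul ℝ ℝ) hf
        (hg.of_le (by simp)) y).fderiv, hL]
    rw [← norm_iteratedFDeriv_fderiv, hd]
    exact h f hf h1 x

end PUB

theorem st_PU : St_PU := by
  intro n N
  let φ : ContDiffBump (0 : E n) := ⟨1 / 2, 1, by norm_num, by norm_num⟩
  let g : E n → ℂ := fun y => (φ.normed volume y : ℂ)
  have hg : ContDiff ℝ ∞ g := Complex.ofRealCLM.contDiff.comp φ.contDiff_normed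
  have hc : HasCompactSupport g :=
    (φ.hasCompactSupport_normed (μ := volume)).comp_left (g := fun x : ℝ => (x : ℂ))
      Complex.ofReal_zero
  have hg0 : ∀ y, 1 ≤ ‖y‖ → g y = 0 := by
    intro y hy
    have : y ∉ Function.support (φ.normed volume) := by
      rw [φ.support_normed_eq, mem_ball_zero_iff]
      exact not_lt.2 hy
    simp only [g, Function.notMem_support.1 this, Complex.ofReal_zero]
  have hg1 : ∫ y, g y = 1 := by
    simp only [g]
    rw [integral_complex_ofReal, φ.integral_normed]
    simp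
  choose C hC h using fun k => PUB.bound n k ℂ g hg hc
  refine ⟨∑ k ∈ Finset.range (N + 1), C k, Finset.sum_nonneg fun k _ => hC k, fun Z r hr => ?_⟩
  let S : Set (E n) := {y | 4 * r ≤ Metric.infDist (r • y) Z}
  have hS : MeasurableSet S :=
    (isClosed_le continuous_const
      ((Metric.continuous_infDist_pt Z).comp (continuous_const_smul r))).measurableSet
  let f : E n → ℝ := S.indicator fun _ => 1
  have hf : LocallyIntegrable f volume := (locallyIntegrable_const (1 : ℝ)).indicator hS
  have hf1 : ∀ y, ‖f y‖ ≤ 1 := fun y => by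
    by_cases hy : y ∈ S <;> simp [f, hy]
  have hs : ContDiff ℝ ∞ (f ⋆[ContinuousLinearMap.lsmul ℝ ℝ, volume] g) :=
    hc.contDiff_convolution_right _ hf hg
  have hdist : ∀ z y : E n, ‖r⁻¹ • z - y‖ < 1 → dist (r • y) z < r := by
    intro z y hy
    have : r • y - z = (-r) • (r⁻¹ • z - y) := by
      rw [smul_sub, smul_smul, neg_mul, mul_inv_cancel₀ hr.ne', neg_smul, neg_smul, one_smul]
      abel
    rw [dist_eq_norm, this, norm_smul, norm_neg, Real.norm_of_nonneg hr.le]
    exact mul_lt_of_lt_one_right hr hy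
  refine ⟨fun z => (f ⋆[ContinuousLinearMap.lsmul ℝ ℝ, volume] g) (r⁻¹ • z),
    hs.comp (contDiff_const_smul _), fun z hz => ?_, fun z hz => ?_, fun k hk z => ?_⟩
  · simp only [convolution_def, ContinuousLinearMap.lsmul_apply]
    refine integral_eq_zero_of_ae (Eventually.of_forall fun y => ?_)
    by_cases hy : ‖r⁻¹ • z - y‖ < 1
    · have h2 := Metric.infDist_le_infDist_add_dist (s := Z) (x := r • y) (y := z)
      have h3 := hdist z y hy
      have : y ∉ S := fun h4 => by
        have h5 : 4 * r ≤ Metric.infDist (r • y) Z := h4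
        linarith
      simp [f, this]
    · simp [hg0 _ (not_lt.1 hy)]
  · simp only [convolution_def, ContinuousLinearMap.lsmul_apply]
    rw [← hg1, ← integral_sub_left_eq_self g volume (r⁻¹ • z)]
    refine integral_congr_ae (Eventually.of_forall fun y => ?_)
    by_cases hy : ‖r⁻¹ • z - y‖ < 1
    · have h2 := Metric.infDist_le_infDist_add_dist (s := Z) (x := z) (y := r • y)
      have h3 := hdist z y hy
      rw [dist_comm] at h3
      have : y ∈ S := by
        change 4 * r ≤ Metric.infDist (r • y) Z
        linarith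
      simp [f, this]
    · simp [hg0 _ (not_lt.1 hy)]
  · rw [iteratedFDeriv_comp_const_smul _ (hs.of_le (by exact_mod_cast le_top))]
    simp only
    rw [norm_smul, norm_pow, Real.norm_of_nonneg (inv_nonneg.2 hr.le), inv_pow, mul_comm,
      ← div_eq_mul_inv]
    refine div_le_div_of_nonneg_right ((h k f hf hf1 _).trans ?_) (pow_nonneg hr.le k)
    exact Finset.single_le_sum (fun j _ => hC j) (Finset.mem_range.2 (by omega))

end Pool.Agent.HP
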