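import Pool.Agent.Lib.HP.Defs

/-! The Fourier transform of a Riesz transform. -/

set_option autoImplicit false

open MeasureTheory Complex Real
open scoped ENNReal SchwartzMap FourierTransform

noncomputable section

namespace Pool.Agent.HP

namespace RSZ

variable {n : ℕ}

theorem four (h : E n → ℂ) (x : E n) :
    ∫ ξ, Complex.exp (-(2 * (π : ℂ) * I * (inner ℝ x ξ : ℂ))) * h ξ = 𝓕 h x := by
  rw [Real.fourier_eq']
  refine integral_congr_ae (Filter.Eventually.of_forall fun ξ => ?_)
  simp only [smul_eq_mul]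
  rw [real_inner_comm]
  congr 2
  push_cast
  ring

theorem norm_rs (j : Fin n) (ξ : E n) : ‖rs j ξ‖ ≤ 1 := by
  have h := abs_real_inner_le_norm ξ (EuclideanSpace.single j (1 : ℝ))
  rw [PiLp.norm_single, norm_one, mul_one] at h
  rw [rs, norm_div, norm_mul, norm_neg, Complex.norm_I, one_mul, Complex.norm_real,
    Complex.norm_real, norm_norm, Real.norm_eq_abs]
  exact div_le_one_of_le₀ h (norm_nonneg _)

theorem meas_rs (j : Fin n) : Measurable (rs j : E n → ℂ) := by
  unfold rs
  fun_prop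

theorem memLp_rs (j : Fin n) {g : E n → ℂ} {p : ℝ≥0∞} (hg : MemLp g p) :
    MemLp (fun ξ => rs j ξ * g ξ) p :=
  hg.of_le ((meas_rs j).aestronglyMeasurable.mul hg.1) (Filter.Eventually.of_forall fun ξ => by
    rw [norm_mul]
    exact mul_le_of_le_one_left (norm_nonneg _) (norm_rs j ξ))

end RSZ

theorem st_RSZ (hHAT : St_HAT) : St_RSZ := by
  intro n j f g R hf hR
  refine ⟨hR.1, RSZ.memLp_rs j hf.2.1, fun ψ => ?_⟩
  have h1 := hR.2 ψ
  simp only [RSZ.four] at h1
  have h2 := (hHAT n).2.2.2.1 f g (fun ξ => rs j ξ * ψ ξ) hf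
    (memLp_one_iff_integrable.1 (RSZ.memLp_rs j (ψ.memLp 1))) (RSZ.memLp_rs j (ψ.memLp 2))
  refine (h1.trans h2).trans (integral_congr_ae (Filter.Eventually.of_forall fun ξ => ?_))
  ring

end Pool.Agent.HP
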