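import Pool.Agent.Lib.HP.Defs

/-! Uniform bounds for the Fourier transforms of normalised bumps. -/

open MeasureTheory SchwartzMap
open scoped ENNReal ContDiff SchwartzMap FourierTransform

noncomputable section

namespace Pool.Agent.HP

theorem st_TST : St_TST := by
  intro n N'
  obtain ⟨s, D, -, hD⟩ := Seminorm.bound_of_continuous (schwartz_withSeminorms ℂ (E n) ℂ)
    (((Finset.Iic (N', N')).sup (schwartzSeminormFamily ℂ (E n) ℂ)).comp
      (fourierTransformCLM ℂ).toLinearMap)
    ((Seminorm.continuous_finsetSup fun i _ =>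
      (schwartz_withSeminorms ℂ (E n) ℂ).continuous_seminorm i).comp
        (fourierTransformCLM ℂ).continuous)
  refine ⟨s.sup fun p => p.2, D, D.2, fun φ hs hB =>
    ⟨(𝓕 φ : 𝓢(E n, ℂ)).smooth ⊤, fun i hi j hj ξ => ?_⟩⟩
  have h1 : s.sup (schwartzSeminormFamily ℂ (E n) ℂ) φ ≤ 1 := by
    refine Seminorm.finset_sup_apply_le zero_le_one fun p hp => ?_
    refine seminorm_le_bound ℂ p.1 p.2 φ zero_le_one fun v => ?_
    rcases le_or_gt ‖v‖ 1 with h | h
    · exact mul_le_one₀ (pow_le_one₀ (norm_nonneg _) h) (norm_nonneg _)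
        (hB _ (Finset.le_sup (f := fun p : ℕ × ℕ => p.2) hp) v)
    · have h2 : tsupport (φ : E n → ℂ) ⊆ {v | ‖v‖ ≤ 1} :=
        closure_minimal (fun w hw => not_lt.1 fun h3 => hw (hs w h3))
          (isClosed_le continuous_norm continuous_const)
      have h3 : iteratedFDeriv ℝ p.2 φ v = 0 := by
        by_contra h4
        exact not_le.2 h (h2 (support_iteratedFDeriv_subset p.2 h4))
      rw [h3, norm_zero, mul_zero]
      exact zero_le_one
  refine (le_seminorm ℂ i j (𝓕 φ : 𝓢(E n, ℂ)) ξ).trans ?_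
  refine (Seminorm.le_finset_sup_apply (p := schwartzSeminormFamily ℂ (E n) ℂ)
    (s := Finset.Iic (N', N')) (i := (i, j)) (Finset.mem_Iic.2 ⟨hi, hj⟩)).trans ?_
  exact (hD φ).trans (mul_le_of_le_one_right D.2 h1)

end Pool.Agent.HP
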