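import Mathlib
import Pool.Agent.Lib.HP.Defs

set_option autoImplicit false

open MeasureTheory Complex Real Filter Topology
open scoped ENNReal ContDiff SchwartzMap FourierTransform

noncomputable section

namespace Pool.Agent.HP

namespace UP

variable {n : ℕ}

/-- a dilate of a Schwartz function is square integrable -/
theorem memLp_dil (σ : 𝓢(E n, ℂ)) {t : ℝ} (ht : t ≠ 0) :
    MemLp (fun ξ => σ (t • ξ)) 2 volume := by
  have h := (SchwartzMap.compCLMOfContinuousLinearEquiv ℝ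
    (ContinuousLinearEquiv.smulLeft (R₁ := ℝ) (M₁ := E n) (Units.mk0 t ht)) σ).memLp 2 volume
  rw [SchwartzMap.compCLMOfContinuousLinearEquiv_apply] at h
  exact h

theorem cont_inv {h : E n → ℂ} (hh : Integrable h volume) : Continuous (𝓕⁻ h) := by
  have h1 : Continuous (𝓕 h) :=
    VectorFourier.fourierIntegral_continuous Real.continuous_fourierChar
      (innerSL ℝ).continuous₂ hh
  have h2 : 𝓕⁻ h = fun w => 𝓕 h (-w) := by
    funext w; exact Real.fourierInv_eq_fourier_neg h w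
  rw [h2]
  exact h1.comp continuous_neg

theorem cont_conv (hPAR : St_PAR) (φ : 𝓢(E n, ℂ)) {f g : E n → ℂ} (hfg : IsHat f g)
    {t : ℝ} (ht : 0 < t) : Continuous (fun x => conv φ f (x, t)) := by
  have h1 : (fun x => conv φ f (x, t)) =
      𝓕⁻ (fun ξ => (𝓕 φ : 𝓢(E n, ℂ)) (t • ξ) * g ξ) := by
    funext x
    rw [(hPAR n φ t ht).1 f g hfg x]
    rfl
  rw [h1]
  exact cont_inv ((memLp_dil (𝓕 φ) ht.ne').integrable_mul hfg.2.1)

theorem lsc_Mx (hPAR : St_PAR) (φ : 𝓢(E n, ℂ)) {f g : E n → ℂ} (hfg : IsHat f g) :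
    LowerSemicontinuous (Mx φ f) := by
  unfold Mx
  refine lowerSemicontinuous_iSup fun t => lowerSemicontinuous_iSup fun ht => ?_
  exact (cont_conv hPAR φ hfg ht).enorm.lowerSemicontinuous

theorem lsc_PS (A : ℝ) (v : Y n → ℂ) : LowerSemicontinuous (PS A v) := by
  unfold PS
  refine lowerSemicontinuous_iSup fun t => lowerSemicontinuous_iSup fun ht =>
    lowerSemicontinuous_iSup fun y => ?_
  apply Continuous.lowerSemicontinuous
  refine (ENNReal.continuous_const_mul enorm_ne_top).comp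
    (ENNReal.continuous_ofReal.comp ?_)
  refine Continuous.rpow_const (by fun_prop) fun x => Or.inl ?_
  have : 0 ≤ ‖y - x‖ / t := by positivity
  linarith

theorem Mx_le_PS (A : ℝ) (φ f : E n → ℂ) (x : E n) : Mx φ f x ≤ PS A (conv φ f) x := by
  unfold Mx PS
  refine iSup₂_le fun t ht => ?_
  refine le_iSup₂_of_le t ht (le_iSup_of_le x ?_)
  simp

theorem le_Mx (hPAR : St_PAR) (hL2C : St_L2C) (φ : 𝓢(E n, ℂ)) (hφ : ∫ x, φ x = 1)
    {f g : E n → ℂ} (hfg : IsHat f g) : ∀ᵐ x, ‖f x‖ₑ ≤ Mx φ f x := by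
  set σ : 𝓢(E n, ℂ) := 𝓕 φ with hσ
  have hpos : ∀ k : ℕ, (0 : ℝ) < 1 / ((k : ℝ) + 1) := fun k => by positivity
  have h0 : σ 0 = 1 := by
    rw [hσ, SchwartzMap.fourier_coe, Real.fourier_eq]
    simpa using hφ
  have hlim : ∀ ξ : E n, Tendsto (fun k : ℕ => σ ((1 / ((k : ℝ) + 1)) • ξ)) atTop (𝓝 1) := by
    intro ξ
    have h1 : Tendsto (fun k : ℕ => (1 / ((k : ℝ) + 1)) • ξ) atTop (𝓝 ((0 : ℝ) • ξ)) :=
      tendsto_one_div_add_atTop_nhds_zero_nat.smul_const ξ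
    rw [zero_smul] at h1
    rw [← h0]
    exact (σ.continuous.tendsto 0).comp h1
  have hhat : IsHat f (fun ξ => (fun _ => (1 : ℂ)) ξ * g ξ) := by
    simpa using hfg
  have hT := hL2C n f g (fun _ => 1) (fun k ξ => σ ((1 / ((k : ℝ) + 1)) • ξ))
    (SchwartzMap.seminorm ℝ 0 0 σ) hfg.2.1 hhat (fun k => memLp_dil σ (hpos k).ne')
    (fun k ξ => σ.norm_le_seminorm ℝ _) (Eventually.of_forall hlim)
  have heq : ∀ (k : ℕ) (x : E n), 𝓕⁻ (fun ξ => σ ((1 / ((k : ℝ) + 1)) • ξ) * g ξ) x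
      = conv φ f (x, 1 / ((k : ℝ) + 1)) := by
    intro k x
    rw [(hPAR n φ _ (hpos k)).1 f g hfg x]
    rfl
  simp only [heq] at hT
  have hm : TendstoInMeasure volume (fun (k : ℕ) x => conv φ f (x, 1 / ((k : ℝ) + 1))) atTop f :=
    tendstoInMeasure_of_tendsto_eLpNorm (p := 2) two_ne_zero
      (fun k => (cont_conv hPAR φ hfg (hpos k)).aestronglyMeasurable) hfg.1.1 hT
  obtain ⟨ns, -, hae⟩ := hm.exists_seq_tendsto_ae
  filter_upwards [hae] with x hx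
  refine le_of_tendsto' hx.enorm fun i => ?_
  unfold Mx
  exact le_iSup₂_of_le (1 / ((ns i : ℝ) + 1)) (hpos _) le_rfl

theorem norm_le {p : ℝ} (hp : 0 < p) {u : E n → ℂ} {M : E n → ℝ≥0∞} {C : ℝ} (hC : 0 ≤ C)
    (h : ∫⁻ x, ‖u x‖ₑ ^ p ≤ ENNReal.ofReal C * ∫⁻ x, M x ^ p) :
    eLpNorm u (ENNReal.ofReal p) volume ≤
      ENNReal.ofReal (C ^ (1 / p)) * eLpNorm M (ENNReal.ofReal p) volume := by
  have h0 : ENNReal.ofReal p ≠ 0 := by simpa using hp
  rw [eLpNorm_eq_lintegral_rpow_enorm_toReal h0 ENNReal.ofReal_ne_top,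
    eLpNorm_eq_lintegral_rpow_enorm_toReal h0 ENNReal.ofReal_ne_top,
    ENNReal.toReal_ofReal hp.le]
  have h1 : (0 : ℝ) ≤ 1 / p := by positivity
  refine (ENNReal.rpow_le_rpow h h1).trans (le_of_eq ?_)
  rw [ENNReal.mul_rpow_of_nonneg _ _ h1, ENNReal.ofReal_rpow_of_nonneg hC h1]
  simp only [enorm_eq_self]

end UP

theorem st_UP (hHAT : St_HAT) (hPAR : St_PAR) (hL2C : St_L2C) (hGRD : St_GRD) (hPEE : St_PEE)
    (hHL : St_HL) (hUPR : St_UPR) : St_UP := by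
  intro n hn p hp hp2 φ hφ
  have hr : 0 < p / 2 := by positivity
  have hA : (0 : ℝ) ≤ ((n : ℝ) + 1) / (p / 2) := by positivity
  have hAr : ((n : ℝ) + 1) / (p / 2) * (p / 2) = (n : ℝ) + 1 := div_mul_cancel₀ _ hr.ne'
  set A : ℝ := ((n : ℝ) + 1) / (p / 2) with hAdef
  obtain ⟨N, C₁, hC₁, hG⟩ := hGRD n φ hφ A hA
  obtain ⟨C₂, hC₂, hU⟩ := hUPR n hn p hp hp2 N
  obtain ⟨C₃, hC₃, hP⟩ := hPEE n hn φ hφ (p / 2) A hr (by linarith) (by rw [hAr]; linarith)
  obtain ⟨C₄, hC₄, hH⟩ := hHL n hn (A * (p / 2)) 2 (by rw [hAr]; linarith) (by norm_num)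
  have hK : 0 ≤ C₂ * ((C₁ + 1) ^ p * (C₃ ^ (2 : ℝ) * C₄)) := by positivity
  refine ⟨1 + n * (C₂ * ((C₁ + 1) ^ p * (C₃ ^ (2 : ℝ) * C₄))) ^ (1 / p), by positivity, ?_⟩
  intro f hf R hR
  obtain ⟨g, hfg⟩ := (hHAT n).1 f hf
  have hM := UP.le_Mx hPAR hL2C φ hφ hfg
  have hmeas : Measurable (Mx φ f) := (UP.lsc_Mx hPAR φ hfg).measurable
  have hPS : ∫⁻ x, PS A (conv φ f) x ^ p ≤
      ENNReal.ofReal (C₃ ^ (2 : ℝ) * C₄) * ∫⁻ x, Mx φ f x ^ p := by
    have h1 : ∀ᵐ x, PS A (conv φ f) x ^ p ≤ ENNReal.ofReal (C₃ ^ (2 : ℝ)) *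
        KM (A * (p / 2)) (fun z => Mx φ f z ^ (p / 2)) x ^ (2 : ℝ) := by
      filter_upwards [hP f hf] with x hx
      have h2 := ENNReal.rpow_le_rpow hx (by norm_num : (0 : ℝ) ≤ 2)
      rw [← ENNReal.rpow_mul, div_mul_cancel₀ p (two_ne_zero), ENNReal.mul_rpow_of_nonneg _ _
        (by norm_num : (0 : ℝ) ≤ 2),
        ENNReal.ofReal_rpow_of_nonneg hC₃ (by norm_num : (0 : ℝ) ≤ 2)] at h2
      exact h2
    refine (lintegral_mono_ae h1).trans ?_
    rw [lintegral_const_mul' _ _ ENNReal.ofReal_ne_top,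
      ENNReal.ofReal_mul (by positivity), mul_assoc]
    refine mul_le_mul_right ?_ _
    refine (hH _ (hmeas.pow_const _).aemeasurable).trans (le_of_eq ?_)
    congr 1
    refine lintegral_congr fun x => ?_
    rw [← ENNReal.rpow_mul, div_mul_cancel₀ p (two_ne_zero)]
  have hle : ∀ x, PS A (conv φ f) x ≤ ENNReal.ofReal (C₁ + 1) * PS A (conv φ f) x := by
    intro x
    refine le_mul_of_one_le_left (by positivity) ?_
    rw [← ENNReal.ofReal_one]
    exact ENNReal.ofReal_le_ofReal (by linarith)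
  have hlsc : LowerSemicontinuous (fun x => ENNReal.ofReal (C₁ + 1) * PS A (conv φ f) x) :=
    (ENNReal.continuous_const_mul ENNReal.ofReal_ne_top).comp_lowerSemicontinuous
      (UP.lsc_PS A _) (fun a b hab => mul_le_mul_right hab _)
  have hRj : ∀ j, ∫⁻ x, ‖R j x‖ₑ ^ p ≤
      ENNReal.ofReal (C₂ * ((C₁ + 1) ^ p * (C₃ ^ (2 : ℝ) * C₄))) * ∫⁻ x, Mx φ f x ^ p := by
    intro j
    have h1 := hU j f (R j) hf (hR j) _ hlsc
      (fun x t ψ ht hψ => (hG f hf x t ψ ht hψ).trans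
        (mul_le_mul_left (ENNReal.ofReal_le_ofReal (by linarith)) _))
      (by
        filter_upwards [hM] with x hx
        exact hx.trans ((UP.Mx_le_PS A _ _ x).trans (hle x)))
    refine h1.trans ?_
    rw [ENNReal.ofReal_mul hC₂, mul_assoc]
    refine mul_le_mul_right ?_ _
    have h2 : ∀ x, (ENNReal.ofReal (C₁ + 1) * PS A (conv φ f) x) ^ p =
        ENNReal.ofReal ((C₁ + 1) ^ p) * PS A (conv φ f) x ^ p := by
      intro x
      rw [ENNReal.mul_rpow_of_nonneg _ _ hp.le,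
        ENNReal.ofReal_rpow_of_nonneg (by linarith) hp.le]
    simp only [h2]
    rw [lintegral_const_mul' _ _ ENNReal.ofReal_ne_top,
      ENNReal.ofReal_mul (by positivity), mul_assoc]
    exact mul_le_mul_right hPS _
  have hf1 : eLpNorm f (ENNReal.ofReal p) volume ≤ eLpNorm (Mx φ f) (ENNReal.ofReal p) volume :=
    eLpNorm_mono_enorm_ae (by simpa using hM)
  have hsum : ∑ j, eLpNorm (R j) (ENNReal.ofReal p) volume ≤
      ∑ _j : Fin n, ENNReal.ofReal ((C₂ * ((C₁ + 1) ^ p * (C₃ ^ (2 : ℝ) * C₄))) ^ (1 / p)) *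
        eLpNorm (Mx φ f) (ENNReal.ofReal p) volume :=
    Finset.sum_le_sum fun j _ => UP.norm_le hp hK (hRj j)
  refine (add_le_add hf1 hsum).trans (le_of_eq ?_)
  rw [Finset.sum_const, Finset.card_univ, Fintype.card_fin, nsmul_eq_mul,
    ENNReal.ofReal_add zero_le_one (by positivity), ENNReal.ofReal_one,
    ENNReal.ofReal_mul (Nat.cast_nonneg n), ENNReal.ofReal_natCast, add_mul, one_mul, mul_assoc]

end Pool.Agent.HP
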