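import Pool.Agent.Lib.HP.Defs

set_option autoImplicit false

open MeasureTheory Complex Real Filter Topology
open scoped ENNReal ContDiff SchwartzMap FourierTransform

noncomputable section

namespace Pool.Agent.HP

theorem st_UPR (hHAT : St_HAT) (hPAR : St_PAR) (hL2C : St_L2C) (hL2B : St_L2B) (hRSZ : St_RSZ)
    (hKER : St_KER) (hCZ : St_CZ) (hLAY : St_LAY) : St_UPR := by
  intro n hn p hp0 hp2 N
  choose B hB K hK1 hK2 hK3 using fun j => hKER n j (N + 1)
  choose C hC hCZ' using fun j => hCZ n hn N (B j) (hB j)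
  choose C' hC' hL using fun j => hLAY n p (C j) hp0 hp2 (hC j)
  refine ⟨∑ j, C' j, Finset.sum_nonneg fun j _ => hC' j, fun j f R hf hR H hH h1 h2 => ?_⟩
  have hc : ∀ L, Continuous (cv (K j L) f) := fun L => (hL2B n (K j L) (B j) (hK2 j L) f hf).1
  have hm : ∀ L, Measurable fun x => ‖cv (K j L) f x‖ₑ := fun L => (hc L).measurable.enorm
  have hb : ∀ L, ∫⁻ x, ‖cv (K j L) f x‖ₑ ^ p ≤ ENNReal.ofReal (C' j) * ∫⁻ x, H x ^ p := fun L =>
    hL j _ H (hm L) hH.measurable fun l hl hv =>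
      hCZ' j (K j L) (hK1 j L) (hK2 j L) f hf H hH h1 h2 l hl hv
  obtain ⟨g, hg⟩ := (hHAT n).1 f hf
  have : Nontrivial (E n) := by
    have : Nonempty (Fin n) := ⟨⟨0, hn⟩⟩
    infer_instance
  have h0 : ∀ᵐ ξ : E n, ξ ≠ 0 := by simp [ae_iff]
  have h3 := hL2C n R g (rs j) (fun L => 𝓕 (K j L : E n → ℂ)) (B j) hg.2.1 (hRSZ n j f g R hg hR)
    (fun L => by
      rw [← SchwartzMap.fourier_coe]
      exact (𝓕 (K j L)).memLp 2 volume) (hK2 j) (h0.mono (hK3 j))
  have h4 : ∀ L x, 𝓕⁻ (fun ξ => 𝓕 (K j L : E n → ℂ) ξ * g ξ) x = cv (K j L) f x := fun L x => by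
    have h5 := (hPAR n (K j L) 1 one_pos).1 f g hg x
    simp only [conv, T, one_pow, inv_one, one_smul, ofReal_one, one_mul] at h5
    exact h5.symm
  simp only [h4] at h3
  obtain ⟨s, -, hs⟩ := (tendstoInMeasure_of_tendsto_eLpNorm (f := fun L => cv (K j L) f) (g := R)
    two_ne_zero (fun L => (hc L).aestronglyMeasurable) hR.1.1 h3).exists_seq_tendsto_ae
  calc ∫⁻ x, ‖R x‖ₑ ^ p = ∫⁻ x, liminf (fun i => ‖cv (K j (s i)) f x‖ₑ ^ p) atTop := by
        refine lintegral_congr_ae (hs.mono fun x hx => ?_)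
        exact ((ENNReal.continuous_rpow_const.tendsto _).comp hx.enorm).liminf_eq.symm
    _ ≤ liminf (fun i => ∫⁻ x, ‖cv (K j (s i)) f x‖ₑ ^ p) atTop :=
        lintegral_liminf_le fun i => (hm _).pow_const p
    _ ≤ ENNReal.ofReal (C' j) * ∫⁻ x, H x ^ p :=
        liminf_le_of_frequently_le' (Frequently.of_forall fun i => hb _)
    _ ≤ _ := by
        gcongr
        exact Finset.single_le_sum (fun i _ => hC' i) (Finset.mem_univ j)

end Pool.Agent.HP
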