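import Pool.Agent.Lib.HP.Base

/-! Bumps and test functions for the Calderon-Zygmund decomposition. -/

set_option autoImplicit false

open MeasureTheory Metric Set
open scoped ENNReal ContDiff

noncomputable section

namespace Pool.Agent.HP.CZ

variable {n : ℕ}

/-- normalised test functions supported in the unit ball -/
def Tst (N : ℕ) (a : E n → ℂ) : Prop :=
  ContDiff ℝ ∞ a ∧ (∀ u, 1 ≤ ‖u‖ → a u = 0) ∧ ∀ m ≤ N, ∀ u, ‖iteratedFDeriv ℝ m a u‖ ≤ 1

/-- all averages of `f` centred outside `Ω` are at most `l` -/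
def Ctl (N : ℕ) (f : E n → ℂ) (Ω : Set (E n)) (l : ℝ) : Prop :=
  ∀ x, x ∉ Ω → ∀ t : ℝ, 0 < t → ∀ a, Tst N a → ‖∫ w, a (t⁻¹ • (w - x)) * f w‖ ≤ l * t ^ n

/-- a bump -/
def bmp (n : ℕ) : ContDiffBump (0 : E n) := ⟨1 / 2, 1, by norm_num, by norm_num⟩

/-- the normalised bump -/
def eta (n : ℕ) (u : E n) : ℝ := (bmp n).normed volume u

theorem eta_nonneg (u : E n) : 0 ≤ eta n u := (bmp n).nonneg_normed u

theorem eta_smooth : ContDiff ℝ ∞ (eta n) := (bmp n).contDiff_normed

theorem eta_zero {u : E n} (h : 1 ≤ ‖u‖) : eta n u = 0 := by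
  by_contra h0
  have h1 : u ∈ Function.support ((bmp n).normed volume) := h0
  rw [(bmp n).support_normed_eq, mem_ball_zero_iff] at h1
  exact absurd h1 (not_lt.2 h)

theorem eta_int : ∫ u, eta n u = 1 := (bmp n).integral_normed

/-- the complex valued bump -/
def etc (n : ℕ) (u : E n) : ℂ := eta n u

theorem etc_smooth : ContDiff ℝ ∞ (etc n) :=
  Complex.ofRealCLM.contDiff.comp eta_smooth

theorem etc_tsupport : tsupport (etc n) ⊆ closedBall 0 1 :=
  closure_minimal (fun u hu => by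
    by_contra h
    rw [mem_closedBall_zero_iff, not_le] at h
    exact hu (by rw [etc, eta_zero h.le, Complex.ofReal_zero])) isClosed_closedBall

theorem etc_far {u : E n} (h : 1 < ‖u‖) (m : ℕ) : iteratedFDeriv ℝ m (etc n) u = 0 := by
  by_contra h0
  have := etc_tsupport (support_iteratedFDeriv_subset m h0)
  rw [mem_closedBall_zero_iff] at this
  exact absurd h (not_lt.2 this)

theorem etc_bd (n N : ℕ) : ∃ D : ℝ, 1 ≤ D ∧ ∀ m ≤ N, ∀ u, ‖iteratedFDeriv ℝ m (etc n) u‖ ≤ D := by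
  have hc : HasCompactSupport (etc n) :=
    (isCompact_closedBall 0 1).of_isClosed_subset isClosed_closure etc_tsupport
  have h : ∀ m : ℕ, ∃ D : ℝ, ∀ u, ‖iteratedFDeriv ℝ m (etc n) u‖ ≤ D := fun m =>
    (etc_smooth.continuous_iteratedFDeriv (by exact_mod_cast le_top)).bounded_above_of_compact_support
      (hc.iteratedFDeriv m)
  choose D hD using h
  refine ⟨1 + ∑ m ∈ Finset.range (N + 1), |D m|, ?_, fun m hm u => ?_⟩
  · have : 0 ≤ ∑ m ∈ Finset.range (N + 1), |D m| := Finset.sum_nonneg fun _ _ => abs_nonneg _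
    linarith
  · have := Finset.single_le_sum (f := fun m => |D m|) (fun _ _ => abs_nonneg _)
      (Finset.mem_range.2 (Nat.lt_succ_of_le hm))
    have h1 := (hD m u).trans (le_abs_self _)
    linarith

theorem aff_smooth {g : E n → ℂ} (hg : ContDiff ℝ ∞ g) (c : E n) (t : ℝ) :
    ContDiff ℝ ∞ fun u => g (c + t • u) :=
  hg.comp (contDiff_const.add (contDiff_id.const_smul t))

theorem aff_norm {g : E n → ℂ} (hg : ContDiff ℝ ∞ g) (m : ℕ) (c : E n) (t : ℝ)
    (u : E n) : ‖iteratedFDeriv ℝ m (fun u => g (c + t • u)) u‖ =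
      |t| ^ m * ‖iteratedFDeriv ℝ m g (c + t • u)‖ := by
  have h1 : ContDiff ℝ m fun v => g (c + v) :=
    (hg.of_le (by exact_mod_cast le_top)).comp (contDiff_const.add contDiff_id)
  have h2 := congrFun (iteratedFDeriv_comp_const_smul t h1) u
  rw [h2, norm_smul, norm_pow, Real.norm_eq_abs, iteratedFDeriv_comp_add_left]

theorem mul_bd {N : ℕ} {g h : E n → ℂ} (hg : ContDiff ℝ ∞ g) (hh : ContDiff ℝ ∞ h) {u : E n}
    {C : ℝ} (H : ∀ i ≤ N, ∀ j ≤ N, ‖iteratedFDeriv ℝ i g u‖ * ‖iteratedFDeriv ℝ j h u‖ ≤ C)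
    {m : ℕ} (hm : m ≤ N) : ‖iteratedFDeriv ℝ m (fun u => g u * h u) u‖ ≤ 2 ^ N * C := by
  have hC : 0 ≤ C := le_trans (by positivity) (H 0 (Nat.zero_le _) 0 (Nat.zero_le _))
  refine (norm_iteratedFDeriv_mul_le hg hh u (by exact_mod_cast le_top)).trans ?_
  calc _ ≤ ∑ i ∈ Finset.range (m + 1), (m.choose i : ℝ) * C := by
        refine Finset.sum_le_sum fun i hi => ?_
        rw [mul_assoc]
        have hi' : i ≤ m := Nat.lt_succ_iff.1 (Finset.mem_range.1 hi)
        exact mul_le_mul_of_nonneg_left (H i (hi'.trans hm) _ ((Nat.sub_le _ _).trans hm))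
          (Nat.cast_nonneg _)
    _ = 2 ^ m * C := by
        rw [← Finset.sum_mul, ← Nat.cast_sum, Nat.sum_range_choose]
        norm_num
    _ ≤ 2 ^ N * C := by gcongr; norm_num

theorem Ctl.scale {N : ℕ} {f : E n → ℂ} {Ω : Set (E n)} {l : ℝ} (H : Ctl N f Ω l) {x : E n}
    (hx : x ∉ Ω) {t : ℝ} (ht : 0 < t) {a : E n → ℂ} (h1 : ContDiff ℝ ∞ a)
    (h2 : ∀ u, 1 ≤ ‖u‖ → a u = 0) {c : ℝ} (hc : 0 < c)
    (h3 : ∀ m ≤ N, ∀ u, ‖iteratedFDeriv ℝ m a u‖ ≤ c) :
    ‖∫ w, a (t⁻¹ • (w - x)) * f w‖ ≤ c * (l * t ^ n) := by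
  have h4 : Tst N fun u => c⁻¹ • a u := by
    refine ⟨h1.const_smul _, fun u hu => by simp [h2 u hu], fun m hm u => ?_⟩
    rw [iteratedFDeriv_const_smul_apply' ((h1.of_le (by exact_mod_cast le_top)).contDiffAt),
      norm_smul, Real.norm_eq_abs, abs_of_pos (inv_pos.2 hc), inv_mul_le_iff₀ hc, mul_one]
    exact h3 m hm u
  have h5 := H x hx t ht _ h4
  simp only [smul_mul_assoc] at h5
  rw [integral_smul, norm_smul, Real.norm_eq_abs, abs_of_pos (inv_pos.2 hc),
    inv_mul_le_iff₀ hc] at h5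
  exact h5

/-- The basic estimate for a product of a multiplier and two bumps. -/
theorem two_bumps (n N : ℕ) : ∃ C : ℝ, 0 < C ∧ ∀ (f : E n → ℂ) (Ω : Set (E n)) (l : ℝ),
    Ctl N f Ω l → ∀ (m : E n → ℂ) (x y z : E n) (r ρ M : ℝ), ContDiff ℝ ∞ m → x ∉ Ω → 0 < r →
    0 < M → ‖y - x‖ ≤ 4 * r → r / 4 ≤ ρ →
    (∀ j ≤ N, ∀ w, ‖y - w‖ ≤ r / 8 → r ^ j * ‖iteratedFDeriv ℝ j m w‖ ≤ M) →
    ‖∫ w, m w * etc n ((r / 8)⁻¹ • (y - w)) * etc n (ρ⁻¹ • (z - w)) * f w‖ ≤
      C * M * (l * r ^ n) := by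
  obtain ⟨D, hD1, hD⟩ := etc_bd n N
  refine ⟨2 ^ N * (2 ^ N * (5 ^ N * (40 ^ N * D)) * (40 ^ N * D)) * 5 ^ n, by positivity, ?_⟩
  intro f Ω l H m x y z r ρ M hm hx hr hM hy hρ hb
  have hρ0 : 0 < ρ := by linarith
  have hb2 : ∀ (c : E n) (s : ℝ), |s| ≤ 40 → ∀ j ≤ N, ∀ u,
      ‖iteratedFDeriv ℝ j (fun u => etc n (c + s • u)) u‖ ≤ 40 ^ N * D := by
    intro c s hs j hj u
    rw [aff_norm etc_smooth]
    exact mul_le_mul ((pow_le_pow_left₀ (abs_nonneg _) hs j).trans
      (pow_le_pow_right₀ (by norm_num) hj)) (hD j hj _) (norm_nonneg _) (by positivity)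
  have e1 : ∀ u : E n, (r / 8)⁻¹ • (y - x) + (-40 : ℝ) • u =
      (r / 8)⁻¹ • (y - (x + (5 * r) • u)) := by
    intro u
    have : (r / 8)⁻¹ * (5 * r) = 40 := by field_simp; norm_num
    rw [← sub_sub, smul_sub _ (y - x), smul_smul, this, neg_smul, ← sub_eq_add_neg]
  have e2 : ∀ u : E n, ρ⁻¹ • (z - x) + (-(ρ⁻¹ * (5 * r))) • u =
      ρ⁻¹ • (z - (x + (5 * r) • u)) := by
    intro u
    rw [← sub_sub, smul_sub _ (z - x), smul_smul, neg_smul, ← sub_eq_add_neg]
  have n1 : ∀ v : E n, ‖(r / 8)⁻¹ • v‖ = ‖v‖ / (r / 8) := fun v => by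
    rw [norm_smul, Real.norm_eq_abs, abs_of_pos (by positivity), div_eq_inv_mul ‖v‖]
  have s1 := aff_smooth hm x (5 * r)
  have s2 := aff_smooth (etc_smooth (n := n)) ((r / 8)⁻¹ • (y - x)) (-40)
  have s3 := aff_smooth (etc_smooth (n := n)) (ρ⁻¹ • (z - x)) (-(ρ⁻¹ * (5 * r)))
  have key := H.scale hx (t := 5 * r) (by positivity) ((s1.mul s2).mul s3)
    (c := 2 ^ N * (2 ^ N * (5 ^ N * M * (40 ^ N * D)) * (40 ^ N * D))) (fun u hu => by
      have h1 : 1 ≤ ‖(r / 8)⁻¹ • (y - (x + (5 * r) • u))‖ := by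
        rw [n1, le_div_iff₀ (by positivity)]
        have h2 : ‖(5 * r) • u‖ ≤ ‖y - x‖ + ‖y - (x + (5 * r) • u)‖ := by
          have : (5 * r) • u = (y - x) - (y - (x + (5 * r) • u)) := by abel
          exact (congrArg norm this).trans_le (norm_sub_le _ _)
        rw [norm_smul, Real.norm_eq_abs, abs_of_pos (by positivity)] at h2
        nlinarith
      simp only [e1, etc, eta_zero h1, Complex.ofReal_zero, mul_zero, zero_mul])
    (by positivity) (fun j hj u => by
      refine mul_bd (s1.mul s2) s3 (fun i hi j hj => ?_) hj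
      refine mul_le_mul (mul_bd s1 s2 (fun i hi j hj => ?_) hi) (hb2 _ _ ?_ j hj u)
        (norm_nonneg _) (by positivity)
      · by_cases h : ‖y - (x + (5 * r) • u)‖ ≤ r / 8
        · refine mul_le_mul ?_ (hb2 _ _ (by norm_num) j hj u) (norm_nonneg _) (by positivity)
          rw [aff_norm hm, abs_of_pos (by positivity), mul_pow, mul_assoc]
          exact mul_le_mul (pow_le_pow_right₀ (by norm_num) hi) (hb i hi _ h) (by positivity)
            (by positivity)
        · rw [aff_norm etc_smooth, e1, etc_far, norm_zero, mul_zero, mul_zero]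
          · positivity
          · rw [n1, lt_div_iff₀ (by positivity)]
            linarith [not_le.1 h]
      · rw [abs_neg, abs_of_pos (by positivity), inv_mul_le_iff₀ hρ0]
        linarith)
  have e3 : ∀ w : E n, x + (5 * r) • (5 * r)⁻¹ • (w - x) = w := fun w => by
    rw [smul_inv_smul₀ (by positivity), add_sub_cancel]
  simp only [e1, e2, e3] at key
  refine key.trans (le_of_eq ?_)
  rw [mul_pow]
  ring

/-- the bump at scale `r`, of integral one -/
def er (n : ℕ) (r : ℝ) (u : E n) : ℝ := (r ^ n)⁻¹ * eta n (r⁻¹ • u)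

theorem er_nonneg {r : ℝ} (hr : 0 < r) (u : E n) : 0 ≤ er n r u :=
  mul_nonneg (by positivity) (eta_nonneg _)

theorem er_cont (r : ℝ) : Continuous (er n r) :=
  continuous_const.mul (eta_smooth.continuous.comp (continuous_const_smul _))

theorem er_zero {r : ℝ} (hr : 0 < r) {u : E n} (h : r ≤ ‖u‖) : er n r u = 0 := by
  rw [er, eta_zero, mul_zero]
  rw [norm_smul, Real.norm_eq_abs, abs_of_pos (inv_pos.2 hr), le_inv_mul_iff₀ hr, mul_one]
  exact h

theorem er_supp {r : ℝ} (hr : 0 < r) : HasCompactSupport (er n r) :=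
  HasCompactSupport.intro (isCompact_closedBall 0 r) fun _ hu =>
    er_zero hr (not_le.1 (mem_closedBall_zero_iff.not.1 hu)).le

theorem er_integrable {r : ℝ} (hr : 0 < r) : Integrable (er n r) :=
  (er_cont r).integrable_of_hasCompactSupport (er_supp hr)

theorem er_int {r : ℝ} (hr : 0 < r) (w : E n) : ∫ z, er n r (z - w) = 1 := by
  rw [integral_sub_right_eq_self (er n r) w]
  unfold er
  rw [integral_const_mul, Measure.integral_comp_inv_smul_of_nonneg _ _ hr.le, eta_int,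
    finrank_euclideanSpace_fin, smul_eq_mul, mul_one, inv_mul_cancel₀ (by positivity)]

/-- the regularised indicator -/
def th (A : Set (E n)) (ρ : ℝ) (w : E n) : ℝ := ∫ z in A, er n ρ (z - w)

theorem th_nonneg (A : Set (E n)) {ρ : ℝ} (hρ : 0 < ρ) (w : E n) : 0 ≤ th A ρ w :=
  integral_nonneg fun _ => er_nonneg hρ _

theorem th_le (A : Set (E n)) {ρ : ℝ} (hρ : 0 < ρ) (w : E n) : th A ρ w ≤ 1 := by
  rw [← er_int hρ w]
  exact setIntegral_le_integral ((er_integrable hρ).comp_sub_right w)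
    (Filter.Eventually.of_forall fun _ => er_nonneg hρ _)

theorem th_meas (A : Set (E n)) (ρ : ℝ) : StronglyMeasurable (th A ρ) :=
  StronglyMeasurable.integral_prod_right (f := fun w z => er n ρ (z - w))
    ((er_cont ρ).comp (continuous_snd.sub continuous_fst)).stronglyMeasurable

theorem th_zero {A : Set (E n)} {ρ : ℝ} (hρ : 0 < ρ) {w : E n}
    (h : ∀ z ∈ A, ρ ≤ ‖z - w‖) : th A ρ w = 0 :=
  setIntegral_eq_zero_of_forall_eq_zero fun z hz => er_zero hρ (h z hz)

theorem th_one {A : Set (E n)} {ρ : ℝ} (hρ : 0 < ρ) {w : E n}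
    (h : ∀ z, ‖z - w‖ < ρ → z ∈ A) : th A ρ w = 1 := by
  rw [← er_int hρ w]
  exact setIntegral_eq_integral_of_forall_compl_eq_zero fun z hz =>
    er_zero hρ (not_lt.1 fun h1 => hz (h z h1))

theorem loc_int {m f : E n → ℂ} (hm : Continuous m) (hf : LocallyIntegrable f) {r : ℝ}
    (hr : 0 < r) (y : E n) : Integrable fun w => m w * er n r (y - w) * f w := by
  refine hf.integrable_smul_left_of_hasCompactSupport (g := fun w => m w * er n r (y - w))
    (hm.mul (Complex.continuous_ofReal.comp ((er_cont r).comp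
      (continuous_const.sub continuous_id)))) ?_
  refine HasCompactSupport.intro (isCompact_closedBall y r) fun u hu => ?_
  rw [mem_closedBall', dist_eq_norm, not_le] at hu
  simp [er_zero hr hu.le]

/-- The estimate with a regularised indicator. -/
theorem bump_th (n N : ℕ) : ∃ C : ℝ, 0 < C ∧ ∀ (f : E n → ℂ) (Ω : Set (E n)) (l : ℝ),
    LocallyIntegrable f → 0 ≤ l → Ctl N f Ω l → ∀ (m : E n → ℂ) (x y : E n) (r ρ M : ℝ)
    (A : Set (E n)), MeasurableSet A → ContDiff ℝ ∞ m → x ∉ Ω → 0 < r → 0 < M →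
    ‖y - x‖ ≤ 4 * r → r / 4 ≤ ρ → ρ ≤ r / 2 →
    (∀ j ≤ N, ∀ w, ‖y - w‖ ≤ r / 8 → r ^ j * ‖iteratedFDeriv ℝ j m w‖ ≤ M) →
    ‖∫ w, m w * er n (r / 8) (y - w) * (th A ρ w * f w)‖ ≤ C * M * l := by
  obtain ⟨C, hC, H⟩ := two_bumps n N
  have hv : 0 < volume.real (ball (0 : E n) 1) :=
    ENNReal.toReal_pos (measure_ball_pos _ _ one_pos).ne' measure_ball_lt_top.ne
  refine ⟨C * 32 ^ n * volume.real (ball (0 : E n) 1), by positivity, ?_⟩
  intro f Ω l hf hl hc m x y r ρ M A hA hm hx hr hM hy h1 h2 hb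
  have hρ : 0 < ρ := by linarith
  have hr8 : 0 < r / 8 := by positivity
  have i1 := loc_int hm.continuous hf hr8 y
  have i2 : Integrable (fun p : E n × E n => (m p.2 * er n (r / 8) (y - p.2) * f p.2) *
      (er n ρ (p.1 - p.2) : ℂ)) ((volume.restrict A).prod volume) := by
    have := i1.convolution_integrand (ContinuousLinearMap.mul ℝ ℂ) (μ := volume)
      (er_integrable (n := n) hρ).ofReal
    exact this.mono_measure (Measure.prod_mono Measure.restrict_le_self le_rfl)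
  have e1 : ∫ w, m w * er n (r / 8) (y - w) * (th A ρ w * f w) =
      ∫ z in A, ∫ w, (m w * er n (r / 8) (y - w) * f w) * (er n ρ (z - w) : ℂ) := by
    rw [integral_integral_swap i2]
    refine integral_congr_ae (Filter.Eventually.of_forall fun w => ?_)
    simp only [integral_const_mul, integral_complex_ofReal, th]
    ring
  have b1 : ∀ z, ‖∫ w, (m w * er n (r / 8) (y - w) * f w) * (er n ρ (z - w) : ℂ)‖ ≤
      (ball y r).indicator (fun _ => C * 32 ^ n * M * l * (r ^ n)⁻¹) z := by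
    intro z
    by_cases hz : z ∈ ball y r
    · rw [indicator_of_mem hz]
      have e2 : ∀ w, (m w * er n (r / 8) (y - w) * f w) * (er n ρ (z - w) : ℂ) =
          (((r / 8) ^ n)⁻¹ * (ρ ^ n)⁻¹ : ℝ) • (m w * etc n ((r / 8)⁻¹ • (y - w)) *
            etc n (ρ⁻¹ • (z - w)) * f w) := fun w => by
        simp only [er, etc, Complex.real_smul]
        push_cast
        ring
      simp only [e2]
      rw [integral_smul, norm_smul, Real.norm_eq_abs, abs_of_pos (by positivity)]
      have h3 : (ρ ^ n)⁻¹ ≤ ((r / 4) ^ n)⁻¹ := by gcongr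
      calc _ ≤ ((r / 8) ^ n)⁻¹ * ((r / 4) ^ n)⁻¹ * (C * M * (l * r ^ n)) := by
            gcongr
            exact H f Ω l hc m x y z r ρ M hm hx hr hM hy h1 hb
        _ = _ := by
            rw [show (32 : ℝ) = 8 * 4 by norm_num, mul_pow, div_pow, div_pow]
            field_simp
    · rw [indicator_of_notMem hz, norm_le_zero_iff]
      refine integral_eq_zero_of_ae (Filter.Eventually.of_forall fun w => ?_)
      rw [mem_ball, dist_eq_norm, not_lt] at hz
      by_cases hw : r / 8 ≤ ‖y - w‖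
      · simp [er_zero hr8 hw]
      · have h3 : ‖z - y‖ ≤ ‖z - w‖ + ‖y - w‖ := by
          have : z - y = (z - w) - (y - w) := by abel
          exact (congrArg norm this).trans_le (norm_sub_le _ _)
        have h4 : ρ ≤ ‖z - w‖ := by linarith [not_le.1 hw]
        simp [er_zero hρ h4]
  have i3 : Integrable ((ball y r).indicator fun _ : E n => C * 32 ^ n * M * l * (r ^ n)⁻¹) :=
    (integrableOn_const measure_ball_lt_top.ne).integrable_indicator measurableSet_ball
  rw [e1]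
  refine (norm_integral_le_of_norm_le i3.integrableOn (Filter.Eventually.of_forall b1)).trans ?_
  refine (setIntegral_le_integral i3 (Filter.Eventually.of_forall fun z =>
    indicator_nonneg (fun _ _ => by positivity) z)).trans (le_of_eq ?_)
  rw [integral_indicator_const _ measurableSet_ball, measureReal_def,
    Measure.addHaar_ball_of_pos _ _ hr, ENNReal.toReal_mul, ENNReal.toReal_ofReal (by positivity),
    finrank_euclideanSpace_fin, smul_eq_mul, ← measureReal_def]
  field_simp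

end Pool.Agent.HP.CZ
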