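import Pool.Agent.Lib.HP.CZ1

/-! The pieces of the Calderon-Zygmund decomposition at one scale. -/

set_option autoImplicit false

open MeasureTheory Metric Set
open scoped ENNReal ContDiff

noncomputable section

namespace Pool.Agent.HP.CZ

variable {n : ℕ}

theorem kern_bd {N : ℕ} (hN : 1 ≤ N) {B : ℝ} {K : E n → ℂ} (hK : ContDiff ℝ ∞ K)
    (hB : ∀ m, 1 ≤ m → m ≤ N → ∀ x, ‖iteratedFDeriv ℝ m K x‖ * ‖x‖ ^ (n + m) ≤ B)
    {x y : E n} {r : ℝ} (hr : 0 < r) (h : r / 2 ≤ ‖x - y‖) (j : ℕ) (hj : j ≤ N) (w : E n)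
    (hw : ‖y - w‖ ≤ r / 8) : r ^ j * ‖iteratedFDeriv ℝ j (fun w => K (x - w) - K (x - y)) w‖ ≤
      B * 2 ^ (n + 2 * N) * (r / ‖x - y‖ ^ (n + 1)) := by
  set s := ‖x - y‖ with hs
  have hs0 : 0 < s := by linarith
  have hB0 : 0 ≤ B := le_trans (by positivity) (hB 1 le_rfl hN 0)
  have e0 : (fun w => K (x - w)) = fun w => K (x + (-1 : ℝ) • w) := by
    funext w
    rw [neg_one_smul, sub_eq_add_neg]
  have s0 : ContDiff ℝ ∞ fun w => K (x - w) := e0 ▸ aff_smooth hK x (-1)
  have h1 : ∀ i, 1 ≤ i → i ≤ N → ∀ w, ‖y - w‖ ≤ r / 8 →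
      ‖iteratedFDeriv ℝ i (fun w => K (x - w)) w‖ ≤ B * 2 ^ (n + i) / s ^ (n + i) := by
    intro i hi hi' w hw
    rw [e0, aff_norm hK, abs_neg, abs_one, one_pow, one_mul, neg_one_smul, ← sub_eq_add_neg,
      le_div_iff₀ (by positivity)]
    have h2 : s ≤ ‖x - w‖ + ‖y - w‖ := by
      have : x - y = (x - w) - (y - w) := by abel
      exact (congrArg norm this).trans_le (norm_sub_le _ _)
    have h3 : s ≤ ‖x - w‖ * 2 := by linarith
    calc _ ≤ ‖iteratedFDeriv ℝ i K (x - w)‖ * (‖x - w‖ * 2) ^ (n + i) := by gcongr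
      _ = ‖iteratedFDeriv ℝ i K (x - w)‖ * ‖x - w‖ ^ (n + i) * 2 ^ (n + i) := by
        rw [mul_pow, mul_assoc]
      _ ≤ _ := by gcongr; exact hB i hi hi' _
  rcases Nat.eq_zero_or_pos j with rfl | hj0
  · rw [pow_zero, one_mul, norm_iteratedFDeriv_zero]
    have h2 := (convex_closedBall y (r / 8)).norm_image_sub_le_of_norm_fderiv_le (𝕜 := ℝ)
      (f := fun w => K (x - w)) (C := B * 2 ^ (n + 1) / s ^ (n + 1))
      (fun v _ => (s0.differentiable (by simp)).differentiableAt)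
      (fun v hv => by
        rw [← norm_iteratedFDeriv_one]
        exact h1 1 le_rfl hN v (by rwa [mem_closedBall', dist_eq_norm] at hv))
      (mem_closedBall_self (by positivity)) (y := w)
      (by rwa [mem_closedBall', dist_eq_norm])
    refine h2.trans ?_
    rw [norm_sub_rev w]
    calc _ ≤ B * 2 ^ (n + 2 * N) / s ^ (n + 1) * r := by
          gcongr
          · norm_num
          · omega
          · linarith
      _ = _ := by ring
  · have h2 : iteratedFDeriv ℝ j (fun w => K (x - w) - K (x - y)) w =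
        iteratedFDeriv ℝ j (fun w => K (x - w)) w := by
      rw [fun_iteratedFDeriv_sub_apply (s0.of_le (by exact_mod_cast le_top)).contDiffAt
        contDiffAt_const, iteratedFDeriv_const_of_ne hj0.ne', Pi.zero_apply, sub_zero]
    obtain ⟨i, rfl⟩ := Nat.exists_eq_add_of_le' hj0
    rw [h2]
    calc _ ≤ (r * (2 * s) ^ i) * (B * 2 ^ (n + (i + 1)) / s ^ (n + (i + 1))) := by
          refine mul_le_mul ?_ (h1 _ hj0 hj w hw) (norm_nonneg _) (by positivity)
          rw [pow_succ']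
          gcongr
          linarith
      _ = B * 2 ^ (n + 2 * i + 1) * (r / s ^ (n + 1)) := by
          field_simp
          ring
      _ ≤ _ := mul_le_mul_of_nonneg_right (mul_le_mul_of_nonneg_left
          (pow_le_pow_right₀ (by norm_num) (by omega)) hB0) (by positivity)

/-- distance to the complement -/
def dl (Ω : Set (E n)) (w : E n) : ℝ := infDist w Ωᶜ

/-- regularised indicator of the points at distance more than `r` from the complement -/
def tha (Ω : Set (E n)) (r : ℝ) : E n → ℝ := th {w | r < dl Ω w} (r / 4)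

/-- the piece of the partition of unity at scale `r` -/
def chi (Ω : Set (E n)) (r : ℝ) (w : E n) : ℝ := tha Ω r w - tha Ω (2 * r) w

/-- the points at distance about `r` from the complement -/
def sh (Ω : Set (E n)) (r : ℝ) : Set (E n) := {y | r / 2 < dl Ω y ∧ dl Ω y < 3 * r}

variable {Ω : Set (E n)} {r : ℝ}

theorem dl_cont (Ω : Set (E n)) : Continuous (dl Ω) := continuous_infDist_pt _

theorem dl_le (Ω : Set (E n)) (w z : E n) : dl Ω w ≤ dl Ω z + ‖w - z‖ := by
  rw [← dist_eq_norm]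
  exact infDist_le_infDist_add_dist

theorem sh_meas (Ω : Set (E n)) (r : ℝ) : MeasurableSet (sh Ω r) :=
  ((isOpen_lt continuous_const (dl_cont Ω)).inter
    (isOpen_lt (dl_cont Ω) continuous_const)).measurableSet

theorem sh_sub (hr : 0 < r) : sh Ω r ⊆ Ω := fun y hy => by
  by_contra h
  have h1 : dl Ω y = 0 := infDist_zero_of_mem h
  linarith [hy.1]

theorem tha_zero (hr : 0 < r) {w : E n} (h : dl Ω w ≤ 3 * r / 4) : tha Ω r w = 0 :=
  th_zero (by positivity) fun z hz => by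
    have h1 := dl_le Ω z w
    have h2 : r < dl Ω z := hz
    linarith

theorem tha_one (hr : 0 < r) {w : E n} (h : 5 * r / 4 ≤ dl Ω w) : tha Ω r w = 1 :=
  th_one (by positivity) fun z hz => by
    have h1 := dl_le Ω w z
    rw [norm_sub_rev] at h1
    change r < dl Ω z
    linarith

theorem tha_nonneg (hr : 0 < r) (w : E n) : 0 ≤ tha Ω r w := th_nonneg _ (by positivity) w

theorem tha_le (hr : 0 < r) (w : E n) : tha Ω r w ≤ 1 := th_le _ (by positivity) w

theorem memLp_mul {θ : E n → ℝ} (h : StronglyMeasurable θ) {c : ℝ} (hc : ∀ w, |θ w| ≤ c)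
    {f : E n → ℂ} (hf : MemLp f 2) : MemLp (fun w => (θ w : ℂ) * f w) 2 :=
  (hf.const_mul (c : ℂ)).of_le ((Complex.continuous_ofReal.comp_stronglyMeasurable
    h).aestronglyMeasurable.mul hf.1) (Filter.Eventually.of_forall fun w => by
      rw [norm_mul, norm_mul, Complex.norm_real, Complex.norm_real]
      exact mul_le_mul_of_nonneg_right ((hc w).trans (le_abs_self c)) (norm_nonneg _))

theorem tha_memLp (hr : 0 < r) {f : E n → ℂ} (hf : MemLp f 2) :
    MemLp (fun w => (tha Ω r w : ℂ) * f w) 2 :=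
  memLp_mul (th_meas _ _) (c := 1)
    (fun w => abs_le.2 ⟨le_trans (by norm_num) (tha_nonneg (Ω := Ω) hr w), tha_le hr w⟩) hf

theorem chi_memLp (hr : 0 < r) {f : E n → ℂ} (hf : MemLp f 2) :
    MemLp (fun w => (chi Ω r w : ℂ) * f w) 2 := by
  have := (tha_memLp (Ω := Ω) hr hf).sub (tha_memLp (Ω := Ω) (r := 2 * r) (by positivity) hf)
  refine (memLp_congr_ae (Filter.Eventually.of_forall fun w => ?_)).1 this
  simp [chi, sub_mul]

theorem er_chi (hr : 0 < r) {y : E n} (hy : y ∉ sh Ω r) (w : E n) :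
    (er n (r / 8) (y - w) : ℂ) * chi Ω r w = 0 := by
  by_cases hw : r / 8 ≤ ‖y - w‖
  · simp [er_zero (by positivity : 0 < r / 8) hw]
  · rw [not_le] at hw
    have h1 := dl_le Ω y w
    have h2 := dl_le Ω w y
    rw [norm_sub_rev] at h2
    rcases not_and_or.1 hy with h | h
    · rw [not_lt] at h
      rw [chi, tha_zero hr (by linarith), tha_zero (by positivity) (by linarith)]
      simp
    · rw [not_lt] at h
      rw [chi, tha_one hr (by linarith), tha_one (by positivity) (by linarith)]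
      simp

theorem chi_bd (n N : ℕ) : ∃ C : ℝ, 0 < C ∧ ∀ (f : E n → ℂ) (Ω : Set (E n)) (l : ℝ),
    MemLp f 2 → 0 ≤ l → Ctl N f Ω l → Ωᶜ.Nonempty → ∀ (m : E n → ℂ) (y : E n) (r M : ℝ),
    ContDiff ℝ ∞ m → 0 < r → (y ∈ sh Ω r → 0 < M ∧
      ∀ j ≤ N, ∀ w, ‖y - w‖ ≤ r / 8 → r ^ j * ‖iteratedFDeriv ℝ j m w‖ ≤ M) →
    ‖∫ w, m w * er n (r / 8) (y - w) * (chi Ω r w * f w)‖ ≤
      (sh Ω r).indicator (fun _ => C * M * l) y := by
  obtain ⟨C, hC, H⟩ := bump_th n N
  refine ⟨2 * C, by positivity, fun f Ω l hf hl hc hne m y r M hm hr hb => ?_⟩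
  by_cases hy : y ∈ sh Ω r
  · obtain ⟨hM, hb⟩ := hb hy
    rw [indicator_of_mem hy]
    obtain ⟨x, hx, hxy⟩ := (infDist_lt_iff hne).1 hy.2
    rw [dist_eq_norm] at hxy
    have hA : ∀ s : ℝ, MeasurableSet {w | s < dl Ω w} := fun s =>
      (isOpen_lt continuous_const (dl_cont Ω)).measurableSet
    have hf' := hf.locallyIntegrable (by norm_num)
    have h1 := H f Ω l hf' hl hc m x y r (r / 4) M _ (hA r) hm hx hr hM (by linarith) le_rfl
      (by linarith) hb
    have h2 := H f Ω l hf' hl hc m x y r (2 * r / 4) M _ (hA (2 * r)) hm hx hr hM (by linarith)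
      (by linarith) (by linarith) hb
    have i1 := loc_int hm.continuous ((tha_memLp (Ω := Ω) hr hf).locallyIntegrable (by norm_num))
      (by positivity : 0 < r / 8) y
    have i2 := loc_int hm.continuous ((tha_memLp (Ω := Ω) (r := 2 * r) (by positivity)
      hf).locallyIntegrable (by norm_num)) (by positivity : 0 < r / 8) y
    have e1 : ∀ w, m w * er n (r / 8) (y - w) * (chi Ω r w * f w) =
        m w * er n (r / 8) (y - w) * (tha Ω r w * f w) -
          m w * er n (r / 8) (y - w) * (tha Ω (2 * r) w * f w) := fun w => by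
      rw [chi]
      push_cast
      ring
    simp only [e1]
    rw [integral_sub i1 i2]
    refine (norm_sub_le _ _).trans ((add_le_add h1 h2).trans (le_of_eq ?_))
    ring
  · rw [indicator_of_notMem hy, norm_le_zero_iff]
    refine integral_eq_zero_of_ae (Filter.Eventually.of_forall fun w => ?_)
    have := er_chi hr hy w
    change _ = (0 : ℂ)
    linear_combination m w * f w * this

/-- the good part at scale `r` -/
def cf (Ω : Set (E n)) (r : ℝ) (f : E n → ℂ) (y : E n) : ℂ :=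
  ∫ w, er n (r / 8) (y - w) * (chi Ω r w * f w)

theorem cf_cont (hr : 0 < r) {f : E n → ℂ} (hf : MemLp f 2) : Continuous (cf Ω r f) := by
  have := (er_supp (n := n) (by positivity : 0 < r / 8)).continuous_convolution_right
    (ContinuousLinearMap.lsmul ℝ ℝ).flip
    ((chi_memLp (Ω := Ω) hr hf).locallyIntegrable (by norm_num)) (er_cont _)
  exact this

theorem ker_nonneg (a : ℝ) (hr : 0 < r) (u : E n) : 0 ≤ ker n a r u := by
  unfold ker
  positivity

theorem le_ker (hr : 0 < r) {u : E n} (h : r / 2 ≤ ‖u‖) :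
    r / ‖u‖ ^ (n + 1) ≤ 3 ^ (n + 1) * ker n ((n + 1 : ℕ) : ℝ) r u := by
  have h0 : 0 < ‖u‖ := by linarith
  rw [ker, Real.rpow_neg (by positivity), Real.rpow_natCast]
  have h1 : 1 + ‖u‖ / r ≤ 3 * (‖u‖ / r) := by
    have : 1 / 2 ≤ ‖u‖ / r := by rw [le_div_iff₀ hr]; linarith
    linarith
  calc _ = 3 ^ (n + 1) * ((r ^ n)⁻¹ * ((3 * (‖u‖ / r)) ^ (n + 1))⁻¹) := by
        rw [mul_pow, div_pow]
        field_simp
        ring
    _ ≤ _ := by gcongr

theorem ker_lint (n : ℕ) : ∃ c : ℝ, 0 ≤ c ∧ ∀ r : ℝ, 0 < r → ∀ y : E n,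
    ∫⁻ x, ENNReal.ofReal (ker n ((n + 1 : ℕ) : ℝ) r (x - y)) = ENNReal.ofReal c := by
  have i0 : Integrable fun u : E n => (1 + ‖u‖) ^ (-((n + 1 : ℕ) : ℝ)) :=
    integrable_one_add_norm (by simp)
  refine ⟨∫ u : E n, (1 + ‖u‖) ^ (-((n + 1 : ℕ) : ℝ)), integral_nonneg fun u => by positivity,
    fun r hr y => ?_⟩
  have e1 : ker n ((n + 1 : ℕ) : ℝ) r = fun u : E n =>
      (r ^ n)⁻¹ * (1 + ‖r⁻¹ • u‖) ^ (-((n + 1 : ℕ) : ℝ)) := by
    funext u
    rw [ker, norm_smul, Real.norm_eq_abs, abs_of_pos (inv_pos.2 hr), div_eq_inv_mul]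
  rw [lintegral_sub_right_eq_self (fun u => ENNReal.ofReal (ker n ((n + 1 : ℕ) : ℝ) r u)) y,
    ← ofReal_integral_eq_lintegral_ofReal
      (e1 ▸ (i0.comp_smul (inv_pos.2 hr).ne').const_mul _)
      (Filter.Eventually.of_forall (ker_nonneg _ hr)), e1, integral_const_mul,
    Measure.integral_comp_inv_smul_of_nonneg volume
      (fun u : E n => (1 + ‖u‖) ^ (-((n + 1 : ℕ) : ℝ))) hr.le, finrank_euclideanSpace_fin,
    smul_eq_mul, inv_mul_cancel_left₀ (by positivity)]

theorem int_ker {K g : E n → ℂ} (hK : MemLp K 2) (hg : MemLp g 2) (x : E n) :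
    Integrable fun w => K (x - w) * g w :=
  MemLp.integrable_mul (hK.comp_measurePreserving (Measure.measurePreserving_sub_left volume x)) hg

/-- Good and bad parts at one scale. -/
theorem one_scale (n N : ℕ) (hN : 1 ≤ N) : ∃ C : ℝ, 0 < C ∧ ∀ (f : E n → ℂ) (Ω : Set (E n))
    (l : ℝ), MemLp f 2 → 0 ≤ l → Ctl N f Ω l → Ωᶜ.Nonempty → volume Ω ≠ ⊤ → ∀ r : ℝ, 0 < r →
    (∀ y, ‖cf Ω r f y‖ ≤ (sh Ω r).indicator (fun _ => C * l) y) ∧ MemLp (cf Ω r f) 2 ∧
    ∀ (B : ℝ) (K : E n → ℂ), 0 < B → ContDiff ℝ ∞ K → MemLp K 2 →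
      (∀ m, 1 ≤ m → m ≤ N → ∀ x, ‖iteratedFDeriv ℝ m K x‖ * ‖x‖ ^ (n + m) ≤ B) → ∀ x, x ∉ Ω →
      ‖(∫ w, K (x - w) * (chi Ω r w * f w)) - ∫ y, K (x - y) * cf Ω r f y‖ₑ ≤
        ∫⁻ y in sh Ω r, ENNReal.ofReal (C * B * l) *
          ENNReal.ofReal (ker n ((n + 1 : ℕ) : ℝ) r (x - y)) := by
  obtain ⟨C, hC, H⟩ := chi_bd n N
  have hP : (1 : ℝ) ≤ 2 ^ (n + 2 * N) * 3 ^ (n + 1) :=
    one_le_mul_of_one_le_of_one_le (one_le_pow₀ (by norm_num)) (one_le_pow₀ (by norm_num))
  refine ⟨C * (2 ^ (n + 2 * N) * 3 ^ (n + 1)), by positivity,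
    fun f Ω l hf hl hc hne hfin r hr => ?_⟩
  have hr8 : 0 < r / 8 := by positivity
  have h1 : ∀ y, ‖cf Ω r f y‖ ≤
      (sh Ω r).indicator (fun _ => C * (2 ^ (n + 2 * N) * 3 ^ (n + 1)) * l) y := by
    intro y
    have := H f Ω l hf hl hc hne (fun _ => 1) y r (2 ^ (n + 2 * N) * 3 ^ (n + 1)) contDiff_const
      hr fun _ => ⟨by positivity, fun j _ w _ => by
        rcases Nat.eq_zero_or_pos j with rfl | hj
        · simpa using hP
        · rw [iteratedFDeriv_const_of_ne hj.ne', Pi.zero_apply, norm_zero, mul_zero]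
          positivity⟩
    simp only [one_mul] at this
    exact this
  have h2 : MemLp (cf Ω r f) 2 :=
    (memLp_indicator_const 2 (sh_meas Ω r) (C * (2 ^ (n + 2 * N) * 3 ^ (n + 1)) * l)
      (Or.inr (ne_top_of_le_ne_top hfin (measure_mono (sh_sub hr))))).of_le
      (cf_cont hr hf).aestronglyMeasurable
      (Filter.Eventually.of_forall fun y => (h1 y).trans (le_abs_self _))
  refine ⟨h1, h2, fun B K hB hK hK2 hKB x hx => ?_⟩
  have hg := chi_memLp (Ω := Ω) hr hf
  have hg' := hg.locallyIntegrable (by norm_num)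
  have i1 := (int_ker hK2 hg x).convolution_integrand (ContinuousLinearMap.mul ℝ ℂ) (μ := volume)
    (er_integrable (n := n) hr8).ofReal
  have i2 : Integrable (Function.uncurry fun y w : E n => K (x - w) * (chi Ω r w * f w) *
      (er n (r / 8) (y - w) : ℂ)) (volume.prod volume) := i1
  have e1 : ∫ w, K (x - w) * (chi Ω r w * f w) =
      ∫ y, ∫ w, K (x - w) * (chi Ω r w * f w) * (er n (r / 8) (y - w) : ℂ) := by
    rw [integral_integral_swap i2]
    simp only [integral_const_mul, integral_complex_ofReal, er_int hr8, Complex.ofReal_one,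
      mul_one]
  have sK : ContDiff ℝ ∞ fun w => K (x - w) := hK.comp (contDiff_const.sub contDiff_id)
  have i3 : Integrable fun y => ∫ w, K (x - w) * (chi Ω r w * f w) *
      (er n (r / 8) (y - w) : ℂ) := i2.integral_prod_left
  rw [e1, ← integral_sub i3 (int_ker hK2 h2 x),
    ← lintegral_indicator (sh_meas Ω r)]
  refine (enorm_integral_le_lintegral_enorm _).trans (lintegral_mono fun y => ?_)
  have e2 : (∫ w, K (x - w) * (chi Ω r w * f w) * (er n (r / 8) (y - w) : ℂ)) -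
      K (x - y) * cf Ω r f y =
      ∫ w, (K (x - w) - K (x - y)) * er n (r / 8) (y - w) * (chi Ω r w * f w) := by
    simp only [sub_mul]
    rw [integral_sub (loc_int sK.continuous hg' hr8 y) (loc_int continuous_const hg' hr8 y), cf,
      ← integral_const_mul]
    simp only [mul_assoc, mul_comm, mul_left_comm]
  have h3 : y ∈ sh Ω r → r / 2 < ‖x - y‖ := fun hy => by
    rw [norm_sub_rev, ← dist_eq_norm]
    exact hy.1.trans_le (infDist_le_dist_of_mem hx)
  have h4 := H f Ω l hf hl hc hne (fun w => K (x - w) - K (x - y)) y r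
    (B * 2 ^ (n + 2 * N) * (r / ‖x - y‖ ^ (n + 1))) (sK.sub contDiff_const) hr fun hy =>
      ⟨by have := (half_pos hr).trans (h3 hy); positivity, kern_bd hN hK hKB hr (h3 hy).le⟩
  simp only [e2]
  rw [← ofReal_norm]
  by_cases hy : y ∈ sh Ω r
  · rw [indicator_of_mem hy] at h4 ⊢
    rw [← ENNReal.ofReal_mul (by positivity)]
    refine ENNReal.ofReal_le_ofReal (h4.trans ?_)
    calc _ ≤ C * (B * 2 ^ (n + 2 * N) * (3 ^ (n + 1) * ker n ((n + 1 : ℕ) : ℝ) r (x - y))) * l := by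
          gcongr
          exact le_ker hr (h3 hy).le
      _ = _ := by ring
  · rw [indicator_of_notMem hy] at h4 ⊢
    exact (ENNReal.ofReal_of_nonpos h4).le

end Pool.Agent.HP.CZ
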