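import Pool.Agent.Lib.HP.Blue
import Pool.Agent.Lib.HP.B_HAT46
import Pool.Agent.Lib.HP.B_PAR
import Pool.Agent.Lib.HP.B_L2C
import Pool.Agent.Lib.HP.B_L2B
import Pool.Agent.Lib.HP.B_RSZ
import Pool.Agent.Lib.HP.B_CRU
import Pool.Agent.Lib.HP.B_ADM
import Pool.Agent.Lib.HP.B_HL
import Pool.Agent.Lib.HP.B_DEC
import Pool.Agent.Lib.HP.B_DSUP
import Pool.Agent.Lib.HP.B_TST
import Pool.Agent.Lib.HP.B_GRD
import Pool.Agent.Lib.HP.B_PHI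
import Pool.Agent.Lib.HP.B_PEE46
import Pool.Agent.Lib.HP.B_CZ0
import Pool.Agent.Lib.HP.B_KER
import Pool.Agent.Lib.HP.B_LAY
import Pool.Agent.Lib.HP.B_NTA
import Pool.Agent.Lib.HP.B_LOW
import Pool.Agent.Lib.HP.B_UPR
import Pool.Agent.Lib.HP.B_UP

set_option autoImplicit false

namespace Pool.Agent.HP

theorem low_all : St_LOW :=
  st_LOW st_HAT46 (st_RSZ st_HAT46) (st_PHI (st_PAR st_HAT46) st_ADM (st_DSUP st_DEC))
    (st_NTA st_HL (st_L2C st_HAT46) st_CRU) st_HL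

theorem up_all : St_UP :=
  st_UP st_HAT46 (st_PAR st_HAT46) (st_L2C st_HAT46)
    (st_GRD st_HAT46 (st_PAR st_HAT46) st_ADM st_TST (st_DSUP st_DEC))
    (st_PEE46 st_HAT46 (st_PAR st_HAT46) st_ADM st_DEC st_HL) st_HL
    (st_UPR st_HAT46 (st_PAR st_HAT46) (st_L2C st_HAT46) (st_L2B st_HAT46 (st_PAR st_HAT46)) (st_RSZ st_HAT46)
      st_KER (st_CZ0 (st_L2B st_HAT46 (st_PAR st_HAT46))) st_LAY)

end Pool.Agent.HP
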