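import Mathlib
import Pool.Agent.Lib.HP.Defs

set_option autoImplicit false

open MeasureTheory Complex Real Filter Topology
open scoped ENNReal ContDiff SchwartzMap FourierTransform

noncomputable section

namespace Pool.Agent.HP

variable {n : ℕ}

theorem ker_pos (a : ℝ) {s : ℝ} (hs : 0 < s) (z : E n) : 0 < ker n a s z := by
  unfold ker
  have : 0 < 1 + ‖z‖ / s := by positivity
  positivity

theorem continuous_ker (a : ℝ) {s : ℝ} (hs : 0 < s) : Continuous (ker n a s) := by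
  unfold ker
  refine continuous_const.mul (Continuous.rpow_const (by fun_prop) fun z => Or.inl ?_)
  have : 0 < 1 + ‖z‖ / s := by positivity
  exact this.ne'

/-- the basic inequality of the Peetre argument -/
theorem one_add_le_mul (x y z : E n) {s t : ℝ} (hs : 0 < s) (ht : 0 < t) :
    1 + ‖z - x‖ / s ≤ (1 + t / s) * (1 + ‖y - x‖ / t) * (1 + ‖z - y‖ / s) := by
  have h1 : ‖z - x‖ ≤ ‖y - x‖ + ‖z - y‖ := by
    calc ‖z - x‖ = ‖(y - x) + (z - y)‖ := by congr 1; abel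
      _ ≤ _ := norm_add_le _ _
  have h2 : 1 + ‖y - x‖ / s ≤ (1 + t / s) * (1 + ‖y - x‖ / t) := by
    have e : (1 + t / s) * (1 + ‖y - x‖ / t) = 1 + ‖y - x‖ / s + (t / s + ‖y - x‖ / t) := by
      field_simp; ring
    have : 0 ≤ t / s + ‖y - x‖ / t := by positivity
    linarith
  have h3 : 1 + ‖z - x‖ / s ≤ (1 + ‖y - x‖ / s) * (1 + ‖z - y‖ / s) := by
    have h4 : ‖z - x‖ / s ≤ ‖y - x‖ / s + ‖z - y‖ / s := by
      rw [← add_div]; exact div_le_div_of_nonneg_right h1 hs.le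
    have : 0 ≤ ‖y - x‖ / s * (‖z - y‖ / s) := by positivity
    nlinarith
  exact h3.trans (mul_le_mul_of_nonneg_right h2 (by positivity))

/-- same scale version -/
theorem one_add_le_mul' (x y z : E n) {s : ℝ} (hs : 0 < s) :
    1 + ‖z - x‖ / s ≤ (1 + ‖y - x‖ / s) * (1 + ‖z - y‖ / s) := by
  have h1 : ‖z - x‖ ≤ ‖y - x‖ + ‖z - y‖ := by
    calc ‖z - x‖ = ‖(y - x) + (z - y)‖ := by congr 1; abel
      _ ≤ _ := norm_add_le _ _
  have h4 : ‖z - x‖ / s ≤ ‖y - x‖ / s + ‖z - y‖ / s := by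
    rw [← add_div]; exact div_le_div_of_nonneg_right h1 hs.le
  have : 0 ≤ ‖y - x‖ / s * (‖z - y‖ / s) := by positivity
  nlinarith

theorem le_PS (A : ℝ) (v : Y n → ℂ) (x y : E n) {t : ℝ} (ht : 0 < t) :
    ‖v (y, t)‖ₑ * ENNReal.ofReal ((1 + ‖y - x‖ / t) ^ (-A)) ≤ PS A v x :=
  le_iSup₂_of_le (f := fun (t : ℝ) (_ : 0 < t) =>
    ⨆ y : E n, ‖v (y, t)‖ₑ * ENNReal.ofReal ((1 + ‖y - x‖ / t) ^ (-A))) t ht
    (le_iSup (fun y : E n => ‖v (y, t)‖ₑ * ENNReal.ofReal ((1 + ‖y - x‖ / t) ^ (-A))) y)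

theorem enorm_le_PS (A : ℝ) (v : Y n → ℂ) (x : E n) {t : ℝ} (ht : 0 < t) :
    ‖v (x, t)‖ₑ ≤ PS A v x := by
  have h := le_PS A v x x ht
  simpa using h

theorem Mx_le_PS (A : ℝ) (φ f : E n → ℂ) (x : E n) : Mx φ f x ≤ PS A (conv φ f) x :=
  iSup₂_le fun _ ht => enorm_le_PS A _ x ht

theorem PS_congr (A : ℝ) {v w : Y n → ℂ} (h : ∀ (y : E n) (t : ℝ), 0 < t → v (y, t) = w (y, t)) :
    PS A v = PS A w := by
  funext x
  unfold PS
  refine iSup_congr fun t => iSup_congr fun ht => iSup_congr fun y => ?_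
  rw [h y t ht]

theorem KS_congr (A : ℝ) {v w : Y n → ℂ} (h : ∀ (y : E n) (t : ℝ), 0 < t → v (y, t) = w (y, t)) :
    KS A v = KS A w := by
  funext x
  unfold KS
  refine iSup_congr fun t => iSup_congr fun ht => lintegral_congr fun y => ?_
  rw [h y t ht]

theorem lsc_PS (A : ℝ) (v : Y n → ℂ) : LowerSemicontinuous (PS A v) := by
  unfold PS
  refine lowerSemicontinuous_iSup fun t => lowerSemicontinuous_iSup fun ht =>
    lowerSemicontinuous_iSup fun y => Continuous.lowerSemicontinuous ?_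
  refine (ENNReal.continuous_const_mul enorm_ne_top).comp (ENNReal.continuous_ofReal.comp ?_)
  refine Continuous.rpow_const (by fun_prop) fun x => Or.inl ?_
  have : 0 < 1 + ‖y - x‖ / t := by positivity
  exact this.ne'

theorem le_KM (a : ℝ) (g : E n → ℝ≥0∞) (x : E n) {s : ℝ} (hs : 0 < s) :
    ∫⁻ z, ENNReal.ofReal (ker n a s (z - x)) * g z ≤ KM a g x :=
  le_iSup₂ (f := fun (s : ℝ) (_ : 0 < s) => ∫⁻ z, ENNReal.ofReal (ker n a s (z - x)) * g z) s hs

theorem KM_mono_ae (a : ℝ) {g h : E n → ℝ≥0∞} (hgh : g ≤ᵐ[volume] h) (x : E n) :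
    KM a g x ≤ KM a h x := by
  refine iSup₂_mono fun s _ => lintegral_mono_ae ?_
  filter_upwards [hgh] with z hz
  exact mul_le_mul_right hz _

theorem KM_add_le (a : ℝ) {g : E n → ℝ≥0∞} (hg : AEMeasurable g volume) (h : E n → ℝ≥0∞)
    (x : E n) : KM a (fun z => g z + h z) x ≤ KM a g x + KM a h x := by
  refine iSup₂_le fun s hs => ?_
  have hm : AEMeasurable (fun z => ENNReal.ofReal (ker n a s (z - x)) * g z) volume :=
    (((continuous_ker a hs).comp (continuous_id.sub continuous_const)).measurable.ennreal_ofReal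
      ).aemeasurable.mul hg
  simp only [mul_add]
  rw [lintegral_add_left' hm]
  exact add_le_add (le_KM a g x hs) (le_KM a h x hs)

theorem ker_shift {a : ℝ} (ha : 0 ≤ a) {s : ℝ} (hs : 0 < s) (x y z : E n) :
    (1 + ‖y - x‖ / s) ^ (-a) * ker n a s (z - y) ≤ ker n a s (z - x) := by
  unfold ker
  have h := one_add_le_mul' x y z hs
  have h0 : 0 < 1 + ‖z - x‖ / s := by positivity
  have h1 : 0 < 1 + ‖y - x‖ / s := by positivity
  have h2 : 0 < 1 + ‖z - y‖ / s := by positivity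
  have h3 : ((1 + ‖y - x‖ / s) * (1 + ‖z - y‖ / s)) ^ (-a) ≤ (1 + ‖z - x‖ / s) ^ (-a) :=
    Real.rpow_le_rpow_of_nonpos h0 h (by linarith)
  rw [Real.mul_rpow h1.le h2.le] at h3
  have h4 : 0 ≤ (s ^ n)⁻¹ := by positivity
  calc _ = (s ^ n)⁻¹ * ((1 + ‖y - x‖ / s) ^ (-a) * (1 + ‖z - y‖ / s) ^ (-a)) := by ring
    _ ≤ _ := mul_le_mul_of_nonneg_left h3 h4

theorem lsc_KM {a : ℝ} (ha : 0 ≤ a) (g : E n → ℝ≥0∞) : LowerSemicontinuous (KM a g) := by
  unfold KM
  refine lowerSemicontinuous_iSup fun s => lowerSemicontinuous_iSup fun hs => ?_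
  intro y c hc
  set I : E n → ℝ≥0∞ := fun x => ∫⁻ z, ENNReal.ofReal (ker n a s (z - x)) * g z with hI
  have hle : ∀ x, ENNReal.ofReal ((1 + ‖y - x‖ / s) ^ (-a)) * I y ≤ I x := by
    intro x
    simp only [hI]
    rw [← lintegral_const_mul' _ _ ENNReal.ofReal_ne_top]
    refine lintegral_mono fun z => ?_
    have h1 : 0 < 1 + ‖y - x‖ / s := by positivity
    simp only
    rw [← mul_assoc, ← ENNReal.ofReal_mul (by positivity)]
    exact mul_le_mul_left (ENNReal.ofReal_le_ofReal (ker_shift ha hs x y z)) _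
  have hc1 : Continuous fun x : E n => ENNReal.ofReal ((1 + ‖y - x‖ / s) ^ (-a)) := by
    refine ENNReal.continuous_ofReal.comp (Continuous.rpow_const (by fun_prop) fun x => Or.inl ?_)
    have : 0 < 1 + ‖y - x‖ / s := by positivity
    exact this.ne'
  have ht : Tendsto (fun x : E n => ENNReal.ofReal ((1 + ‖y - x‖ / s) ^ (-a)) * I y) (𝓝 y)
      (𝓝 (I y)) := by
    have h1 := hc1.tendsto y
    have e : ENNReal.ofReal ((1 + ‖y - y‖ / s) ^ (-a)) = 1 := by simp
    rw [e] at h1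
    have h2 := ENNReal.Tendsto.mul_const (b := I y) h1 (Or.inl one_ne_zero)
    rwa [one_mul] at h2
  filter_upwards [ht.eventually (lt_mem_nhds hc)] with x hx
  exact lt_of_lt_of_le hx (hle x)

theorem measurable_KM {a : ℝ} (ha : 0 ≤ a) (g : E n → ℝ≥0∞) : Measurable (KM a g) :=
  (lsc_KM ha g).measurable

theorem memLp_dil {m : E n → ℂ} {p : ℝ≥0∞} (hm : MemLp m p) {t : ℝ} (ht : t ≠ 0) :
    MemLp (fun ξ => m (t • ξ)) p := by
  have h1 : MemLp m p (Measure.map (fun ξ : E n => t • ξ) volume) := by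
    rw [Measure.map_addHaar_smul volume ht]
    exact hm.smul_measure ENNReal.ofReal_ne_top
  exact h1.comp_of_map (by fun_prop)

theorem integrable_dil {m g : E n → ℂ} (hm : MemLp m 2) (hg : MemLp g 2) {t : ℝ} (ht : t ≠ 0) :
    Integrable (fun ξ => m (t • ξ) * g ξ) :=
  (memLp_dil hm ht).integrable_mul hg

theorem continuous_fourierInv' {h : E n → ℂ} (hh : Integrable h) : Continuous (𝓕⁻ h) := by
  have h1 : Continuous (𝓕 h) :=
    VectorFourier.fourierIntegral_continuous Real.continuous_fourierChar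
      (innerSL ℝ).continuous₂ hh
  have e : 𝓕⁻ h = fun w => 𝓕 h (-w) := funext fun w => Real.fourierInv_eq_fourier_neg h w
  rw [e]
  exact h1.comp continuous_neg

theorem continuous_T {m g : E n → ℂ} (hm : MemLp m 2) (hg : MemLp g 2) {t : ℝ} (ht : t ≠ 0) :
    Continuous (fun x => T m g (x, t)) :=
  continuous_fourierInv' (integrable_dil hm hg ht)

theorem memLp_fourier (φ : 𝓢(E n, ℂ)) : MemLp (𝓕 (φ : E n → ℂ)) 2 :=
  (𝓕 φ : 𝓢(E n, ℂ)).memLp 2 volume

theorem bd_schwartz (ψ : 𝓢(E n, ℂ)) (N : ℕ) : ∃ B : ℝ, 0 ≤ B ∧ Bd N B (ψ : E n → ℂ) := by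
  refine ⟨∑ i ∈ Finset.range (N + 1), ∑ j ∈ Finset.range (N + 1), SchwartzMap.seminorm ℝ i j ψ,
    by positivity, ψ.smooth ⊤, fun i hi j hj ξ => ?_⟩
  refine (SchwartzMap.le_seminorm ℝ i j ψ ξ).trans ?_
  have h1 : SchwartzMap.seminorm ℝ i j ψ ≤
      ∑ j ∈ Finset.range (N + 1), SchwartzMap.seminorm ℝ i j ψ :=
    Finset.single_le_sum (f := fun j => SchwartzMap.seminorm ℝ i j ψ)
      (fun _ _ => by positivity) (Finset.mem_range.2 (by omega))
  refine h1.trans ?_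
  exact Finset.single_le_sum
    (f := fun i => ∑ j ∈ Finset.range (N + 1), SchwartzMap.seminorm ℝ i j ψ)
    (fun _ _ => by positivity) (Finset.mem_range.2 (by omega))

theorem bd_fourier (φ : 𝓢(E n, ℂ)) (N : ℕ) : ∃ B : ℝ, 0 ≤ B ∧ Bd N B (𝓕 (φ : E n → ℂ)) :=
  bd_schwartz (𝓕 φ) N

theorem conv_one (K f : E n → ℂ) (x : E n) : conv K f (x, 1) = cv K f x := by
  simp [conv, cv]

theorem norm_rs_le (j : Fin n) (ξ : E n) : ‖rs j ξ‖ ≤ 1 := by
  unfold rs
  by_cases h : ξ = 0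
  · simp [h]
  · have h0 : 0 < ‖ξ‖ := norm_pos_iff.2 h
    rw [norm_div, norm_mul, norm_neg, Complex.norm_I, one_mul, Complex.norm_real,
      Complex.norm_real, norm_norm, div_le_one h0]
    have := abs_real_inner_le_norm ξ (EuclideanSpace.single j (1 : ℝ))
    simpa using this

theorem measurable_rs (j : Fin n) : Measurable (rs j : E n → ℂ) := by
  unfold rs
  fun_prop

theorem memLp_gs {g : E n → ℂ} (hg : MemLp g 2) (i : Option (Fin n)) : MemLp (gs g i) 2 := by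
  cases i with
  | none => exact hg
  | some j =>
    refine hg.of_le ((measurable_rs j).aestronglyMeasurable.mul hg.1) (ae_of_all _ fun ξ => ?_)
    simp only [gs, norm_mul]
    exact mul_le_of_le_one_left (norm_nonneg _) (norm_rs_le j ξ)

theorem continuous_po : Continuous (po : E n → ℂ) := by
  unfold po
  fun_prop

theorem norm_po_le (ξ : E n) : ‖po ξ‖ ≤ 1 := by
  unfold po
  rw [Complex.norm_real, Real.norm_eq_abs, abs_of_pos (Real.exp_pos _), Real.exp_le_one_iff]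
  have : 0 ≤ 2 * π * ‖ξ‖ := by positivity
  linarith

theorem memLp_po : MemLp (po : E n → ℂ) 2 := by
  have hint : Integrable (fun ξ : E n => (1 + ‖ξ‖) ^ (-((n : ℝ) + 1))) :=
    integrable_one_add_norm (by simp)
  rw [memLp_two_iff_integrable_sq_norm continuous_po.aestronglyMeasurable]
  refine (hint.const_mul (Real.exp 1 * ((n + 1).factorial : ℝ))).mono'
    (continuous_po.norm.pow 2).aestronglyMeasurable (ae_of_all _ fun ξ => ?_)
  have h0 : 0 < 1 + ‖ξ‖ := by positivity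
  have h1 : (1 + ‖ξ‖) ^ (n + 1) / ((n + 1).factorial : ℝ) ≤ Real.exp (1 + ‖ξ‖) :=
    Real.pow_div_factorial_le_exp _ h0.le _
  have hf : (0 : ℝ) < ((n + 1).factorial : ℝ) := by positivity
  have e1 : (1 + ‖ξ‖) ^ (-((n : ℝ) + 1)) = ((1 + ‖ξ‖) ^ (n + 1))⁻¹ := by
    rw [Real.rpow_neg h0.le, ← Real.rpow_natCast]; push_cast; rfl
  have h2 : ‖po ξ‖ ^ 2 ≤ Real.exp (-‖ξ‖) := by
    unfold po
    rw [Complex.norm_real, Real.norm_eq_abs, abs_of_pos (Real.exp_pos _), ← Real.exp_nat_mul]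
    apply Real.exp_le_exp.2
    have h3 := Real.pi_gt_three
    have h4 := norm_nonneg ξ
    push_cast
    nlinarith
  rw [Real.norm_eq_abs, abs_of_nonneg (by positivity), e1]
  refine h2.trans ?_
  have hp : 0 < (1 + ‖ξ‖) ^ (n + 1) := by positivity
  rw [div_le_iff₀ hf, Real.exp_add] at h1
  rw [← div_eq_mul_inv, le_div_iff₀ hp, Real.exp_neg]
  have he := Real.exp_pos ‖ξ‖
  calc (Real.exp ‖ξ‖)⁻¹ * (1 + ‖ξ‖) ^ (n + 1)
      ≤ (Real.exp ‖ξ‖)⁻¹ * (Real.exp 1 * Real.exp ‖ξ‖ * ((n + 1).factorial : ℝ)) :=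
        mul_le_mul_of_nonneg_left h1 (by positivity)
    _ = _ := by field_simp

/-- the kernels have a finite integral independent of the scale -/
theorem lintegral_ker {a : ℝ} (ha : (n : ℝ) < a) : ∃ C : ℝ, 0 ≤ C ∧ ∀ (s : ℝ), 0 < s → ∀ x : E n,
    ∫⁻ z, ENNReal.ofReal (ker n a s (z - x)) = ENNReal.ofReal C := by
  have hint : Integrable (fun ξ : E n => (1 + ‖ξ‖) ^ (-a)) := integrable_one_add_norm (by simpa)
  refine ⟨∫ ξ : E n, (1 + ‖ξ‖) ^ (-a), integral_nonneg fun ξ => by positivity, fun s hs x => ?_⟩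
  rw [lintegral_sub_right_eq_self (fun z => ENNReal.ofReal (ker n a s z)) x]
  have e : ∀ z : E n, ker n a s z = (s ^ n)⁻¹ * (1 + ‖s⁻¹ • z‖) ^ (-a) := by
    intro z
    rw [ker, norm_smul, Real.norm_eq_abs, abs_of_pos (inv_pos.2 hs), div_eq_inv_mul]
  have hi2 : Integrable (fun z : E n => (1 + ‖s⁻¹ • z‖) ^ (-a)) :=
    hint.comp_smul (inv_pos.2 hs).ne'
  rw [← ofReal_integral_eq_lintegral_ofReal]
  · congr 1
    simp only [e]
    rw [integral_const_mul, Measure.integral_comp_inv_smul_of_nonneg volume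
      (fun ξ : E n => (1 + ‖ξ‖) ^ (-a)) hs.le]
    have hp : 0 < s ^ n := by positivity
    simp only [finrank_euclideanSpace, Fintype.card_fin, smul_eq_mul]
    field_simp
  · have e2 : ker n a s = fun z => (s ^ n)⁻¹ * (1 + ‖s⁻¹ • z‖) ^ (-a) := funext e
    show Integrable (ker n a s)
    rw [e2]
    exact hi2.const_mul _
  · exact ae_of_all _ fun z => (ker_pos a hs z).le

end Pool.Agent.HP
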